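import Pool.Agent.Work.MP_4c5ddc_co.CO.Cells

/-!
# CO/Bal (M): balanced pairs

PROOF. `M ≥ 1`. Let `η = c / M ^ 2`, `D = 2`, `N₀` from `active_cells η 2`, `N = 2 * N₀`. Let
`P` be the set of the points `(A i, z i)` and `(x k, C k)`, at most `2 n` points. For `e ∈ T` let
`v = (A e.1, C e.2)`, `p = (A e.1, z e.1)`, `q = (x e.2, C e.2)`, `ρ = |z e.1 - C e.2| = dist p v`,
`s = |x e.2 - A e.1| = dist q v`, `d = dist p q = max s ρ`. Then `d > 0` and `d ≤ M * s`.
Let `m e = Int.log 2 d`, so `2 ^ m ≤ d < 2 ^ (m + 1)`, `F e = (m, cell η m v)`. `F e` is active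
(`ρ, s ≤ d < 2 * 2 ^ m`). `F` is injective on `T`: let `F e = F f`, `m` the common scale. The
coordinates of the points `v` of `e` and `f` differ by less than `η * 2 ^ m` (equal floors), and
`η * 2 ^ m ≤ c / M ^ 2 * d ≤ c * s / M ≤ c * σ e.1 (C e.2)` and
`η * 2 ^ m ≤ c * s`, the same for `f`. If `A f.1 < A e.1`: contradiction with `hW` (`e, e`,
`h = C e.2`, `g = f`); if `A e.1 < A f.1`: the same with `e, f` exchanged. If `C f.2 < C e.2`:
contradiction with `hF` (for `(e.2, e.1)` twice, `h = A e.1`, `g = (f.2, f.1)`), the same if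
`C e.2 < C f.2`. So both coordinates are equal and `e = f` by `hinj`. Hence
`T.card = (T.image F).card ≤ N₀ * P.card ≤ N₀ * (2 * n)`.
-/

set_option autoImplicit false

namespace UF.CO

private theorem floor_close {a b t : ℝ} (ht : 0 < t) (h : ⌊a / t⌋ = ⌊b / t⌋) : |a - b| < t := by
  have h1 := Int.abs_sub_lt_one_of_floor_eq_floor h
  rw [← sub_div, abs_div, abs_of_pos ht, div_lt_one ht] at h1
  exact h1

private theorem step {n : ℕ} {c t : ℝ} {A C x : Fin n → ℝ} {σ : Fin n → ℝ → ℝ}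
    {T : Finset (Fin n × Fin n)} (hW : Cov c A σ C T)
    (hF : Cov c C (fun k y => |x k - y|) A (sw T)) {e f : Fin n × Fin n} (he : e ∈ T) (hf : f ∈ T)
    (h1 : |A e.1 - A f.1| < t) (h2 : |C e.2 - C f.2| < t) (h3 : t ≤ c * σ e.1 (C e.2))
    (h4 : t ≤ c * |x e.2 - A e.1|) : A e.1 ≤ A f.1 ∧ C e.2 ≤ C f.2 := by
  constructor
  · by_contra hlt
    push Not at hlt
    refine hW e he e he rfl (C e.2) Set.left_mem_uIcc f hf hlt ?_ ?_
    · exact lt_of_le_of_lt (le_abs_self _) (h1.trans_le h3)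
    · rw [abs_sub_comm]
      exact h2.trans_le h3
  · by_contra hlt
    push Not at hlt
    have hes : (e.2, e.1) ∈ sw T := Finset.mem_image_of_mem _ he
    have hfs : (f.2, f.1) ∈ sw T := Finset.mem_image_of_mem _ hf
    refine hF (e.2, e.1) hes (e.2, e.1) hes rfl (A e.1) Set.left_mem_uIcc (f.2, f.1) hfs hlt ?_ ?_
    · exact lt_of_le_of_lt (le_abs_self _) (h2.trans_le h4)
    · show |A f.1 - A e.1| < c * |x e.2 - A e.1|
      rw [abs_sub_comm]
      exact h1.trans_le h4

theorem bal_bound {c M : ℝ} (hc : 0 < c) (hM : 1 ≤ M) : ∃ N : ℕ, ∀ (n : ℕ)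
    (A C z x : Fin n → ℝ) (σ : Fin n → ℝ → ℝ) (T : Finset (Fin n × Fin n)),
    Cov c A σ C T → Cov c C (fun k y => |x k - y|) A (sw T) → Inj2 A C T →
    (∀ e ∈ T, 0 < |z e.1 - C e.2|) → (∀ e ∈ T, |z e.1 - C e.2| ≤ M * |x e.2 - A e.1|) →
    (∀ e ∈ T, |x e.2 - A e.1| ≤ M * σ e.1 (C e.2)) → T.card ≤ N * n := by
  classical
  have hM0 : 0 < M := lt_of_lt_of_le one_pos hM
  have hη : 0 < c / M ^ 2 := by positivity
  obtain ⟨N₀, hN⟩ := active_cells (c / M ^ 2) 2 hη (by norm_num)
  refine ⟨2 * N₀, fun n A C z x σ T hW hF hinj hpos hzM hxM => ?_⟩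
  set η : ℝ := c / M ^ 2 with hηd
  set P : Finset (ℝ × ℝ) := (Finset.univ.image fun i : Fin n => (A i, z i)) ∪
    (Finset.univ.image fun k : Fin n => (x k, C k)) with hP
  have hPc : P.card ≤ 2 * n := by
    refine (Finset.card_union_le _ _).trans ?_
    have h1 := Finset.card_image_le (s := (Finset.univ : Finset (Fin n)))
      (f := fun i : Fin n => (A i, z i))
    have h2 := Finset.card_image_le (s := (Finset.univ : Finset (Fin n)))
      (f := fun k : Fin n => (x k, C k))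
    rw [Finset.card_univ, Fintype.card_fin] at h1 h2
    omega
  set d : Fin n × Fin n → ℝ := fun e => max |x e.2 - A e.1| |z e.1 - C e.2| with hd
  have hs0 : ∀ e ∈ T, 0 < |x e.2 - A e.1| := by
    intro e he
    by_contra h
    have h0 : |x e.2 - A e.1| = 0 := le_antisymm (not_lt.1 h) (abs_nonneg _)
    have h1 := hzM e he
    rw [h0, mul_zero] at h1
    exact absurd (hpos e he) (not_lt.2 h1)
  have hd0 : ∀ e ∈ T, 0 < d e := fun e he => lt_of_lt_of_le (hs0 e he) (le_max_left _ _)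
  have hdM : ∀ e ∈ T, d e ≤ M * |x e.2 - A e.1| := by
    intro e he
    refine max_le ?_ (hzM e he)
    have h1 := (hs0 e he).le
    nlinarith
  set m : Fin n × Fin n → ℤ := fun e => Int.log 2 (d e) with hm
  have hm1 : ∀ e ∈ T, (2 : ℝ) ^ m e ≤ d e := by
    intro e he
    have h1 := Int.zpow_log_le_self (b := 2) (R := ℝ) (by norm_num) (hd0 e he)
    rw [Nat.cast_ofNat] at h1
    exact h1
  have hm2 : ∀ e : Fin n × Fin n, d e < (2 : ℝ) ^ (m e + 1) := by
    intro e
    have h1 := Int.lt_zpow_succ_log_self (b := 2) (R := ℝ) (by norm_num) (d e)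
    rw [Nat.cast_ofNat] at h1
    exact h1
  have hm3 : ∀ e : Fin n × Fin n, d e ≤ 2 * (2 : ℝ) ^ m e := by
    intro e
    have h1 := (hm2 e).le
    rw [zpow_add_one₀ (by norm_num : (2 : ℝ) ≠ 0)] at h1
    linarith
  set F : Fin n × Fin n → ℤ × (ℤ × ℤ) := fun e => (m e, cell η (m e) (A e.1, C e.2)) with hFd
  have hact : ∀ s ∈ T.image F, Active η 2 P s := by
    intro s hs
    obtain ⟨e, he, rfl⟩ := Finset.mem_image.1 hs
    have hpq : dist ((A e.1, z e.1) : ℝ × ℝ) (x e.2, C e.2) = d e := by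
      rw [Prod.dist_eq, Real.dist_eq, Real.dist_eq]
      show max |A e.1 - x e.2| |z e.1 - C e.2| = max |x e.2 - A e.1| |z e.1 - C e.2|
      rw [abs_sub_comm (A e.1)]
    have hpv : dist ((A e.1, z e.1) : ℝ × ℝ) (A e.1, C e.2) ≤ d e := by
      rw [Prod.dist_eq, Real.dist_eq, Real.dist_eq]
      refine max_le ?_ (le_max_right _ _)
      show |A e.1 - A e.1| ≤ d e
      rw [sub_self, abs_zero]
      exact (hd0 e he).le
    have hqv : dist ((x e.2, C e.2) : ℝ × ℝ) (A e.1, C e.2) ≤ d e := by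
      rw [Prod.dist_eq, Real.dist_eq, Real.dist_eq]
      refine max_le (le_max_left _ _) ?_
      show |C e.2 - C e.2| ≤ d e
      rw [sub_self, abs_zero]
      exact (hd0 e he).le
    refine ⟨(A e.1, C e.2), (A e.1, z e.1), (x e.2, C e.2), ?_, ?_, rfl, ?_, ?_,
      hpv.trans (hm3 e), hqv.trans (hm3 e)⟩
    · exact Finset.mem_union_left _ (Finset.mem_image_of_mem _ (Finset.mem_univ _))
    · exact Finset.mem_union_right _
        (Finset.mem_image_of_mem (fun k : Fin n => (x k, C k)) (Finset.mem_univ _))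
    · rw [hpq]
      exact hm1 e he
    · rw [hpq]
      exact hm2 e
  have hbd : ∀ e ∈ T, η * 2 ^ m e ≤ c * σ e.1 (C e.2) ∧ η * 2 ^ m e ≤ c * |x e.2 - A e.1| := by
    intro e he
    have h1 : η * 2 ^ m e ≤ c / M * |x e.2 - A e.1| := by
      calc η * 2 ^ m e ≤ η * (M * |x e.2 - A e.1|) :=
            mul_le_mul_of_nonneg_left ((hm1 e he).trans (hdM e he)) hη.le
        _ = c / M * |x e.2 - A e.1| := by
            rw [hηd]
            field_simp
    have h2 : c / M * |x e.2 - A e.1| ≤ c * σ e.1 (C e.2) := by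
      calc c / M * |x e.2 - A e.1| ≤ c / M * (M * σ e.1 (C e.2)) :=
            mul_le_mul_of_nonneg_left (hxM e he) (by positivity)
        _ = c * σ e.1 (C e.2) := by field_simp
    have h3 : c / M * |x e.2 - A e.1| ≤ c * |x e.2 - A e.1| :=
      mul_le_mul_of_nonneg_right (div_le_self hc.le hM) (abs_nonneg _)
    exact ⟨h1.trans h2, h1.trans h3⟩
  have hinjF : Set.InjOn F (T : Set (Fin n × Fin n)) := by
    intro e he f hf hef
    have he' : e ∈ T := he
    have hf' : f ∈ T := hf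
    have hmm : m e = m f := congrArg Prod.fst hef
    have hcell : cell η (m e) (A e.1, C e.2) = cell η (m f) (A f.1, C f.2) := congrArg Prod.snd hef
    have ht0 : 0 < η * (2 : ℝ) ^ m e := by positivity
    rw [← hmm] at hcell
    have hA := floor_close ht0 (congrArg Prod.fst hcell)
    have hC := floor_close ht0 (congrArg Prod.snd hcell)
    have hA' : |A e.1 - A f.1| < η * 2 ^ m e := hA
    have hC' : |C e.2 - C f.2| < η * 2 ^ m e := hC
    have h1 := step hW hF he' hf' hA' hC' (hbd e he').1 (hbd e he').2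
    have h2 := step hW hF hf' he' (t := η * 2 ^ m f)
      (by rw [abs_sub_comm, ← hmm]; exact hA') (by rw [abs_sub_comm, ← hmm]; exact hC')
      (hbd f hf').1 (hbd f hf').2
    exact hinj e he' f hf' (le_antisymm h1.1 h2.1) (le_antisymm h1.2 h2.2)
  calc T.card = (T.image F).card := (Finset.card_image_of_injOn hinjF).symm
    _ ≤ N₀ * P.card := hN P _ hact
    _ ≤ N₀ * (2 * n) := Nat.mul_le_mul_left _ hPc
    _ = 2 * N₀ * n := by ring

end UF.CO
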