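import Pool.Agent.Work.MP_4c5ddc_co.CO.Defs

/-!
# CO/Neg (S): unbalanced pairs, tip below

PROOF. `e ↦ e.1` is injective on `T`. Let `e, f ∈ T` with `e.1 = f.1`, `e ≠ f`. By `hinj`
`C e.2 ≠ C f.2`, say `C e.2 < C f.2`. Let `s = |x f.2 - A f.1|`. Then
`C f.2 - C e.2 < C f.2 - z f.1 < s / M ≤ c * s` (as `z e.1 < C e.2`, `z e.1 = z f.1`; `M > 0`,
`1 ≤ c * M`), and `|A e.1 - A f.1| = 0 < c * s`: this contradicts `hF` for the pair `(f.2, f.1)` of
`sw T` (used twice, `h = A f.1`) and `g = (e.2, e.1)`.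
-/

set_option autoImplicit false

namespace UF.CO

theorem neg_bound {n : ℕ} {c M : ℝ} (hc : 0 < c) (hM : 0 < M) (hcM : 1 ≤ c * M)
    (A C z x : Fin n → ℝ) (T : Finset (Fin n × Fin n))
    (hF : Cov c C (fun k y => |x k - y|) A (sw T)) (hinj : Inj2 A C T)
    (h1 : ∀ e ∈ T, z e.1 < C e.2) (h2 : ∀ e ∈ T, M * (C e.2 - z e.1) < |x e.2 - A e.1|) :
    T.card ≤ n := by
  classical
  have key : ∀ e ∈ T, ∀ f ∈ T, e.1 = f.1 → C e.2 < C f.2 → False := by
    intro e he f hf hef hlt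
    have hf' : (f.2, f.1) ∈ sw T := Finset.mem_image.2 ⟨f, hf, rfl⟩
    have he' : (e.2, e.1) ∈ sw T := Finset.mem_image.2 ⟨e, he, rfl⟩
    have a1 := h1 e he
    have a2 := h1 f hf
    have a3 := h2 f hf
    rw [hef] at a1
    have a4 : 0 < C f.2 - z f.1 := by linarith
    have a5 : C f.2 - z f.1 ≤ c * M * (C f.2 - z f.1) := le_mul_of_one_le_left a4.le hcM
    have a6 : c * (M * (C f.2 - z f.1)) < c * |x f.2 - A f.1| := mul_lt_mul_of_pos_left a3 hc
    have a7 : 0 < c * |x f.2 - A f.1| := by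
      have : 0 < c * (M * (C f.2 - z f.1)) := by positivity
      linarith
    refine hF (f.2, f.1) hf' (f.2, f.1) hf' rfl (A f.1) Set.left_mem_uIcc (e.2, e.1) he' hlt ?_ ?_
    · change C f.2 - C e.2 < c * |x f.2 - A f.1|
      linarith
    · change |A e.1 - A f.1| < c * |x f.2 - A f.1|
      rw [hef, sub_self, abs_zero]
      exact a7
  have hinj' : Set.InjOn (fun e : Fin n × Fin n => e.1) (T : Set (Fin n × Fin n)) := by
    intro e he f hf hef
    have hef' : e.1 = f.1 := hef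
    apply hinj e he f hf (by rw [hef'])
    rcases lt_trichotomy (C e.2) (C f.2) with h | h | h
    · exact (key e he f hf hef' h).elim
    · exact h
    · exact (key f hf e he hef'.symm h).elim
  have h3 := Finset.card_le_card_of_injOn (fun e : Fin n × Fin n => e.1)
    (fun e _ => Finset.mem_univ e.1) hinj'
  rwa [Finset.card_univ, Fintype.card_fin] at h3

end UF.CO
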