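import Pool.Agent.Work.MP_4c5ddc_co.CO.CLpos
import Pool.Agent.Work.MP_4c5ddc_co.CO.Bal
import Pool.Agent.Work.MP_4c5ddc_co.CO.Neg

/-!
# CO/CL (S-M): the slice lemma for the cyclic types (assembly)

PROOF. `ε = 1`: `cl_pos`. `ε = -1`: let `M = max 1 (1 / c)`. The pairs with
`M * (C e.2 - zs) < |y e.2 - B e.1|` are at most `n` by `neg_bound` (`A := B`, `z := fun _ => zs`,
`x := y`). For the other ones `s ≤ M * ρ ≤ M * C₀ * w` and `ρ ≤ C₀ * s`: `bal_bound` with
`M := max M (max C₀ (M * C₀))` and `σ j _ = w j`.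
-/

set_option autoImplicit false

namespace UF.CO

private theorem cov_mono {n : ℕ} {c : ℝ} {P : Fin n → ℝ} {σ : Fin n → ℝ → ℝ} {R : Fin n → ℝ}
    {T T' : Finset (Fin n × Fin n)} (h : T' ⊆ T) (hT : Cov c P σ R T) : Cov c P σ R T' :=
  fun e he f hf hef x hx g hg => hT e (h he) f (h hf) hef x hx g (h hg)

private theorem sw_mono {n : ℕ} {T T' : Finset (Fin n × Fin n)} (h : T' ⊆ T) : sw T' ⊆ sw T :=
  Finset.image_subset_image h

private theorem inj_mono {n : ℕ} {A C : Fin n → ℝ} {T T' : Finset (Fin n × Fin n)} (h : T' ⊆ T)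
    (hT : Inj2 A C T) : Inj2 A C T' :=
  fun e he f hf => hT e (h he) f (h hf)

theorem cl_bound {c C₀ : ℝ} (hc : 0 < c) (hC₀ : 0 < C₀) : ∃ N : ℕ, ∀ (n : ℕ)
    (B C w y : Fin n → ℝ) (zs ε : ℝ) (T : Finset (Fin n × Fin n)), (ε = 1 ∨ ε = -1) →
    Cov c B (fun j _ => w j) C T → Cov c C (fun k b => |y k - b|) B (sw T) → Inj2 B C T →
    (∀ e ∈ T, 0 < ε * (zs - C e.2)) → (∀ e ∈ T, |zs - C e.2| ≤ C₀ * w e.1) →
    (∀ e ∈ T, |zs - C e.2| ≤ C₀ * |y e.2 - B e.1|) → T.card ≤ N * n := by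
  classical
  set M : ℝ := max 1 (1 / c) with hMdef
  have hM1 : 1 ≤ M := le_max_left _ _
  have hM0 : 0 < M := lt_of_lt_of_le one_pos hM1
  have hcM : 1 ≤ c * M := by
    have : 1 / c ≤ M := le_max_right _ _
    calc (1 : ℝ) = c * (1 / c) := by field_simp
      _ ≤ c * M := mul_le_mul_of_nonneg_left this hc.le
  set M' : ℝ := max M (max C₀ (M * C₀)) with hM'def
  have hM'1 : 1 ≤ M' := hM1.trans (le_max_left _ _)
  have hM'C : C₀ ≤ M' := (le_max_left _ _).trans (le_max_right _ _)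
  have hM'MC : M * C₀ ≤ M' := (le_max_right _ _).trans (le_max_right _ _)
  obtain ⟨N₁, h₁⟩ := cl_pos hc hC₀
  obtain ⟨N₂, h₂⟩ := bal_bound hc hM'1
  refine ⟨N₁ + (1 + N₂), ?_⟩
  intro n B C w y zs ε T hε hW hF hinj hpos hw hs
  rcases hε with rfl | rfl
  · have hlt : ∀ e ∈ T, C e.2 < zs := fun e he => by
      have := hpos e he
      linarith
    have := h₁ n B C w y zs T hW hF hinj hlt
      (fun e he => (le_abs_self _).trans (hw e he)) (fun e he => (le_abs_self _).trans (hs e he))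
    calc T.card ≤ N₁ * n := this
      _ ≤ (N₁ + (1 + N₂)) * n := Nat.mul_le_mul_right _ (Nat.le_add_right _ _)
  · have hlt : ∀ e ∈ T, zs < C e.2 := fun e he => by
      have := hpos e he
      linarith
    have habs : ∀ e ∈ T, |zs - C e.2| = C e.2 - zs := fun e he => by
      rw [abs_sub_comm]
      exact abs_of_pos (by linarith [hlt e he])
    set T1 := T.filter (fun e => M * (C e.2 - zs) < |y e.2 - B e.1|) with hT1
    set T2 := T.filter (fun e => ¬ (M * (C e.2 - zs) < |y e.2 - B e.1|)) with hT2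
    have hs1 : T1 ⊆ T := Finset.filter_subset _ _
    have hs2 : T2 ⊆ T := Finset.filter_subset _ _
    have hcard : T1.card + T2.card = T.card := Finset.card_filter_add_card_filter_not _
    have c1 : T1.card ≤ n := by
      refine neg_bound hc hM0 hcM B C (fun _ => zs) y T1 (cov_mono (sw_mono hs1) hF)
        (inj_mono hs1 hinj) (fun e he => hlt e (hs1 he)) (fun e he => ?_)
      exact (Finset.mem_filter.1 he).2
    have c2 : T2.card ≤ N₂ * n := by
      refine h₂ n B C (fun _ => zs) y (fun j _ => w j) T2 (cov_mono hs2 hW)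
        (cov_mono (sw_mono hs2) hF) (inj_mono hs2 hinj) (fun e he => ?_) (fun e he => ?_)
        (fun e he => ?_)
      · show 0 < |zs - C e.2|
        rw [habs e (hs2 he)]
        linarith [hlt e (hs2 he)]
      · show |zs - C e.2| ≤ M' * |y e.2 - B e.1|
        exact (hs e (hs2 he)).trans (mul_le_mul_of_nonneg_right hM'C (abs_nonneg _))
      · show |y e.2 - B e.1| ≤ M' * w e.1
        have h3 : |y e.2 - B e.1| ≤ M * (C e.2 - zs) := not_lt.1 (Finset.mem_filter.1 he).2
        have h4 : C e.2 - zs ≤ C₀ * w e.1 := by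
          rw [← habs e (hs2 he)]
          exact hw e (hs2 he)
        have h5 : 0 < C₀ * w e.1 := lt_of_lt_of_le (by linarith [hlt e (hs2 he)]) h4
        have h6 : 0 < w e.1 := (mul_pos_iff_of_pos_left hC₀).1 h5
        calc |y e.2 - B e.1| ≤ M * (C e.2 - zs) := h3
          _ ≤ M * (C₀ * w e.1) := mul_le_mul_of_nonneg_left h4 hM0.le
          _ = (M * C₀) * w e.1 := by ring
          _ ≤ M' * w e.1 := mul_le_mul_of_nonneg_right hM'MC h6.le
    calc T.card = T1.card + T2.card := hcard.symm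
      _ ≤ n + N₂ * n := Nat.add_le_add c1 c2
      _ = (1 + N₂) * n := by ring
      _ ≤ (N₁ + (1 + N₂)) * n := Nat.mul_le_mul_right _ (Nat.le_add_left _ _)

end UF.CO
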