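import Pool.Agent.Work.MP_4c5ddc_co.CO.Cells

/-!
# CO/CLpos (M): cyclic type, own ridge above

Walls `j` (position `B j`) with a constant slack `w j`, floors `k` (position `C k`) with the tip
`y k`, own ridge at the height `zs`.

PROOF. Let `M = max 1 C₀`, `η = min (c / M) (c ^ 2 / (M * C₀))`, `N₀` from `active_cells η 2`,
`N = 2 * N₀ + 1`. `P` is the set of the points `(B j, zs)` and `(y k, C k)`. For `e ∈ T`:
`v = (B e.1, C e.2)`, `p = (B e.1, zs)`, `q = (y e.2, C e.2)`, `ρ = zs - C e.2 > 0`,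
`s = |y e.2 - B e.1|`, `d = dist p q = max s ρ`, `0 < d ≤ M * s`, `m = Int.log 2 d`,
`cl e = (m, cell η m v)` (active, `D = 2`). FACT 1 (as in `CO/PLpos`, from `hF`): `g ∈ T`,
`|B g.1 - B e.1| < c * s e`, `C g.2 < C e.2` imply `C e.2 - C g.2 ≥ c * s e ≥ c * 2 ^ m / M`. So two
pairs of one cell have the same height (`η * 2 ^ m ≤ c * s e`). The pairs which are the last
(lowest) ones of their column `j` are at most `n`. A cell contains at most one pair which is not
last: let `e, f` be in the same cell, `f` not last, `g ∈ T` with `g.1 = f.1`, `C g.2 < C f.2`, and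
suppose `B e.1 < B f.1`. By FACT 1 for `f`:
`C₀ * w f.1 ≥ zs - C g.2 ≥ C f.2 - C g.2 ≥ c * 2 ^ m / M` (using `h3` for `g`), so
`c * w f.1 ≥ c ^ 2 * 2 ^ m / (M * C₀) ≥ η * 2 ^ m > B f.1 - B e.1`, and `C e.2 = C f.2`:
contradiction with `hW` (`f, f`, `h = C f.2`, `g := e`). If `B e.1 = B f.1` then `e = f` by
`hinj`. So `T.card ≤ (number of cells) + n ≤ N₀ * (2 * n) + n`.
-/

set_option autoImplicit false

namespace UF.CO

private theorem cl_floor {a b t : ℝ} (ht : 0 < t) (h : ⌊a / t⌋ = ⌊b / t⌋) : |a - b| < t := by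
  have h1 := Int.abs_sub_lt_one_of_floor_eq_floor h
  rw [← sub_div, abs_div, abs_of_pos ht, div_lt_one ht] at h1
  exact h1

theorem cl_pos {c C₀ : ℝ} (hc : 0 < c) (hC₀ : 0 < C₀) : ∃ N : ℕ, ∀ (n : ℕ)
    (B C w y : Fin n → ℝ) (zs : ℝ) (T : Finset (Fin n × Fin n)),
    Cov c B (fun j _ => w j) C T → Cov c C (fun k b => |y k - b|) B (sw T) → Inj2 B C T →
    (∀ e ∈ T, C e.2 < zs) → (∀ e ∈ T, zs - C e.2 ≤ C₀ * w e.1) →
    (∀ e ∈ T, zs - C e.2 ≤ C₀ * |y e.2 - B e.1|) → T.card ≤ N * n := by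
  classical
  set M := max 1 C₀ with hM
  have hM1 : (1 : ℝ) ≤ M := le_max_left _ _
  have hMC : C₀ ≤ M := le_max_right _ _
  have hM0 : 0 < M := lt_of_lt_of_le one_pos hM1
  set η := min (c / M) (c ^ 2 / (M * C₀)) with hηd
  have hη : 0 < η := lt_min (by positivity) (by positivity)
  have hη1 : η ≤ c / M := min_le_left _ _
  have hη2 : η ≤ c ^ 2 / (M * C₀) := min_le_right _ _
  obtain ⟨N₀, hN₀⟩ := active_cells η 2 hη (by norm_num)
  refine ⟨2 * N₀ + 1, fun n B C w y zs T hW hF hinj hpos hw hle => ?_⟩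
  let s : Fin n × Fin n → ℝ := fun e => |y e.2 - B e.1|
  let d : Fin n × Fin n → ℝ := fun e => max (s e) (zs - C e.2)
  let mm : Fin n × Fin n → ℤ := fun e => Int.log 2 (d e)
  let cl : Fin n × Fin n → ℤ × (ℤ × ℤ) := fun e => (mm e, cell η (mm e) (B e.1, C e.2))
  have hs0 : ∀ e ∈ T, 0 < s e := by
    intro e he
    have h1 := hpos e he
    have h2 : zs - C e.2 ≤ C₀ * s e := hle e he
    have h3 : 0 < C₀ * s e := by linarith
    exact (pos_iff_pos_of_mul_pos h3).1 hC₀
  have hd0 : ∀ e ∈ T, 0 < d e := fun e he => lt_of_lt_of_le (hs0 e he) (le_max_left _ _)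
  have hdM : ∀ e ∈ T, d e ≤ M * s e := by
    intro e he
    have h1 := hs0 e he
    apply max_le
    · calc s e = 1 * s e := (one_mul _).symm
        _ ≤ M * s e := mul_le_mul_of_nonneg_right hM1 h1.le
    · exact (hle e he).trans (mul_le_mul_of_nonneg_right hMC h1.le)
  have hlog1 : ∀ e ∈ T, (2 : ℝ) ^ (mm e) ≤ d e := by
    intro e he
    have h1 := Int.zpow_log_le_self (b := 2) (r := d e) (by norm_num) (hd0 e he)
    rw [Nat.cast_ofNat] at h1
    exact h1
  have hlog2 : ∀ e, d e < (2 : ℝ) ^ (mm e + 1) := by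
    intro e
    have h1 := Int.lt_zpow_succ_log_self (b := 2) (by norm_num) (d e)
    rw [Nat.cast_ofNat] at h1
    exact h1
  have hms : ∀ e ∈ T, (2 : ℝ) ^ (mm e) / M ≤ s e := by
    intro e he
    rw [div_le_iff₀ hM0, mul_comm]
    exact (hlog1 e he).trans (hdM e he)
  have hclose : ∀ e f, cl e = cl f → mm e = mm f ∧ |B e.1 - B f.1| < η * 2 ^ (mm e) ∧
      |C e.2 - C f.2| < η * 2 ^ (mm e) := by
    intro e f h
    have h1 : mm e = mm f := congrArg Prod.fst h
    have h2 : cell η (mm e) (B e.1, C e.2) = cell η (mm f) (B f.1, C f.2) := congrArg Prod.snd h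
    rw [← h1] at h2
    have ht : 0 < η * (2 : ℝ) ^ (mm e) := by positivity
    have h3 := congrArg Prod.fst h2
    have h4 := congrArg Prod.snd h2
    exact ⟨h1, cl_floor ht h3, cl_floor ht h4⟩
  -- the half disk on the floor
  have fact : ∀ e ∈ T, ∀ g ∈ T, |B g.1 - B e.1| < c * s e → C g.2 < C e.2 →
      c * s e ≤ C e.2 - C g.2 := by
    intro e he g hg h1 h2
    by_contra h3
    push Not at h3
    have he' : (e.2, e.1) ∈ sw T := Finset.mem_image.2 ⟨e, he, rfl⟩
    have hg' : (g.2, g.1) ∈ sw T := Finset.mem_image.2 ⟨g, hg, rfl⟩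
    exact hF (e.2, e.1) he' (e.2, e.1) he' rfl (B e.1) Set.left_mem_uIcc (g.2, g.1) hg' h2 h3 h1
  have hcs : ∀ e ∈ T, η * 2 ^ (mm e) ≤ c * s e := by
    intro e he
    have h1 := hms e he
    calc η * 2 ^ (mm e) ≤ c / M * 2 ^ (mm e) := mul_le_mul_of_nonneg_right hη1 (by positivity)
      _ = c * (2 ^ (mm e) / M) := by ring
      _ ≤ c * s e := mul_le_mul_of_nonneg_left h1 hc.le
  have hnlt : ∀ e ∈ T, ∀ f ∈ T, cl e = cl f → ¬ C f.2 < C e.2 := by
    intro e he f hf h hlt
    obtain ⟨h1, h2, h3⟩ := hclose e f h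
    have h4 := hcs e he
    have h5 := fact e he f hf (by rw [abs_sub_comm]; linarith) hlt
    have h6 := le_abs_self (C e.2 - C f.2)
    linarith
  have hlev : ∀ e ∈ T, ∀ f ∈ T, cl e = cl f → C e.2 = C f.2 := by
    intro e he f hf h
    have h1 := hnlt e he f hf h
    have h2 := hnlt f hf e he h.symm
    linarith
  have hone : ∀ e ∈ T, ∀ f ∈ T, cl e = cl f → (∃ g ∈ T, g.1 = f.1 ∧ C g.2 < C f.2) →
      ¬ B e.1 < B f.1 := by
    intro e he f hf h hg hlt
    obtain ⟨g, hg, hgf, hgC⟩ := hg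
    have hlv := hlev e he f hf h
    obtain ⟨h1, h2, h3⟩ := hclose e f h
    have hcf : 0 < c * s f := mul_pos hc (hs0 f hf)
    have h4 := fact f hf g hg (by rw [hgf, sub_self, abs_zero]; exact hcf) hgC
    have h5 := hpos f hf
    have h6 := hw g hg
    rw [hgf] at h6
    have h7 := hms f hf
    have h8 : c * (2 ^ (mm f) / M) ≤ c * s f := mul_le_mul_of_nonneg_left h7 hc.le
    have h9 : c * (2 ^ (mm f) / M) < C₀ * w f.1 := by linarith
    have h10 : c * (c * (2 ^ (mm f) / M)) < c * (C₀ * w f.1) := mul_lt_mul_of_pos_left h9 hc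
    have h11 : c ^ 2 / (M * C₀) * 2 ^ (mm f) < c * w f.1 := by
      have e1 : c ^ 2 / (M * C₀) * 2 ^ (mm f) = c * (c * (2 ^ (mm f) / M)) / C₀ := by
        field_simp
      rw [e1, div_lt_iff₀ hC₀]
      linarith
    have h12 : η * 2 ^ (mm f) ≤ c ^ 2 / (M * C₀) * 2 ^ (mm f) :=
      mul_le_mul_of_nonneg_right hη2 (by positivity)
    rw [h1] at h2
    have h13 := neg_abs_le (B e.1 - B f.1)
    have h14 : 0 < c * w f.1 := lt_trans (by positivity) h11
    refine hW f hf f hf rfl (C f.2) Set.left_mem_uIcc e he hlt ?_ ?_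
    · change B f.1 - B e.1 < c * w f.1
      linarith
    · change |C e.2 - C f.2| < c * w f.1
      rw [hlv, sub_self, abs_zero]
      exact h14
  let P : Finset (ℝ × ℝ) := (Finset.univ.image (fun i : Fin n => (B i, zs))) ∪
    (Finset.univ.image (fun k : Fin n => (y k, C k)))
  have hP : P.card ≤ 2 * n := by
    have h1 := Finset.card_union_le (Finset.univ.image (fun i : Fin n => (B i, zs)))
      (Finset.univ.image (fun k : Fin n => (y k, C k)))
    have h2 := Finset.card_image_le (s := Finset.univ) (f := fun i : Fin n => (B i, zs))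
    have h3 := Finset.card_image_le (s := Finset.univ) (f := fun k : Fin n => (y k, C k))
    rw [Finset.card_univ, Fintype.card_fin] at h2 h3
    change (_ ∪ _ : Finset (ℝ × ℝ)).card ≤ 2 * n
    omega
  have hact : ∀ t ∈ T.image cl, Active η 2 P t := by
    intro t ht
    obtain ⟨e, he, rfl⟩ := Finset.mem_image.1 ht
    have hr := hpos e he
    have hdist : dist ((B e.1, zs) : ℝ × ℝ) (y e.2, C e.2) = d e := by
      rw [Prod.dist_eq, Real.dist_eq, Real.dist_eq]
      change max |B e.1 - y e.2| |zs - C e.2| = max |y e.2 - B e.1| (zs - C e.2)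
      rw [abs_sub_comm (B e.1), abs_of_pos (by linarith : 0 < zs - C e.2)]
    have h2s : (2 : ℝ) ^ (mm e + 1) = 2 * 2 ^ (mm e) := by
      rw [zpow_add₀ two_ne_zero, zpow_one, mul_comm]
    have hlt := hlog2 e
    rw [h2s] at hlt
    refine ⟨(B e.1, C e.2), (B e.1, zs), (y e.2, C e.2), ?_, ?_, rfl, ?_, ?_, ?_, ?_⟩
    · exact Finset.mem_union_left _ (Finset.mem_image.2 ⟨e.1, Finset.mem_univ _, rfl⟩)
    · exact Finset.mem_union_right _ (Finset.mem_image.2 ⟨e.2, Finset.mem_univ _, rfl⟩)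
    · rw [hdist]; exact hlog1 e he
    · rw [hdist]; exact hlog2 e
    · rw [Prod.dist_eq, Real.dist_eq, Real.dist_eq]
      change max |B e.1 - B e.1| |zs - C e.2| ≤ 2 * 2 ^ (mm e)
      rw [sub_self, abs_zero, abs_of_pos (by linarith : 0 < zs - C e.2)]
      exact max_le (by positivity) ((le_max_right (s e) _).trans hlt.le)
    · rw [Prod.dist_eq, Real.dist_eq, Real.dist_eq]
      change max |y e.2 - B e.1| |C e.2 - C e.2| ≤ 2 * 2 ^ (mm e)
      rw [sub_self, abs_zero]
      exact max_le ((le_max_left (s e) _).trans hlt.le) (by positivity)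
  have hcells := hN₀ P (T.image cl) hact
  have h1 : (T.image cl).card ≤ N₀ * (2 * n) := hcells.trans (Nat.mul_le_mul_left _ hP)
  let L : Finset (Fin n × Fin n) := T.filter (fun f => ∃ g ∈ T, g.1 = f.1 ∧ C g.2 < C f.2)
  let R : Finset (Fin n × Fin n) := T.filter (fun f => ¬ ∃ g ∈ T, g.1 = f.1 ∧ C g.2 < C f.2)
  have hL : L.card ≤ (T.image cl).card := by
    apply Finset.card_le_card_of_injOn cl
    · intro e he
      exact Finset.mem_coe.2 (Finset.mem_image_of_mem _ (Finset.mem_filter.1 (Finset.mem_coe.1 he)).1)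
    · intro e he f hf h
      have he' := Finset.mem_filter.1 (Finset.mem_coe.1 he)
      have hf' := Finset.mem_filter.1 (Finset.mem_coe.1 hf)
      have a1 := hone e he'.1 f hf'.1 h hf'.2
      have a2 := hone f hf'.1 e he'.1 h.symm he'.2
      exact hinj e he'.1 f hf'.1 (by linarith) (hlev e he'.1 f hf'.1 h)
  have hR : R.card ≤ n := by
    have hR1 : R.card ≤ (Finset.univ : Finset (Fin n)).card := by
      apply Finset.card_le_card_of_injOn Prod.fst
      · intro e _
        exact Finset.mem_coe.2 (Finset.mem_univ _)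
      · intro e he f hf h
        have he' := Finset.mem_filter.1 (Finset.mem_coe.1 he)
        have hf' := Finset.mem_filter.1 (Finset.mem_coe.1 hf)
        have a1 : ¬ C e.2 < C f.2 := fun hlt => hf'.2 ⟨e, he'.1, h, hlt⟩
        have a2 : ¬ C f.2 < C e.2 := fun hlt => he'.2 ⟨f, hf'.1, h.symm, hlt⟩
        exact hinj e he'.1 f hf'.1 (congrArg B h) (by linarith)
    rwa [Finset.card_univ, Fintype.card_fin] at hR1
  have hsum : L.card + R.card = T.card := Finset.card_filter_add_card_filter_not _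
  calc T.card = L.card + R.card := hsum.symm
    _ ≤ N₀ * (2 * n) + n := Nat.add_le_add (hL.trans h1) hR
    _ = (2 * N₀ + 1) * n := by ring

end UF.CO
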