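import Pool.Agent.Work.MP_4c5ddc_co.CO.Radii

/-!
# CO/Cells (M): the number of active cells is linear

PROOF. If `P` is empty then `S` is empty. Otherwise let `p₀ ∈ P` and `r` from `exists_radii`. Let
`s = (m, κ) ∈ S` be active with `v, p, q`, `δ = 2 ^ m / 4`. Let `p', q' ∈ P` with
`dist p p' < δ`, `dist q q' < δ`, (`p' = p₀` or `δ ≤ r p'`), (`q' = p₀` or `δ ≤ r q'`). Then
`p' ≠ q'` (otherwise `dist p q < 2 δ < 2 ^ m`) and
`dist p' q' < 2 * 2 ^ m + 2 δ < 3 * 2 ^ m`. So there is `w ∈ {p', q'}`, `w ≠ p₀`, with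
`2 ^ m / 4 ≤ r w < 3 * 2 ^ m` (if `p' = p₀`: `w = q'`, `r q' ≤ dist q' p₀`; if `q' = p₀`: `w = p'`;
otherwise the one with the smaller radius). With `m' = Int.log 2 (r w)`
(`Int.zpow_log_le_self`, `Int.lt_zpow_succ_log_self`): `m' - 1 ≤ m ≤ m' + 2`. Moreover
`dist v w ≤ D 2 ^ m + δ = (D + 1/4) 2 ^ m` (the distance of `ℝ × ℝ` is the maximum distance), so both
coordinates of `κ = cell η m v` differ from those of `cell η m w` by at most
`L = ⌈(D + 1/4) / η⌉₊ + 1`. So `S` is contained in the image of `P × {-1, 0, 1, 2} × [-L, L]²` under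
`(w, t, a, b) ↦ (Int.log 2 (r w) + t, cell η (Int.log 2 (r w) + t) w + (a, b))`;
`N = 4 (2 L + 1) ^ 2`.
-/

set_option autoImplicit false

namespace UF.CO

private lemma floor_diff {x y : ℝ} {L : ℕ} (h : |x - y| + 1 ≤ (L : ℝ)) :
    ⌊x⌋ - ⌊y⌋ ∈ Finset.Icc (-(L : ℤ)) L := by
  have h1 := abs_le.1 (show |x - y| ≤ (L : ℝ) - 1 by linarith)
  have a1 := Int.floor_le x
  have a2 := Int.lt_floor_add_one x
  have b1 := Int.floor_le y
  have b2 := Int.lt_floor_add_one y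
  rw [Finset.mem_Icc]
  constructor
  · have : (-(L : ℝ)) ≤ ((⌊x⌋ - ⌊y⌋ : ℤ) : ℝ) := by push_cast; linarith [h1.1]
    exact_mod_cast this
  · have : ((⌊x⌋ - ⌊y⌋ : ℤ) : ℝ) ≤ (L : ℝ) := by push_cast; linarith [h1.2]
    exact_mod_cast this

private lemma coord_dist (v w : ℝ × ℝ) : |v.1 - w.1| ≤ dist v w ∧ |v.2 - w.2| ≤ dist v w := by
  rw [Prod.dist_eq]
  exact ⟨le_max_left _ _, le_max_right _ _⟩

private lemma cell_diff {η D : ℝ} (hη : 0 < η) {m : ℤ} {v w : ℝ × ℝ} {L : ℕ}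
    (hL : (D + 1 / 4) / η + 1 ≤ (L : ℝ)) (h : dist v w ≤ (D + 1 / 4) * 2 ^ m) :
    (cell η m v).1 - (cell η m w).1 ∈ Finset.Icc (-(L : ℤ)) L ∧
      (cell η m v).2 - (cell η m w).2 ∈ Finset.Icc (-(L : ℤ)) L := by
  have hM : (0 : ℝ) < 2 ^ m := zpow_pos (by norm_num) m
  have hc := coord_dist v w
  have key : ∀ a b : ℝ, |a - b| ≤ dist v w → |a / (η * 2 ^ m) - b / (η * 2 ^ m)| + 1 ≤ (L : ℝ) := by
    intro a b hab
    have h1 : |a / (η * 2 ^ m) - b / (η * 2 ^ m)| ≤ (D + 1 / 4) / η := by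
      rw [← sub_div, abs_div, abs_of_pos (mul_pos hη hM), div_le_div_iff₀ (mul_pos hη hM) hη]
      have h2 : |a - b| ≤ (D + 1 / 4) * 2 ^ m := hab.trans h
      nlinarith
    linarith
  exact ⟨floor_diff (key _ _ hc.1), floor_diff (key _ _ hc.2)⟩

private lemma log_range {m : ℤ} {x : ℝ} (h1 : (2 : ℝ) ^ m / 4 ≤ x) (h2 : x < 3 * 2 ^ m) :
    m - Int.log 2 x ∈ Finset.Icc (-1 : ℤ) 2 := by
  have hM : (0 : ℝ) < 2 ^ m := zpow_pos (by norm_num) m
  have hx : 0 < x := by linarith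
  have a1 := Int.zpow_log_le_self (b := 2) (by norm_num) hx
  have a2 := Int.lt_zpow_succ_log_self (b := 2) (by norm_num) x
  push_cast at a1 a2
  have b1 : (2 : ℝ) ^ (m - 2) < 2 ^ (Int.log 2 x + 1) := by
    have : (2 : ℝ) ^ (m - 2) = 2 ^ m / 4 := by
      rw [zpow_sub₀ (by norm_num)]; norm_num
    rw [this]; exact h1.trans_lt a2
  have b2 : (2 : ℝ) ^ (Int.log 2 x) < 2 ^ (m + 2) := by
    have : (2 : ℝ) ^ (m + 2) = 2 ^ m * 4 := by
      rw [zpow_add₀ (by norm_num)]; norm_num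
    rw [this]; linarith
  have c1 := (zpow_lt_zpow_iff_right₀ (by norm_num : (1 : ℝ) < 2)).1 b1
  have c2 := (zpow_lt_zpow_iff_right₀ (by norm_num : (1 : ℝ) < 2)).1 b2
  rw [Finset.mem_Icc]
  omega

theorem active_cells (η D : ℝ) (hη : 0 < η) (hD : 0 ≤ D) : ∃ N : ℕ, ∀ (P : Finset (ℝ × ℝ))
    (S : Finset (ℤ × (ℤ × ℤ))), (∀ s ∈ S, Active η D P s) → S.card ≤ N * P.card := by
  obtain ⟨L, hL⟩ : ∃ L : ℕ, (D + 1 / 4) / η + 1 ≤ (L : ℝ) := exists_nat_ge _
  refine ⟨4 * (2 * L + 1) ^ 2, fun P S hS => ?_⟩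
  rcases P.eq_empty_or_nonempty with rfl | ⟨p₀, h₀⟩
  · have : S = ∅ := by
      rw [Finset.eq_empty_iff_forall_notMem]
      intro s hs
      obtain ⟨v, p, q, hp, _⟩ := hS s hs
      exact absurd hp (Finset.notMem_empty _)
    simp [this]
  obtain ⟨r, hr1, hr2, hr3⟩ := exists_radii P p₀ h₀
  have key : ∀ s ∈ S, ∃ w ∈ P, (2 : ℝ) ^ s.1 / 4 ≤ r w ∧ r w < 3 * 2 ^ s.1 ∧
      ∃ v : ℝ × ℝ, s.2 = cell η s.1 v ∧ dist v w ≤ (D + 1 / 4) * 2 ^ s.1 := by
    rintro ⟨m, κ⟩ hs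
    obtain ⟨v, p, q, hp, hq, hκ, h1, h2, h3, h4⟩ := hS _ hs
    simp only at *
    have hM : (0 : ℝ) < 2 ^ m := zpow_pos (by norm_num) m
    have hM1 : (2 : ℝ) ^ (m + 1) = 2 ^ m * 2 := by rw [zpow_add₀ (by norm_num)]; norm_num
    rw [hM1] at h2
    obtain ⟨p', hp', hp1, hp2⟩ := hr3 (2 ^ m / 4) (by positivity) p hp
    obtain ⟨q', hq', hq1, hq2⟩ := hr3 (2 ^ m / 4) (by positivity) q hq
    have hne : p' ≠ q' := by
      rintro rfl
      have := dist_triangle_right p q p'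
      linarith
    have hd : dist p' q' < 3 * 2 ^ m := by
      have e1 := dist_triangle4 p' p q q'
      rw [dist_comm p' p] at e1
      linarith
    have hvp : dist v p' ≤ (D + 1 / 4) * 2 ^ m := by
      have e1 := dist_triangle v p p'
      rw [dist_comm v p] at e1
      linarith
    have hvq : dist v q' ≤ (D + 1 / 4) * 2 ^ m := by
      have e1 := dist_triangle v q q'
      rw [dist_comm v q] at e1
      linarith
    by_cases hpe : p' = p₀
    · have hqn : q' ≠ p₀ := fun h => hne (hpe.trans h.symm)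
      refine ⟨q', hq', (hq1.resolve_left hqn), ?_, v, hκ, hvq⟩
      have := hr1 q' hq' hqn
      rw [← hpe, dist_comm] at this
      linarith
    by_cases hqe : q' = p₀
    · refine ⟨p', hp', (hp1.resolve_left hpe), ?_, v, hκ, hvp⟩
      have := hr1 p' hp' hpe
      rw [← hqe] at this
      linarith
    have hmin := hr2 p' hp' q' hq' hpe hqe hne
    rcases min_choice (r p') (r q') with hc | hc
    · refine ⟨p', hp', (hp1.resolve_left hpe), ?_, v, hκ, hvp⟩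
      rw [hc] at hmin; linarith
    · refine ⟨q', hq', (hq1.resolve_left hqe), ?_, v, hκ, hvq⟩
      rw [hc] at hmin; linarith
  set I : Finset ((ℝ × ℝ) × (ℤ × (ℤ × ℤ))) :=
    P ×ˢ (Finset.Icc (-1 : ℤ) 2 ×ˢ (Finset.Icc (-(L : ℤ)) L ×ˢ Finset.Icc (-(L : ℤ)) L)) with hI
  let f : (ℝ × ℝ) × (ℤ × (ℤ × ℤ)) → ℤ × (ℤ × ℤ) := fun x =>
    (Int.log 2 (r x.1) + x.2.1, ((cell η (Int.log 2 (r x.1) + x.2.1) x.1).1 + x.2.2.1,
      (cell η (Int.log 2 (r x.1) + x.2.1) x.1).2 + x.2.2.2))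
  have hsub : S ⊆ I.image f := by
    intro s hs
    obtain ⟨w, hw, h1, h2, v, hv, hd⟩ := key s hs
    rw [Finset.mem_image]
    refine ⟨(w, (s.1 - Int.log 2 (r w), ((cell η s.1 v).1 - (cell η s.1 w).1,
      (cell η s.1 v).2 - (cell η s.1 w).2))), ?_, ?_⟩
    · rw [hI, Finset.mem_product, Finset.mem_product, Finset.mem_product]
      exact ⟨hw, log_range h1 h2, (cell_diff hη hL hd).1, (cell_diff hη hL hd).2⟩
    · have e : Int.log 2 (r w) + (s.1 - Int.log 2 (r w)) = s.1 := by ring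
      simp only [f, e]
      rw [Prod.ext_iff, Prod.ext_iff]
      refine ⟨rfl, ?_, ?_⟩
      · rw [hv]; simp
      · rw [hv]; simp
  have hcard : (Finset.Icc (-(L : ℤ)) L).card = 2 * L + 1 := by
    rw [Int.card_Icc]; omega
  calc S.card ≤ (I.image f).card := Finset.card_le_card hsub
    _ ≤ I.card := Finset.card_image_le
    _ = 4 * (2 * L + 1) ^ 2 * P.card := by
        rw [hI, Finset.card_product, Finset.card_product, Finset.card_product, hcard]
        have : (Finset.Icc (-1 : ℤ) 2).card = 4 := by rw [Int.card_Icc]; rfl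
        rw [this]; ring

end UF.CO
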