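import Pool.Agent.Work.MP_4c5ddc_co.CO.Defs

/-!
# CO/Coord (S-M): coordinates given by three independent normals

PROOF. The linear map `p ↦ (inner ℝ ν₁ p, inner ℝ ν₂ p, inner ℝ ν₃ p)` from `E3` to `Fin 3 → ℝ`
is injective (a vector orthogonal to the three vectors is orthogonal to their span, which is
everything by `LinearIndependent.span_eq_top_of_card_eq_finrank`), hence bijective, and its inverse
is Lipschitz (finite dimension: `LinearMap.antilipschitz...`, `LinearEquiv.toContinuousLinearEquiv`,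
`ContinuousLinearEquiv.antilipschitz` or the norm of the inverse). `exists_comb`: `ν₁, ν₂, ν₃` span
`E3` (basis of a three dimensional space, `Submodule.mem_span_triple` or `Basis` representation).
`exists_slack`: the same with the equation `μ = a • ν₁ + b • ν₂ + d • ν₃`; if `b = d = 0` then
`μ = a • ν₁`, which contradicts `NPar μ ν₁`.
-/

set_option autoImplicit false

namespace UF.CO

private theorem co_span {ν₁ ν₂ ν₃ : E3} (hl : LinearIndependent ℝ ![ν₁, ν₂, ν₃]) :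
    Submodule.span ℝ (Set.range ![ν₁, ν₂, ν₃]) = ⊤ := by
  apply hl.span_eq_top_of_card_eq_finrank
  simp [E3]

private theorem co_comb {ν₁ ν₂ ν₃ : E3} (hl : LinearIndependent ℝ ![ν₁, ν₂, ν₃]) (μ : E3) :
    ∃ a b d : ℝ, μ = a • ν₁ + b • ν₂ + d • ν₃ := by
  have h : μ ∈ Submodule.span ℝ (Set.range ![ν₁, ν₂, ν₃]) := by
    rw [co_span hl]; trivial
  rw [Submodule.mem_span_range_iff_exists_fun] at h
  obtain ⟨c, hc⟩ := h
  refine ⟨c 0, c 1, c 2, ?_⟩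
  rw [← hc, Fin.sum_univ_three]
  rfl

private theorem co_zero {ν₁ ν₂ ν₃ : E3} (hl : LinearIndependent ℝ ![ν₁, ν₂, ν₃]) {p : E3}
    (h1 : inner ℝ ν₁ p = 0) (h2 : inner ℝ ν₂ p = 0) (h3 : inner ℝ ν₃ p = 0) : p = 0 := by
  obtain ⟨a, b, d, h⟩ := co_comb hl p
  have : inner ℝ p p = (0 : ℝ) := by
    nth_rewrite 1 [h]
    rw [inner_add_left, inner_add_left, inner_smul_left, inner_smul_left, inner_smul_left, h1, h2,
      h3]
    simp
  exact inner_self_eq_zero.1 this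

theorem coord_lipschitz {ν₁ ν₂ ν₃ : E3} (hl : LinearIndependent ℝ ![ν₁, ν₂, ν₃]) :
    ∃ κ : ℝ, 0 < κ ∧ ∀ (p : E3) (δ : ℝ), |inner ℝ ν₁ p| < δ → |inner ℝ ν₂ p| < δ →
      |inner ℝ ν₃ p| < δ → ‖p‖ < κ * δ := by
  let L : E3 →L[ℝ] (Fin 3 → ℝ) :=
    ContinuousLinearMap.pi (fun i => innerSL ℝ ((![ν₁, ν₂, ν₃] : Fin 3 → E3) i))
  have hL0 : ∀ p, L p 0 = inner ℝ ν₁ p := fun p => rfl
  have hL1 : ∀ p, L p 1 = inner ℝ ν₂ p := fun p => rfl
  have hL2 : ∀ p, L p 2 = inner ℝ ν₃ p := fun p => rfl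
  have hker : LinearMap.ker (L : E3 →ₗ[ℝ] (Fin 3 → ℝ)) = ⊥ := by
    rw [LinearMap.ker_eq_bot']
    intro p hp
    have hp' : L p = 0 := hp
    apply co_zero hl
    · rw [← hL0, hp']; rfl
    · rw [← hL1, hp']; rfl
    · rw [← hL2, hp']; rfl
  obtain ⟨K, hK, hanti⟩ := LinearMap.exists_antilipschitzWith (L : E3 →ₗ[ℝ] (Fin 3 → ℝ)) hker
  have hK' : (0 : ℝ) < (K : ℝ) := by exact_mod_cast hK
  refine ⟨K, hK', fun p δ h1 h2 h3 => ?_⟩
  have hδ : 0 < δ := lt_of_le_of_lt (abs_nonneg _) h1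
  have hd := hanti.le_mul_dist p 0
  rw [map_zero, dist_zero_right, dist_zero_right] at hd
  have hn : ‖(L : E3 →ₗ[ℝ] (Fin 3 → ℝ)) p‖ < δ := by
    rw [pi_norm_lt_iff hδ]
    intro i
    rw [Real.norm_eq_abs]
    fin_cases i
    · exact h1
    · exact h2
    · exact h3
  calc ‖p‖ ≤ K * ‖(L : E3 →ₗ[ℝ] (Fin 3 → ℝ)) p‖ := hd
    _ < K * δ := mul_lt_mul_of_pos_left hn hK'

theorem coord_inj {ν₁ ν₂ ν₃ : E3} (hl : LinearIndependent ℝ ![ν₁, ν₂, ν₃]) {p q : E3}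
    (h1 : inner ℝ ν₁ p = inner ℝ ν₁ q) (h2 : inner ℝ ν₂ p = inner ℝ ν₂ q)
    (h3 : inner ℝ ν₃ p = inner ℝ ν₃ q) : p = q := by
  rw [← sub_eq_zero]
  apply co_zero hl
  · rw [inner_sub_right, h1, sub_self]
  · rw [inner_sub_right, h2, sub_self]
  · rw [inner_sub_right, h3, sub_self]

theorem exists_comb {ν₁ ν₂ ν₃ : E3} (hl : LinearIndependent ℝ ![ν₁, ν₂, ν₃]) {μ : E3}
    (hμ : NPar μ ν₁) : ∃ a b d : ℝ, (b ≠ 0 ∨ d ≠ 0) ∧
      ∀ p : E3, inner ℝ μ p = a * inner ℝ ν₁ p + b * inner ℝ ν₂ p + d * inner ℝ ν₃ p := by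
  obtain ⟨a, b, d, h⟩ := co_comb hl μ
  refine ⟨a, b, d, ?_, fun p => ?_⟩
  · by_contra hc
    push Not at hc
    apply hμ a
    rw [h, hc.1, hc.2, zero_smul, zero_smul, add_zero, add_zero]
  · rw [h, inner_add_left, inner_add_left, inner_smul_left, inner_smul_left, inner_smul_left]
    simp

end UF.CO
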