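import Pool.Agent.Work.MP_4c5ddc_co.CO.CL

/-!
# CO/CycB (M): cyclic classes with `p₁ = p₂ = p₃ = 0`

Slacks: `g₁ i - q₁ z`, `g₂ j - q₂ x`, `g₃ k - q₃ y`.

PROOF. For fixed `i` let `T_i` be the set of the pairs `(j, k)` with `(i, j, k) ∈ T`. Apply
`cl_bound` to `T_i` with `c' = c * min 1 |q₃|`, `C₀ = max (1 / |q₁|) (|q₃| / |q₁|)`, `B`, `C`,
`w j = g₂ j - q₂ * A i` (constant slack of the walls `j`), `y k = g₃ k / q₃`, `zs = g₁ i / q₁`, `ε`
the sign of `q₁`. `pos₁`: `g₁ i - q₁ * C k = q₁ * (zs - C k) > 0`. `h₂`: `|q₁| * |zs - C k| ≤ w j`,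
`h₃`: `|q₁| * |zs - C k| ≤ q₃ * (y k - B j) = |q₃| * |y k - B j|`. `Cov` for the walls `j`: `cov₂`
with the triples `(j, k, i) ∈ rot T` (`A` of `Cov3` is `B`, then `C`, `A`; the two points have the
same `A i`, `h = (1 - l) * C k + l * C k'`), the slack is `w j > 0` (`pos₂`). `Cov` for the floors
`k`: `cov₃` with `(k, i, j) ∈ rot (rot T)`, the slack at `b` between `B j` and `B j'` is
`q₃ * (y k - b)`, positive at both ends, hence `|q₃| * |y k - b|`. `Inj2` from `inj`. The bound is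
`n * (N * n)`.
-/

set_option autoImplicit false

namespace UF.CO

private theorem mem_sw {n : ℕ} {T : Finset (Fin n × Fin n)} {e : Fin n × Fin n} :
    e ∈ sw T ↔ (e.2, e.1) ∈ T := by
  unfold sw
  rw [Finset.mem_image]
  constructor
  · rintro ⟨x, hx, rfl⟩
    exact hx
  · intro h
    exact ⟨_, h, rfl⟩

private theorem exists_convex {a b h : ℝ} (hh : h ∈ Set.uIcc a b) :
    ∃ l ∈ Set.Icc (0 : ℝ) 1, h = (1 - l) * a + l * b := by
  rw [← segment_eq_uIcc, segment_eq_image] at hh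
  obtain ⟨l, hl, hlh⟩ := hh
  refine ⟨l, hl, ?_⟩
  simpa [smul_eq_mul] using hlh.symm

/-- the bound for one slice, with the affine slacks `G1 - a * z` and `G k - b * y` -/
private theorem slice_bound {c a b : ℝ} (hc : 0 < c) (ha : a ≠ 0) (hb : b ≠ 0) : ∃ N : ℕ,
    ∀ (n : ℕ) (B C w G : Fin n → ℝ) (G1 : ℝ) (T : Finset (Fin n × Fin n)),
    Cov c B (fun j _ => w j) C T → Cov c C (fun k y => G k - b * y) B (sw T) → Inj2 B C T →
    (∀ e ∈ T, 0 < G1 - a * C e.2) → (∀ e ∈ T, 0 < w e.1) → (∀ e ∈ T, 0 < G e.2 - b * B e.1) →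
    (∀ e ∈ T, G1 - a * C e.2 ≤ w e.1) → (∀ e ∈ T, G1 - a * C e.2 ≤ G e.2 - b * B e.1) →
    T.card ≤ N * n := by
  have ha' : 0 < |a| := abs_pos.2 ha
  have hb' : 0 < |b| := abs_pos.2 hb
  have hm : 0 < min 1 |b| := lt_min one_pos hb'
  have hc' : 0 < c * min 1 |b| := mul_pos hc hm
  have hC₀ : 0 < max (1 / |a|) (|b| / |a|) := lt_of_lt_of_le (by positivity) (le_max_left _ _)
  obtain ⟨N, hN⟩ := cl_bound hc' hC₀
  refine ⟨N, ?_⟩
  intro n B C w G G1 T hW hF hinj h1 h2 h3 h4 h5
  have e1 : ∀ z : ℝ, G1 - a * z = a * (G1 / a - z) := by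
    intro z
    field_simp
  have e3 : ∀ (k : Fin n) (y : ℝ), G k - b * y = b * (G k / b - y) := by
    intro k y
    field_simp
  have a1 : ∀ e ∈ T, G1 - a * C e.2 = |a| * |G1 / a - C e.2| := by
    intro e he
    rw [← abs_mul, ← e1, abs_of_pos (h1 e he)]
  have a3 : ∀ (k : Fin n) (y : ℝ), 0 < G k - b * y → G k - b * y = |b| * |G k / b - y| := by
    intro k y hy
    rw [← abs_mul, ← e3, abs_of_pos hy]
  have hε : ∃ ε : ℝ, (ε = 1 ∨ ε = -1) ∧ ∀ e ∈ T, 0 < ε * (G1 / a - C e.2) := by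
    rcases lt_or_gt_of_ne ha with hneg | hpos
    · refine ⟨-1, Or.inr rfl, fun e he => ?_⟩
      have h6 := h1 e he
      rw [e1] at h6
      have h7 : 0 < (-a) * (-(G1 / a - C e.2)) := by linarith
      have h8 := (pos_iff_pos_of_mul_pos h7).1 (by linarith)
      linarith
    · refine ⟨1, Or.inl rfl, fun e he => ?_⟩
      have h6 := h1 e he
      rw [e1] at h6
      have h8 := (pos_iff_pos_of_mul_pos h6).1 hpos
      linarith
  obtain ⟨ε, hε1, hε2⟩ := hε
  refine hN n B C w (fun k => G k / b) (G1 / a) ε T hε1 ?_ ?_ hinj hε2 ?_ ?_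
  · intro e he f hf hef h hh g hg k1 k2 k3
    have hle : c * min 1 |b| * w e.1 ≤ c * w e.1 := by
      apply mul_le_mul_of_nonneg_right _ (h2 e he).le
      calc c * min 1 |b| ≤ c * 1 := mul_le_mul_of_nonneg_left (min_le_left _ _) hc.le
        _ = c := mul_one c
    exact hW e he f hf hef h hh g hg k1 (lt_of_lt_of_le k2 hle) (lt_of_lt_of_le k3 hle)
  · intro e he f hf hef h hh g hg k1 k2 k3
    have he' : (e.2, e.1) ∈ T := by
      obtain ⟨x, hx, rfl⟩ := Finset.mem_image.1 he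
      exact hx
    have hf' : (f.2, f.1) ∈ T := by
      obtain ⟨x, hx, rfl⟩ := Finset.mem_image.1 hf
      exact hx
    have p1 : 0 < G e.1 - b * B e.2 := h3 _ he'
    have p2 : 0 < G e.1 - b * B f.2 := by
      have := h3 _ hf'
      rw [hef]
      exact this
    have p3 : 0 < G e.1 - b * h := by
      rcases Set.mem_uIcc.1 hh with ⟨q1, q2⟩ | ⟨q1, q2⟩
      · rcases le_total 0 b with hb0 | hb0
        · have := mul_le_mul_of_nonneg_left q2 hb0
          linarith
        · have := mul_le_mul_of_nonpos_left q1 hb0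
          linarith
      · rcases le_total 0 b with hb0 | hb0
        · have := mul_le_mul_of_nonneg_left q2 hb0
          linarith
        · have := mul_le_mul_of_nonpos_left q1 hb0
          linarith
    have hle : c * min 1 |b| * |G e.1 / b - h| ≤ c * (G e.1 - b * h) := by
      rw [a3 e.1 h p3, ← mul_assoc]
      apply mul_le_mul_of_nonneg_right _ (abs_nonneg _)
      exact mul_le_mul_of_nonneg_left (min_le_right _ _) hc.le
    exact hF e he f hf hef h hh g hg k1 (lt_of_lt_of_le k2 hle) (lt_of_lt_of_le k3 hle)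
  · intro e he
    have h6 := h4 e he
    rw [a1 e he] at h6
    have h7 : |G1 / a - C e.2| ≤ 1 / |a| * w e.1 := by
      rw [div_mul_eq_mul_div, one_mul, le_div_iff₀ ha']
      linarith
    exact h7.trans (mul_le_mul_of_nonneg_right (le_max_left _ _) (h2 e he).le)
  · intro e he
    have h6 := h5 e he
    rw [a1 e he, a3 _ _ (h3 e he)] at h6
    have h7 : |G1 / a - C e.2| ≤ |b| / |a| * |G e.2 / b - B e.1| := by
      rw [div_mul_eq_mul_div, le_div_iff₀ ha']
      linarith
    exact h7.trans (mul_le_mul_of_nonneg_right (le_max_right _ _) (abs_nonneg _))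

theorem cycB_bound {c q₁ q₂ q₃ : ℝ} (hc : 0 < c) (h1 : q₁ ≠ 0) (h2 : q₂ ≠ 0) (h3 : q₃ ≠ 0) :
    ∃ N : ℕ, ∀ (n : ℕ) (A B C g₁ g₂ g₃ : Fin n → ℝ) (T : Finset (Fin n × Fin n × Fin n)),
    Sys c A B C g₁ g₂ g₃ 0 q₁ 0 q₂ 0 q₃ T →
    (∀ t ∈ T, g₁ t.1 - q₁ * C t.2.2 ≤ g₂ t.2.1 - q₂ * A t.1) →
    (∀ t ∈ T, g₁ t.1 - q₁ * C t.2.2 ≤ g₃ t.2.2 - q₃ * B t.2.1) → T.card ≤ N * n ^ 2 := by
  classical
  obtain ⟨N, hN⟩ := slice_bound hc h1 h3
  refine ⟨N, ?_⟩
  intro n A B C g₁ g₂ g₃ T hS h4 h5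
  have hcard : T.card = ∑ i : Fin n, (T.filter fun t => t.1 = i).card :=
    Finset.card_eq_sum_card_fiberwise fun t _ => Finset.mem_coe.2 (Finset.mem_univ _)
  have hone : ∀ i : Fin n, (T.filter fun t => t.1 = i).card ≤ N * n := by
    intro i
    set Ti : Finset (Fin n × Fin n) := (T.filter fun t => t.1 = i).image fun t => t.2 with hTi
    have hmem : ∀ e : Fin n × Fin n, e ∈ Ti ↔ (i, e.1, e.2) ∈ T := by
      intro e
      rw [hTi, Finset.mem_image]
      constructor
      · rintro ⟨t, ht, rfl⟩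
        obtain ⟨ht1, rfl⟩ := Finset.mem_filter.1 ht
        exact ht1
      · intro he
        exact ⟨(i, e.1, e.2), Finset.mem_filter.2 ⟨he, rfl⟩, rfl⟩
    have hcd : Ti.card = (T.filter fun t => t.1 = i).card := by
      apply Finset.card_image_of_injOn
      intro s hs t ht hst
      have hs' := (Finset.mem_filter.1 (Finset.mem_coe.1 hs)).2
      have ht' := (Finset.mem_filter.1 (Finset.mem_coe.1 ht)).2
      exact Prod.ext (hs'.trans ht'.symm) hst
    rw [← hcd]
    refine hN n B C (fun j => g₂ j - q₂ * A i) g₃ (g₁ i) Ti ?_ ?_ ?_ ?_ ?_ ?_ ?_ ?_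
    · intro e he f hf hef h hh g hg k1 k2 k3
      rw [hmem] at he hf hg
      have r1 : (e.1, e.2, i) ∈ rot T := Finset.mem_image.2 ⟨_, he, rfl⟩
      have r2 : (f.1, f.2, i) ∈ rot T := Finset.mem_image.2 ⟨_, hf, rfl⟩
      have r3 : (g.1, g.2, i) ∈ rot T := Finset.mem_image.2 ⟨_, hg, rfl⟩
      obtain ⟨l, hl, hlh⟩ := exists_convex hh
      have hpos : 0 < g₂ e.1 - 0 * h - q₂ * A i := by
        have := hS.pos₂ _ he
        simp only at this
        linarith
      have hz : A i = (1 - l) * A i + l * A i := by ring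
      refine hS.cov₂ _ r1 _ r2 hef l hl h (A i) hlh hz _ r3 k1 ?_ ?_ ?_
      · simp only
        have : c * (g₂ e.1 - 0 * h - q₂ * A i) = c * (g₂ e.1 - q₂ * A i) := by ring
        rw [this]
        exact k2
      · simp only
        have : c * (g₂ e.1 - 0 * h - q₂ * A i) = c * (g₂ e.1 - q₂ * A i) := by ring
        rw [this]
        exact k3
      · simp only [sub_self, abs_zero]
        exact mul_pos hc hpos
    · intro e he f hf hef h hh g hg k1 k2 k3
      have he' := mem_sw.1 he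
      have hf' := mem_sw.1 hf
      have hg' := mem_sw.1 hg
      rw [hmem] at he' hf' hg'
      have r1 : (e.1, i, e.2) ∈ rot (rot T) :=
        Finset.mem_image.2 ⟨_, Finset.mem_image.2 ⟨_, he', rfl⟩, rfl⟩
      have r2 : (f.1, i, f.2) ∈ rot (rot T) :=
        Finset.mem_image.2 ⟨_, Finset.mem_image.2 ⟨_, hf', rfl⟩, rfl⟩
      have r3 : (g.1, i, g.2) ∈ rot (rot T) :=
        Finset.mem_image.2 ⟨_, Finset.mem_image.2 ⟨_, hg', rfl⟩, rfl⟩
      obtain ⟨l, hl, hlh⟩ := exists_convex hh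
      have hz : A i = (1 - l) * A i + l * A i := by ring
      have hk : 0 < c * (g₃ e.1 - q₃ * h) := lt_of_le_of_lt (abs_nonneg _) k3
      refine hS.cov₃ _ r1 _ r2 hef l hl (A i) h hz hlh _ r3 k1 ?_ ?_ ?_
      · simp only
        have : c * (g₃ e.1 - 0 * A i - q₃ * h) = c * (g₃ e.1 - q₃ * h) := by ring
        rw [this]
        exact k2
      · simp only [sub_self, abs_zero]
        have : c * (g₃ e.1 - 0 * A i - q₃ * h) = c * (g₃ e.1 - q₃ * h) := by ring
        rw [this]
        exact hk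
      · simp only
        have : c * (g₃ e.1 - 0 * A i - q₃ * h) = c * (g₃ e.1 - q₃ * h) := by ring
        rw [this]
        exact k3
    · intro e he f hf hef1 hef2
      rw [hmem] at he hf
      have := hS.inj _ he _ hf rfl hef1 hef2
      exact congrArg Prod.snd this
    · intro e he
      rw [hmem] at he
      have := hS.pos₁ _ he
      simp only at this
      linarith
    · intro e he
      rw [hmem] at he
      have := hS.pos₂ _ he
      simp only at this ⊢
      linarith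
    · intro e he
      rw [hmem] at he
      have := hS.pos₃ _ he
      simp only at this
      linarith
    · intro e he
      rw [hmem] at he
      exact h4 _ he
    · intro e he
      rw [hmem] at he
      exact h5 _ he
  rw [hcard]
  calc ∑ i : Fin n, (T.filter fun t => t.1 = i).card ≤ ∑ _i : Fin n, N * n :=
        Finset.sum_le_sum fun i _ => hone i
    _ = N * n ^ 2 := by
        rw [Finset.sum_const, Finset.card_univ, Fintype.card_fin, smul_eq_mul]
        ring

end UF.CO
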