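import Pool.Agent.Work.MP_4c5ddc_co.CO.Nice
import Pool.Agent.Work.MP_4c5ddc_co.CO.CycA
import Pool.Agent.Work.MP_4c5ddc_co.CO.CycB

/-!
# CO/Core (M): the count for one class of vertices (assembly)

PROOF. (1) Rotation: `Sys c A B C g₁ g₂ g₃ p₁ q₁ p₂ q₂ p₃ q₃ T` implies
`Sys c B C A g₂ g₃ g₁ p₂ q₂ p₃ q₃ p₁ q₁ (rot T)` (`rot (rot (rot T)) = T`; `(rot T).card = T.card`).
(2) `Sys` is inherited by subsets of `T`. (3) If `q₁ ≠ 0` and `p₃ ≠ 0`: `nice_bound`. If `q₂ ≠ 0` and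
`p₁ ≠ 0`, or `q₃ ≠ 0` and `p₂ ≠ 0`: `nice_bound` after one or two rotations. (4) Otherwise
(`q₁ = 0` or `p₃ = 0`), (`q₂ = 0` or `p₁ = 0`), (`q₃ = 0` or `p₂ = 0`), and with `h1, h2, h3`: either
`q₁ = q₂ = q₃ = 0` and all `p` are nonzero (if `q₁ = 0` then `p₁ ≠ 0`, so `q₂ = 0`, `p₂ ≠ 0`, `q₃ = 0`,
`p₃ ≠ 0`), or (if `q₁ ≠ 0`) `p₃ = 0`, `q₃ ≠ 0`, `p₂ = 0`, `q₂ ≠ 0`, `p₁ = 0`. In the first case divide
`T` into the triples for which the first, the second, the third slack is the smallest one and apply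
`cycA_bound` to the parts after zero, one, two rotations; in the second case the same with
`cycB_bound`. `n ^ 2 ≤ n ^ 2 * (1 + Nat.log 2 n)`.
-/

set_option autoImplicit false

namespace UF.CO

private theorem rot3 {n : ℕ} (T : Finset (Fin n × Fin n × Fin n)) : rot (rot (rot T)) = T := by
  unfold rot
  rw [Finset.image_image, Finset.image_image]
  have h : ((fun t : Fin n × Fin n × Fin n => (t.2.1, t.2.2, t.1)) ∘
      (fun t : Fin n × Fin n × Fin n => (t.2.1, t.2.2, t.1))) ∘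
      (fun t : Fin n × Fin n × Fin n => (t.2.1, t.2.2, t.1)) = id := by
    funext t
    rfl
  rw [h, Finset.image_id]

private theorem card_rot {n : ℕ} (T : Finset (Fin n × Fin n × Fin n)) :
    (rot T).card = T.card := by
  unfold rot
  apply Finset.card_image_of_injective
  intro t u h
  simp only [Prod.mk.injEq] at h
  exact Prod.ext h.2.2 (Prod.ext h.1 h.2.1)

private theorem mem_rot {n : ℕ} {T : Finset (Fin n × Fin n × Fin n)}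
    {t : Fin n × Fin n × Fin n} (ht : t ∈ rot T) : (t.2.2, t.1, t.2.1) ∈ T := by
  obtain ⟨u, hu, rfl⟩ := Finset.mem_image.1 ht
  exact hu

private theorem rot_mono {n : ℕ} {T T' : Finset (Fin n × Fin n × Fin n)} (h : T' ⊆ T) :
    rot T' ⊆ rot T := Finset.image_subset_image h

private theorem cov3_mono {n : ℕ} {c : ℝ} {A B C : Fin n → ℝ} {s : Fin n → ℝ → ℝ → ℝ}
    {T T' : Finset (Fin n × Fin n × Fin n)} (hT : T' ⊆ T) (h : Cov3 c A B C s T) :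
    Cov3 c A B C s T' :=
  fun t ht t' ht' e l hl y z hy hz u hu => h t (hT ht) t' (hT ht') e l hl y z hy hz u (hT hu)

private theorem sys_mono {n : ℕ} {c : ℝ} {A B C g₁ g₂ g₃ : Fin n → ℝ} {p₁ q₁ p₂ q₂ p₃ q₃ : ℝ}
    {T T' : Finset (Fin n × Fin n × Fin n)} (hT : T' ⊆ T)
    (h : Sys c A B C g₁ g₂ g₃ p₁ q₁ p₂ q₂ p₃ q₃ T) :
    Sys c A B C g₁ g₂ g₃ p₁ q₁ p₂ q₂ p₃ q₃ T' :=
  ⟨fun t ht => h.pos₁ t (hT ht), fun t ht => h.pos₂ t (hT ht), fun t ht => h.pos₃ t (hT ht),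
    cov3_mono hT h.cov₁, cov3_mono (rot_mono hT) h.cov₂,
    cov3_mono (rot_mono (rot_mono hT)) h.cov₃, fun t ht u hu => h.inj t (hT ht) u (hT hu)⟩

private theorem sys_rot {n : ℕ} {c : ℝ} {A B C g₁ g₂ g₃ : Fin n → ℝ} {p₁ q₁ p₂ q₂ p₃ q₃ : ℝ}
    {T : Finset (Fin n × Fin n × Fin n)} (h : Sys c A B C g₁ g₂ g₃ p₁ q₁ p₂ q₂ p₃ q₃ T) :
    Sys c B C A g₂ g₃ g₁ p₂ q₂ p₃ q₃ p₁ q₁ (rot T) := by
  refine ⟨fun t ht => h.pos₂ _ (mem_rot ht), fun t ht => h.pos₃ _ (mem_rot ht),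
    fun t ht => h.pos₁ _ (mem_rot ht), h.cov₂, h.cov₃, ?_, ?_⟩
  · rw [rot3]
    exact h.cov₁
  · intro t ht u hu e1 e2 e3
    have := h.inj _ (mem_rot ht) _ (mem_rot hu) e3 e1 e2
    simp only [Prod.mk.injEq] at this
    exact Prod.ext this.2.1 (Prod.ext this.2.2 this.1)

private theorem split3 {n : ℕ} (T : Finset (Fin n × Fin n × Fin n))
    (s₁ s₂ s₃ : Fin n × Fin n × Fin n → ℝ) {a₁ a₂ a₃ : ℕ}
    (h1 : ∀ T' ⊆ T, (∀ t ∈ T', s₁ t ≤ s₂ t ∧ s₁ t ≤ s₃ t) → T'.card ≤ a₁)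
    (h2 : ∀ T' ⊆ T, (∀ t ∈ T', s₂ t ≤ s₃ t ∧ s₂ t ≤ s₁ t) → T'.card ≤ a₂)
    (h3 : ∀ T' ⊆ T, (∀ t ∈ T', s₃ t ≤ s₁ t ∧ s₃ t ≤ s₂ t) → T'.card ≤ a₃) :
    T.card ≤ a₁ + a₂ + a₃ := by
  classical
  have e1 := h1 (T.filter fun t => s₁ t ≤ s₂ t ∧ s₁ t ≤ s₃ t) (Finset.filter_subset _ _)
    (fun t ht => (Finset.mem_filter.1 ht).2)
  have e2 := h2 (T.filter fun t => s₂ t ≤ s₃ t ∧ s₂ t ≤ s₁ t) (Finset.filter_subset _ _)
    (fun t ht => (Finset.mem_filter.1 ht).2)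
  have e3 := h3 (T.filter fun t => s₃ t ≤ s₁ t ∧ s₃ t ≤ s₂ t) (Finset.filter_subset _ _)
    (fun t ht => (Finset.mem_filter.1 ht).2)
  have hsub : T ⊆ ((T.filter fun t => s₁ t ≤ s₂ t ∧ s₁ t ≤ s₃ t) ∪
      (T.filter fun t => s₂ t ≤ s₃ t ∧ s₂ t ≤ s₁ t)) ∪
      (T.filter fun t => s₃ t ≤ s₁ t ∧ s₃ t ≤ s₂ t) := by
    intro t ht
    simp only [Finset.mem_union, Finset.mem_filter]
    rcases le_total (s₁ t) (s₂ t) with h12 | h12
    · rcases le_total (s₁ t) (s₃ t) with h13 | h13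
      · exact Or.inl (Or.inl ⟨ht, h12, h13⟩)
      · exact Or.inr ⟨ht, h13, h13.trans h12⟩
    · rcases le_total (s₂ t) (s₃ t) with h23 | h23
      · exact Or.inl (Or.inr ⟨ht, h23, h12⟩)
      · exact Or.inr ⟨ht, h23.trans h12, h23⟩
  have e4 := Finset.card_le_card hsub
  have e5 := Finset.card_union_le ((T.filter fun t => s₁ t ≤ s₂ t ∧ s₁ t ≤ s₃ t) ∪
      (T.filter fun t => s₂ t ≤ s₃ t ∧ s₂ t ≤ s₁ t)) (T.filter fun t => s₃ t ≤ s₁ t ∧ s₃ t ≤ s₂ t)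
  have e6 := Finset.card_union_le (T.filter fun t => s₁ t ≤ s₂ t ∧ s₁ t ≤ s₃ t)
      (T.filter fun t => s₂ t ≤ s₃ t ∧ s₂ t ≤ s₁ t)
  omega

private theorem fin_bound {a b c n : ℕ} {m : ℕ} (h : m ≤ a * n ^ 2 + b * n ^ 2 + c * n ^ 2) :
    m ≤ (a + b + c) * (n ^ 2 * (1 + Nat.log 2 n)) := by
  have h1 : n ^ 2 ≤ n ^ 2 * (1 + Nat.log 2 n) := Nat.le_mul_of_pos_right _ (by omega)
  calc m ≤ a * n ^ 2 + b * n ^ 2 + c * n ^ 2 := h
    _ = (a + b + c) * n ^ 2 := by ring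
    _ ≤ _ := Nat.mul_le_mul_left _ h1

theorem core_bound {c p₁ q₁ p₂ q₂ p₃ q₃ : ℝ} (hc : 0 < c) (h1 : p₁ ≠ 0 ∨ q₁ ≠ 0)
    (h2 : p₂ ≠ 0 ∨ q₂ ≠ 0) (h3 : p₃ ≠ 0 ∨ q₃ ≠ 0) :
    ∃ N : ℕ, ∀ (n : ℕ) (A B C g₁ g₂ g₃ : Fin n → ℝ) (T : Finset (Fin n × Fin n × Fin n)),
    Sys c A B C g₁ g₂ g₃ p₁ q₁ p₂ q₂ p₃ q₃ T → T.card ≤ N * (n ^ 2 * (1 + Nat.log 2 n)) := by
  by_cases c1 : q₁ ≠ 0 ∧ p₃ ≠ 0
  · exact nice_bound hc c1.1 c1.2
  by_cases c2 : q₂ ≠ 0 ∧ p₁ ≠ 0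
  · obtain ⟨N, hN⟩ := nice_bound (c := c) (p₁ := p₂) (q₁ := q₂) (p₂ := p₃) (q₂ := q₃) (p₃ := p₁)
      (q₃ := q₁) hc c2.1 c2.2
    refine ⟨N, ?_⟩
    intro n A B C g₁ g₂ g₃ T hS
    have := hN n _ _ _ _ _ _ _ (sys_rot hS)
    rwa [card_rot] at this
  by_cases c3 : q₃ ≠ 0 ∧ p₂ ≠ 0
  · obtain ⟨N, hN⟩ := nice_bound (c := c) (p₁ := p₃) (q₁ := q₃) (p₂ := p₁) (q₂ := q₁) (p₃ := p₂)
      (q₃ := q₂) hc c3.1 c3.2
    refine ⟨N, ?_⟩
    intro n A B C g₁ g₂ g₃ T hS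
    have := hN n _ _ _ _ _ _ _ (sys_rot (sys_rot hS))
    rwa [card_rot, card_rot] at this
  by_cases hq : q₁ = 0
  · have hp1 : p₁ ≠ 0 := by
      rcases h1 with h | h
      · exact h
      · exact absurd hq h
    have hq2 : q₂ = 0 := by
      by_contra h
      exact c2 ⟨h, hp1⟩
    have hp2 : p₂ ≠ 0 := by
      rcases h2 with h | h
      · exact h
      · exact absurd hq2 h
    have hq3 : q₃ = 0 := by
      by_contra h
      exact c3 ⟨h, hp2⟩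
    have hp3 : p₃ ≠ 0 := by
      rcases h3 with h | h
      · exact h
      · exact absurd hq3 h
    subst hq hq2 hq3
    obtain ⟨N1, hN1⟩ := cycA_bound hc hp1 hp2 hp3
    obtain ⟨N2, hN2⟩ := cycA_bound hc hp2 hp3 hp1
    obtain ⟨N3, hN3⟩ := cycA_bound hc hp3 hp1 hp2
    refine ⟨N1 + N2 + N3, ?_⟩
    intro n A B C g₁ g₂ g₃ T hS
    apply fin_bound
    apply split3 T (fun t => g₁ t.1 - p₁ * B t.2.1) (fun t => g₂ t.2.1 - p₂ * C t.2.2)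
      (fun t => g₃ t.2.2 - p₃ * A t.1)
    · intro T' hT' hs
      exact hN1 n A B C g₁ g₂ g₃ T' (sys_mono hT' hS) (fun t ht => (hs t ht).1)
        (fun t ht => (hs t ht).2)
    · intro T' hT' hs
      have := hN2 n B C A g₂ g₃ g₁ (rot T') (sys_rot (sys_mono hT' hS))
        (fun t ht => (hs _ (mem_rot ht)).1) (fun t ht => (hs _ (mem_rot ht)).2)
      rwa [card_rot] at this
    · intro T' hT' hs
      have := hN3 n C A B g₃ g₁ g₂ (rot (rot T')) (sys_rot (sys_rot (sys_mono hT' hS)))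
        (fun t ht => (hs _ (mem_rot (mem_rot ht))).1) (fun t ht => (hs _ (mem_rot (mem_rot ht))).2)
      rwa [card_rot, card_rot] at this
  · have hp3 : p₃ = 0 := by
      by_contra h
      exact c1 ⟨hq, h⟩
    have hq3 : q₃ ≠ 0 := by
      rcases h3 with h | h
      · exact absurd hp3 h
      · exact h
    have hp2 : p₂ = 0 := by
      by_contra h
      exact c3 ⟨hq3, h⟩
    have hq2 : q₂ ≠ 0 := by
      rcases h2 with h | h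
      · exact absurd hp2 h
      · exact h
    have hp1 : p₁ = 0 := by
      by_contra h
      exact c2 ⟨hq2, h⟩
    subst hp1 hp2 hp3
    obtain ⟨N1, hN1⟩ := cycB_bound hc hq hq2 hq3
    obtain ⟨N2, hN2⟩ := cycB_bound hc hq2 hq3 hq
    obtain ⟨N3, hN3⟩ := cycB_bound hc hq3 hq hq2
    refine ⟨N1 + N2 + N3, ?_⟩
    intro n A B C g₁ g₂ g₃ T hS
    apply fin_bound
    apply split3 T (fun t => g₁ t.1 - q₁ * C t.2.2) (fun t => g₂ t.2.1 - q₂ * A t.1)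
      (fun t => g₃ t.2.2 - q₃ * B t.2.1)
    · intro T' hT' hs
      exact hN1 n A B C g₁ g₂ g₃ T' (sys_mono hT' hS) (fun t ht => (hs t ht).1)
        (fun t ht => (hs t ht).2)
    · intro T' hT' hs
      have := hN2 n B C A g₂ g₃ g₁ (rot T') (sys_rot (sys_mono hT' hS))
        (fun t ht => (hs _ (mem_rot ht)).1) (fun t ht => (hs _ (mem_rot ht)).2)
      rwa [card_rot] at this
    · intro T' hT' hs
      have := hN3 n C A B g₃ g₁ g₂ (rot (rot T')) (sys_rot (sys_rot (sys_mono hT' hS)))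
        (fun t ht => (hs _ (mem_rot (mem_rot ht))).1) (fun t ht => (hs _ (mem_rot (mem_rot ht))).2)
      rwa [card_rot, card_rot] at this

end UF.CO
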