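import Pool.Agent.Work.MP_4c5ddc_co.CO.HB
import Pool.Agent.Work.MP_4c5ddc_co.CO.Coord
import Pool.Agent.Work.MP_4c5ddc_co.CO.Core

/-!
# CO/Cls (M-L): the vertices of one class

PROOF. Let `hl` hold and `NPar μ₁ ν₁`, `NPar μ₂ ν₂`, `NPar μ₃ ν₃` (otherwise there are no such
points, `N' = 0`). `exists_comb` gives `a₁, b₁, d₁` with
`inner ℝ μ₁ p = a₁ inner ν₁ p + b₁ inner ν₂ p + d₁ inner ν₃ p`; for `μ₂` apply it to the order
`ν₂, ν₃, ν₁` (`LinearIndependent` of `![ν₂, ν₃, ν₁]` by a permutation):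
`inner μ₂ p = a₂ inner ν₂ p + b₂ inner ν₃ p + d₂ inner ν₁ p`; for `μ₃` the order `ν₃, ν₁, ν₂`. Let
`c₀` from `half_ball`, `κ` from `coord_lipschitz`, `c = c₀ / κ`, and `N'` from `core_bound` with
`p₁ = b₁`, `q₁ = d₁`, `p₂ = b₂`, `q₂ = d₂`, `p₃ = b₃`, `q₃ = d₃`.
Given `n, h`: `A i = h i ν₁`, `B j = h j ν₂`, `C k = h k ν₃`, `g₁ i = h i μ₁ - a₁ * A i`,
`g₂ j = h j μ₂ - a₂ * B j`, `g₃ k = h k μ₃ - a₃ * C k`, `T` the finite set of the `t` for which
some `v` has `PropAt ... t v`; choose `v t`. Then `inner ν₁ (v t) = A t.1`,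
`inner ν₂ (v t) = B t.2.1`, `inner ν₃ (v t) = C t.2.2`, and
`h t.1 μ₁ - inner μ₁ (v t) = g₁ t.1 - p₁ * B t.2.1 - q₁ * C t.2.2`, etc. (this is `pos₁`, `pos₂`,
`pos₃`). `cov₁`: let `t, t' ∈ T` with `t.1 = t'.1 = i`, `l`, `y`, `z`, `u ∈ T` as in `Cov3`, and
`q = (1 - l) • v t + l • v t'` (in `poly N (h i)` by convexity, `inner ν₁ q = h i ν₁`,
`inner ν₂ q = y`, `inner ν₃ q = z`). With `s = g₁ i - p₁ * y - q₁ * z` we have
`s ≤ h i μ - inner μ q` for every `μ ∈ N` with `NPar μ ν₁`: the right side is the average of the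
slacks of `μ` at `v t` and `v t'`, the left side the average of the slacks of `μ₁`, which are the
smallest ones (`OnF`). The inequalities for `u` say that the three coordinates of `v u - q` are
smaller than `c * s` in absolute value, so `‖v u - q‖ < κ * c * s = c₀ * s` and `half_ball` gives
`v u ∈ interior (poly N (h i))`, which contradicts `PropAt` for `u`. `cov₂`, `cov₃`: the same.
`inj`: if the three coordinates agree then `v t = v u =: w` (`coord_inj`). The indices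
`t.1, t.2.1, t.2.2` are three different elements of `idx K w`, so they are all of it by `h3`, the
same for `u`. If `t.1 ≠ u.1` then `t.1 = u.2.1` or `t.1 = u.2.2`; in the first case the object
`t.1` has at `w` the tight normals `ν₁` and `ν₂`, but `OnF N (h t.1) ν₁ μ₁ w` makes the slack of
every non parallel normal positive (`ν₂` is not a multiple of `ν₁`): contradiction; the same in the
second case and for the other indices. (`w ∈ frontier (poly N (h i))` for these indices, by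
`mem_frontier_poly`; only `idx` needs it.) Finally `core_bound` bounds `T.card`, and the set of the
`v` is the image of `T` under `t ↦ v t` (for fixed `t` the point is unique by `coord_inj`).
-/

set_option autoImplicit false

namespace UF.CO

private theorem npar_of {w : Fin 3 → E3} (hl : LinearIndependent ℝ w) {i j : Fin 3} (hij : i ≠ j) :
    NPar (w i) (w j) := by
  intro t ht
  have h1 := hl.comp ![i, j] (by
    intro a b hab
    fin_cases a <;> fin_cases b <;> simp at hab ⊢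
    · exact hij hab
    · exact hij hab.symm)
  have h2 : w ∘ ![i, j] = ![w i, w j] := by
    funext k
    fin_cases k <;> rfl
  rw [h2] at h1
  have h3 := LinearIndependent.pair_iff.1 h1 1 (-t) (by
    rw [ht]
    module)
  exact one_ne_zero h3.1

private theorem tight_false {N : Finset E3} {h : E3 → ℝ} {ν μ v ν' : E3} (hO : OnF N h ν μ v)
    (hν' : ν' ∈ N) (hp : NPar ν' ν) (he : inner ℝ ν' v = h ν') : False := by
  obtain ⟨_, _, _, h4, h5⟩ := hO
  have := h5 ν' hν' hp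
  rw [he] at this
  linarith

private theorem cov_aux {n : ℕ} (N : Finset E3) {α c₀ κ a b d : ℝ} (hκ0 : 0 < κ)
    (h : Fin n → E3 → ℝ) (hF : ∀ i, Fat α (poly N (h i)))
    (hHB : ∀ h : E3 → ℝ, Fat α (poly N h) → ∀ ν ∈ N, ∀ x ∈ poly N h, inner ℝ ν x = h ν →
      ∀ s : ℝ, (∀ μ ∈ N, NPar μ ν → s ≤ h μ - inner ℝ μ x) → ∀ y : E3, ‖y - x‖ < c₀ * s →
        inner ℝ ν y < h ν → y ∈ interior (poly N h))
    {ν₁ ν₂ ν₃ μ : E3} (h₁ : ν₁ ∈ N)
    (hκ : ∀ (p : E3) (δ : ℝ), |inner ℝ ν₁ p| < δ → |inner ℝ ν₂ p| < δ →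
      |inner ℝ ν₃ p| < δ → ‖p‖ < κ * δ)
    (hc : ∀ p : E3, inner ℝ μ p = a * inner ℝ ν₁ p + b * inner ℝ ν₂ p + d * inner ℝ ν₃ p)
    (S : Finset (Fin n × Fin n × Fin n)) (B C : Fin n → ℝ) (v : Fin n × Fin n × Fin n → E3)
    (hv1 : ∀ t ∈ S, OnF N (h t.1) ν₁ μ (v t)) (hv2 : ∀ t ∈ S, inner ℝ ν₂ (v t) = B t.2.1)
    (hv3 : ∀ t ∈ S, inner ℝ ν₃ (v t) = C t.2.2)
    (hv4 : ∀ t ∈ S, ∀ i, v t ∉ interior (poly N (h i))) :
    Cov3 (c₀ / κ) (fun i => h i ν₁) B C (fun i y z => (h i μ - a * h i ν₁) - b * y - d * z) S := by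
  intro t ht t' ht' htt l hl y z hy hz u hu hA1 hA2 hB hC
  have Ot := hv1 t ht
  have Ot' := hv1 t' ht'
  rw [← htt] at Ot'
  obtain ⟨x1, x2, x3, x4, x5⟩ := Ot
  obtain ⟨y1, y2, y3, y4, y5⟩ := Ot'
  have hl0 : 0 ≤ l := hl.1
  have hl1 : 0 ≤ 1 - l := by linarith [hl.2]
  set q : E3 := (1 - l) • v t + l • v t' with hq
  have hin : ∀ ν : E3, inner ℝ ν q = (1 - l) * inner ℝ ν (v t) + l * inner ℝ ν (v t') := by
    intro ν
    rw [hq, inner_add_right, inner_smul_right, inner_smul_right]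
  have q1 : inner ℝ ν₁ q = h t.1 ν₁ := by
    rw [hin, x2, y2]
    ring
  have q2 : inner ℝ ν₂ q = y := by
    rw [hin, hv2 t ht, hv2 t' ht', hy]
  have q3 : inner ℝ ν₃ q = z := by
    rw [hin, hv3 t ht, hv3 t' ht', hz]
  have hs : (h t.1 μ - a * h t.1 ν₁) - b * y - d * z = h t.1 μ - inner ℝ μ q := by
    rw [hc q, q1, q2, q3]
    ring
  have hqp : q ∈ poly N (h t.1) := by
    apply convex_poly N (h t.1) x1 y1 hl1 hl0
    ring
  have hmin : ∀ μ' ∈ N, NPar μ' ν₁ → (h t.1 μ - a * h t.1 ν₁) - b * y - d * z ≤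
      h t.1 μ' - inner ℝ μ' q := by
    intro μ' hμ' hp
    rw [hs, hin, hin]
    have e1 := mul_le_mul_of_nonneg_left (x5 μ' hμ' hp) hl1
    have e2 := mul_le_mul_of_nonneg_left (y5 μ' hμ' hp) hl0
    linarith
  simp only [] at hA1 hA2 hB hC
  have hOu := hv1 u hu
  have n1 : |inner ℝ ν₁ (v u - q)| < c₀ / κ * ((h t.1 μ - a * h t.1 ν₁) - b * y - d * z) := by
    rw [inner_sub_right, q1, hOu.2.1, abs_sub_comm, abs_of_pos (by linarith)]
    exact hA2
  have n2 : |inner ℝ ν₂ (v u - q)| < c₀ / κ * ((h t.1 μ - a * h t.1 ν₁) - b * y - d * z) := by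
    rw [inner_sub_right, q2, hv2 u hu]
    exact hB
  have n3 : |inner ℝ ν₃ (v u - q)| < c₀ / κ * ((h t.1 μ - a * h t.1 ν₁) - b * y - d * z) := by
    rw [inner_sub_right, q3, hv3 u hu]
    exact hC
  have n4 := hκ _ _ n1 n2 n3
  have n5 : κ * (c₀ / κ * ((h t.1 μ - a * h t.1 ν₁) - b * y - d * z)) =
      c₀ * ((h t.1 μ - a * h t.1 ν₁) - b * y - d * z) := by
    field_simp
  rw [n5] at n4
  exact hv4 u hu t.1 (hHB (h t.1) (hF t.1) ν₁ h₁ q hqp q1 _ hmin (v u) n4 (by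
    rw [hOu.2.1]
    exact hA1))

theorem class_bound (N : Finset E3) (hN : ∀ ν ∈ N, ν ≠ 0) (α : ℝ) (ν₁ ν₂ ν₃ μ₁ μ₂ μ₃ : E3)
    (h₁ : ν₁ ∈ N) (h₂ : ν₂ ∈ N) (h₃ : ν₃ ∈ N) (hμ₁ : μ₁ ∈ N) (hμ₂ : μ₂ ∈ N) (hμ₃ : μ₃ ∈ N)
    (hl : LinearIndependent ℝ ![ν₁, ν₂, ν₃]) :
    ∃ N' : ℕ, ∀ (n : ℕ) (h : Fin n → E3 → ℝ), (∀ i, Fat α (poly N (h i))) →
      (∀ x, (idx (fun i => poly N (h i)) x).ncard ≤ 3) →
      {v | ∃ t, PropAt N h ν₁ ν₂ ν₃ μ₁ μ₂ μ₃ t v}.Finite ∧
      {v | ∃ t, PropAt N h ν₁ ν₂ ν₃ μ₁ μ₂ μ₃ t v}.ncard ≤ N' * (n ^ 2 * (1 + Nat.log 2 n)) := by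
  classical
  have NP : ∀ {i j : Fin 3}, i ≠ j → NPar (![ν₁, ν₂, ν₃] i) (![ν₁, ν₂, ν₃] j) :=
    fun hij => npar_of hl hij
  by_cases hp : NPar μ₁ ν₁ ∧ NPar μ₂ ν₂ ∧ NPar μ₃ ν₃
  · obtain ⟨hp1, hp2, hp3⟩ := hp
    have hl2 : LinearIndependent ℝ ![ν₂, ν₃, ν₁] := by
      have h1 := hl.comp ![1, 2, 0] (by decide)
      have h2 : ![ν₁, ν₂, ν₃] ∘ ![1, 2, 0] = ![ν₂, ν₃, ν₁] := by
        funext k
        fin_cases k <;> rfl
      rwa [h2] at h1
    have hl3 : LinearIndependent ℝ ![ν₃, ν₁, ν₂] := by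
      have h1 := hl.comp ![2, 0, 1] (by decide)
      have h2 : ![ν₁, ν₂, ν₃] ∘ ![2, 0, 1] = ![ν₃, ν₁, ν₂] := by
        funext k
        fin_cases k <;> rfl
      rwa [h2] at h1
    obtain ⟨a₁, b₁, d₁, hbd1, hc1⟩ := exists_comb hl hp1
    obtain ⟨a₂, b₂, d₂, hbd2, hc2⟩ := exists_comb hl2 hp2
    obtain ⟨a₃, b₃, d₃, hbd3, hc3⟩ := exists_comb hl3 hp3
    obtain ⟨c₀, hc₀, hHB⟩ := half_ball N hN α
    obtain ⟨κ, hκ0, hκ⟩ := coord_lipschitz hl
    obtain ⟨N', hN'⟩ := core_bound (c := c₀ / κ) (div_pos hc₀ hκ0) hbd1 hbd2 hbd3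
    refine ⟨N', ?_⟩
    intro n h hF h3
    set T : Finset (Fin n × Fin n × Fin n) :=
      Finset.univ.filter (fun t => ∃ v, PropAt N h ν₁ ν₂ ν₃ μ₁ μ₂ μ₃ t v) with hT
    have hex : ∀ t : Fin n × Fin n × Fin n, ∃ v : E3, t ∈ T → PropAt N h ν₁ ν₂ ν₃ μ₁ μ₂ μ₃ t v := by
      intro t
      by_cases ht : t ∈ T
      · obtain ⟨v, hv⟩ := (Finset.mem_filter.1 ht).2
        exact ⟨v, fun _ => hv⟩
      · exact ⟨0, fun h' => absurd h' ht⟩
    choose v hv using hex
    have O1 : ∀ t ∈ T, OnF N (h t.1) ν₁ μ₁ (v t) := fun t ht => (hv t ht).2.2.2.2.1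
    have O2 : ∀ t ∈ T, OnF N (h t.2.1) ν₂ μ₂ (v t) := fun t ht => (hv t ht).2.2.2.2.2.1
    have O3 : ∀ t ∈ T, OnF N (h t.2.2) ν₃ μ₃ (v t) := fun t ht => (hv t ht).2.2.2.2.2.2
    have OI : ∀ t ∈ T, ∀ i, v t ∉ interior (poly N (h i)) := fun t ht => (hv t ht).2.2.2.1
    have hr2 : ∀ t' ∈ rot T, (t'.2.2, t'.1, t'.2.1) ∈ T := by
      intro t' ht'
      obtain ⟨t, ht, rfl⟩ := Finset.mem_image.1 ht'
      exact ht
    have hr3 : ∀ t' ∈ rot (rot T), (t'.2.1, t'.2.2, t'.1) ∈ T := by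
      intro t' ht'
      obtain ⟨t, ht, rfl⟩ := Finset.mem_image.1 ht'
      exact hr2 t ht
    have hsys : Sys (c₀ / κ) (fun i => h i ν₁) (fun j => h j ν₂) (fun k => h k ν₃)
        (fun i => h i μ₁ - a₁ * h i ν₁) (fun j => h j μ₂ - a₂ * h j ν₂)
        (fun k => h k μ₃ - a₃ * h k ν₃) b₁ d₁ b₂ d₂ b₃ d₃ T := by
      refine ⟨?_, ?_, ?_, ?_, ?_, ?_, ?_⟩
      · intro t ht
        have e := (O1 t ht).2.2.2.1
        rw [hc1, (O1 t ht).2.1, (O2 t ht).2.1, (O3 t ht).2.1] at e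
        linarith
      · intro t ht
        have e := (O2 t ht).2.2.2.1
        rw [hc2, (O1 t ht).2.1, (O2 t ht).2.1, (O3 t ht).2.1] at e
        linarith
      · intro t ht
        have e := (O3 t ht).2.2.2.1
        rw [hc3, (O1 t ht).2.1, (O2 t ht).2.1, (O3 t ht).2.1] at e
        linarith
      · exact cov_aux N hκ0 h hF hHB h₁ hκ hc1 T _ _ v O1 (fun t ht => (O2 t ht).2.1)
          (fun t ht => (O3 t ht).2.1) OI
      · exact cov_aux N hκ0 h hF hHB h₂ (fun p δ e1 e2 e3 => hκ p δ e3 e1 e2) hc2 (rot T) _ _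
          (fun t => v (t.2.2, t.1, t.2.1)) (fun t ht => O2 _ (hr2 t ht))
          (fun t ht => (O3 _ (hr2 t ht)).2.1) (fun t ht => (O1 _ (hr2 t ht)).2.1)
          (fun t ht => OI _ (hr2 t ht))
      · exact cov_aux N hκ0 h hF hHB h₃ (fun p δ e1 e2 e3 => hκ p δ e2 e3 e1) hc3 (rot (rot T))
          _ _ (fun t => v (t.2.1, t.2.2, t.1)) (fun t ht => O3 _ (hr3 t ht))
          (fun t ht => (O1 _ (hr3 t ht)).2.1) (fun t ht => (O2 _ (hr3 t ht)).2.1)
          (fun t ht => OI _ (hr3 t ht))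
      · intro t ht u hu e1 e2 e3
        have hw : v t = v u := by
          apply coord_inj hl
          · rw [(O1 t ht).2.1, (O1 u hu).2.1, e1]
          · rw [(O2 t ht).2.1, (O2 u hu).2.1, e2]
          · rw [(O3 t ht).2.1, (O3 u hu).2.1, e3]
        have key : ∀ s ∈ T, v s = v t → ({s.1, s.2.1, s.2.2} : Set (Fin n)) =
            idx (fun i => poly N (h i)) (v t) := by
          intro s hs hsv
          apply Set.eq_of_subset_of_ncard_le
          · intro i hi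
            simp only [Set.mem_insert_iff, Set.mem_singleton_iff] at hi
            rw [← hsv]
            show v s ∈ frontier (poly N (h i))
            rw [mem_frontier_poly hN]
            rcases hi with hi | hi | hi
            · rw [hi]
              exact ⟨(O1 s hs).1, ν₁, h₁, (O1 s hs).2.1⟩
            · rw [hi]
              exact ⟨(O2 s hs).1, ν₂, h₂, (O2 s hs).2.1⟩
            · rw [hi]
              exact ⟨(O3 s hs).1, ν₃, h₃, (O3 s hs).2.1⟩
          · have hcard : ({s.1, s.2.1, s.2.2} : Set (Fin n)).ncard = 3 := by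
              have h1 := (hv s hs).1
              have h2 := (hv s hs).2.1
              have h3' := (hv s hs).2.2.1
              rw [Set.ncard_eq_three]
              exact ⟨s.1, s.2.1, s.2.2, h1, h2, h3', rfl⟩
            rw [hcard]
            exact h3 _
          · exact Set.toFinite _
        have ks := (key u hu hw.symm).trans (key t ht rfl).symm
        have m1 : u.1 ∈ ({t.1, t.2.1, t.2.2} : Set (Fin n)) := by
          rw [← ks]
          simp
        have m2 : u.2.1 ∈ ({t.1, t.2.1, t.2.2} : Set (Fin n)) := by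
          rw [← ks]
          simp
        have m3 : u.2.2 ∈ ({t.1, t.2.1, t.2.2} : Set (Fin n)) := by
          rw [← ks]
          simp
        simp only [Set.mem_insert_iff, Set.mem_singleton_iff] at m1 m2 m3
        have U1 := O1 u hu
        have U2 := O2 u hu
        have U3 := O3 u hu
        rw [← hw] at U1 U2 U3
        have T1 := O1 t ht
        have T2 := O2 t ht
        have T3 := O3 t ht
        have f1 : u.1 = t.1 := by
          rcases m1 with m | m | m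
          · exact m
          · exfalso
            rw [m] at U1
            exact tight_false U1 h₂ (NP (i := 1) (j := 0) (by decide)) T2.2.1
          · exfalso
            rw [m] at U1
            exact tight_false U1 h₃ (NP (i := 2) (j := 0) (by decide)) T3.2.1
        have f2 : u.2.1 = t.2.1 := by
          rcases m2 with m | m | m
          · exfalso
            rw [m] at U2
            exact tight_false U2 h₁ (NP (i := 0) (j := 1) (by decide)) T1.2.1
          · exact m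
          · exfalso
            rw [m] at U2
            exact tight_false U2 h₃ (NP (i := 2) (j := 1) (by decide)) T3.2.1
        have f3 : u.2.2 = t.2.2 := by
          rcases m3 with m | m | m
          · exfalso
            rw [m] at U3
            exact tight_false U3 h₁ (NP (i := 0) (j := 2) (by decide)) T1.2.1
          · exfalso
            rw [m] at U3
            exact tight_false U3 h₂ (NP (i := 1) (j := 2) (by decide)) T2.2.1
          · exact m
        exact Prod.ext f1.symm (Prod.ext f2.symm f3.symm)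
    have hcard := hN' n _ _ _ _ _ _ T hsys
    have himg : {v | ∃ t, PropAt N h ν₁ ν₂ ν₃ μ₁ μ₂ μ₃ t v} = v '' (T : Set (Fin n × Fin n × Fin n)) := by
      ext w
      constructor
      · rintro ⟨t, ht⟩
        have htT : t ∈ T := Finset.mem_filter.2 ⟨Finset.mem_univ _, w, ht⟩
        refine ⟨t, htT, ?_⟩
        apply coord_inj hl
        · rw [(O1 t htT).2.1, ht.2.2.2.2.1.2.1]
        · rw [(O2 t htT).2.1, ht.2.2.2.2.2.1.2.1]
        · rw [(O3 t htT).2.1, ht.2.2.2.2.2.2.2.1]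
      · rintro ⟨t, ht, rfl⟩
        exact ⟨t, hv t ht⟩
    rw [himg]
    refine ⟨(Finset.finite_toSet T).image _, ?_⟩
    calc (v '' (T : Set (Fin n × Fin n × Fin n))).ncard
        ≤ (T : Set (Fin n × Fin n × Fin n)).ncard := Set.ncard_image_le (Finset.finite_toSet T)
      _ = T.card := Set.ncard_coe_finset T
      _ ≤ _ := hcard
  · refine ⟨0, ?_⟩
    intro n h _ _
    have hem : {v | ∃ t, PropAt N h ν₁ ν₂ ν₃ μ₁ μ₂ μ₃ t v} = ∅ := by
      ext w
      simp only [Set.mem_ofPred_eq, Set.mem_empty_iff_false, iff_false]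
      rintro ⟨t, ht⟩
      exact hp ⟨ht.2.2.2.2.1.2.2.1, ht.2.2.2.2.2.1.2.2.1, ht.2.2.2.2.2.2.2.2.1⟩
    rw [hem]
    simp

end UF.CO
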