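import Pool.Agent.Work.MP_4c5ddc_co.Stmt2

/-!
# CO/Defs (FIXED): definitions for the near-quadratic bound for c-oriented fat polytopes

`T` is always a finite set of index pairs / triples (the vertices of the union); an object with
index `i` has a facet in the plane `x = A i` (and lies in `x ≤ A i`), the second one has a facet in
`y = B j`, the third one in `z = C k`.
-/

set_option autoImplicit false

namespace UF.CO

/-- The cell of the point `v` in the grid of mesh `η * 2 ^ m`. -/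
noncomputable def cell (η : ℝ) (m : ℤ) (v : ℝ × ℝ) : ℤ × ℤ :=
  (⌊v.1 / (η * 2 ^ m)⌋, ⌊v.2 / (η * 2 ^ m)⌋)

/-- The cell `s.2` of the scale `s.1` is active for the finite set `P` of points of the plane (with
the maximum distance): two points of `P` at a distance about `2 ^ s.1` are near the cell. -/
def Active (η D : ℝ) (P : Finset (ℝ × ℝ)) (s : ℤ × (ℤ × ℤ)) : Prop :=
  ∃ v p q : ℝ × ℝ, p ∈ P ∧ q ∈ P ∧ s.2 = cell η s.1 v ∧ (2 : ℝ) ^ s.1 ≤ dist p q ∧
    dist p q < 2 ^ (s.1 + 1) ∧ dist p v ≤ D * 2 ^ s.1 ∧ dist q v ≤ D * 2 ^ s.1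

/-- The wall `i` has the position `P i`; the pair `(i, k)` of `T` is the point
`(P i, R k)` of the plane. At each height `h` between the heights of two points of `T` on the wall
`i` the half disk (for the maximum distance) of radius `c * σ i h` to the left of the wall
contains no point of `T`. -/
def Cov {n : ℕ} (c : ℝ) (P : Fin n → ℝ) (σ : Fin n → ℝ → ℝ) (R : Fin n → ℝ)
    (T : Finset (Fin n × Fin n)) : Prop :=
  ∀ e ∈ T, ∀ f ∈ T, e.1 = f.1 → ∀ h ∈ Set.uIcc (R e.2) (R f.2), ∀ g ∈ T,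
    P g.1 < P e.1 → P e.1 - P g.1 < c * σ e.1 h → |R g.2 - h| < c * σ e.1 h → False

/-- The swapped set of pairs. -/
def sw {n : ℕ} (T : Finset (Fin n × Fin n)) : Finset (Fin n × Fin n) := T.image Prod.swap

/-- Different pairs of `T` are different points. -/
def Inj2 {n : ℕ} (A C : Fin n → ℝ) (T : Finset (Fin n × Fin n)) : Prop :=
  ∀ e ∈ T, ∀ f ∈ T, A e.1 = A f.1 → C e.2 = C f.2 → e = f

/-- The three dimensional version of `Cov`: `T` is a set of triples, the object with the first index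
`i` has the facet in `x = A i`, and the half balls at the points of the segment between two points
of `T` on this facet contain no point of `T`; `s i y z` is the slack at the point `(A i, y, z)`. -/
def Cov3 {n : ℕ} (c : ℝ) (A B C : Fin n → ℝ) (s : Fin n → ℝ → ℝ → ℝ)
    (T : Finset (Fin n × Fin n × Fin n)) : Prop :=
  ∀ t ∈ T, ∀ t' ∈ T, t.1 = t'.1 → ∀ l ∈ Set.Icc (0 : ℝ) 1, ∀ y z : ℝ,
    y = (1 - l) * B t.2.1 + l * B t'.2.1 → z = (1 - l) * C t.2.2 + l * C t'.2.2 →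
    ∀ u ∈ T, A u.1 < A t.1 → A t.1 - A u.1 < c * s t.1 y z → |B u.2.1 - y| < c * s t.1 y z →
      |C u.2.2 - z| < c * s t.1 y z → False

/-- The cyclic rotation of the three indices. -/
def rot {n : ℕ} (T : Finset (Fin n × Fin n × Fin n)) : Finset (Fin n × Fin n × Fin n) :=
  T.image fun t => (t.2.1, t.2.2, t.1)

/-- The data of one class of vertices: the slacks of the three objects of the triple
`(i, j, k)` are the affine functions `g₁ i - p₁ y - q₁ z`, `g₂ j - p₂ z - q₂ x`,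
`g₃ k - p₃ x - q₃ y`. -/
structure Sys {n : ℕ} (c : ℝ) (A B C g₁ g₂ g₃ : Fin n → ℝ) (p₁ q₁ p₂ q₂ p₃ q₃ : ℝ)
    (T : Finset (Fin n × Fin n × Fin n)) : Prop where
  pos₁ : ∀ t ∈ T, 0 < g₁ t.1 - p₁ * B t.2.1 - q₁ * C t.2.2
  pos₂ : ∀ t ∈ T, 0 < g₂ t.2.1 - p₂ * C t.2.2 - q₂ * A t.1
  pos₃ : ∀ t ∈ T, 0 < g₃ t.2.2 - p₃ * A t.1 - q₃ * B t.2.1
  cov₁ : Cov3 c A B C (fun i y z => g₁ i - p₁ * y - q₁ * z) T
  cov₂ : Cov3 c B C A (fun j z x => g₂ j - p₂ * z - q₂ * x) (rot T)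
  cov₃ : Cov3 c C A B (fun k x y => g₃ k - p₃ * x - q₃ * y) (rot (rot T))
  inj : ∀ t ∈ T, ∀ u ∈ T, A t.1 = A u.1 → B t.2.1 = B u.2.1 → C t.2.2 = C u.2.2 → t = u

/-- The polyhedron with the facet normals in `N` and the heights `h`. -/
def poly (N : Finset E3) (h : E3 → ℝ) : Set E3 := {x | ∀ ν ∈ N, inner ℝ ν x ≤ h ν}

/-- `μ` is not a multiple of `ν`. -/
def NPar (μ ν : E3) : Prop := ∀ t : ℝ, μ ≠ t • ν

/-- `v` lies on three planes with linearly independent normals of at most two of the objects. -/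
def Improper {n : ℕ} (N : Finset E3) (h : Fin n → E3 → ℝ) (v : E3) : Prop :=
  ∃ a b : Fin n, ∃ ν₁ ∈ N, ∃ ν₂ ∈ N, ∃ ν₃ ∈ N, LinearIndependent ℝ ![ν₁, ν₂, ν₃] ∧
    inner ℝ ν₁ v = h a ν₁ ∧ inner ℝ ν₂ v = h a ν₂ ∧ inner ℝ ν₃ v = h b ν₃

/-- `v` lies in the facet of the polyhedron with heights `h` with normal `ν`, and in no plane of
another facet with a non parallel normal; `μ` is a non parallel normal with the smallest slack. -/
def OnF (N : Finset E3) (h : E3 → ℝ) (ν μ v : E3) : Prop :=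
  v ∈ poly N h ∧ inner ℝ ν v = h ν ∧ NPar μ ν ∧ 0 < h μ - inner ℝ μ v ∧
    ∀ μ' ∈ N, NPar μ' ν → h μ - inner ℝ μ v ≤ h μ' - inner ℝ μ' v

/-- The proper vertices: three different objects, linearly independent normals. -/
def PropAt {n : ℕ} (N : Finset E3) (h : Fin n → E3 → ℝ) (ν₁ ν₂ ν₃ μ₁ μ₂ μ₃ : E3)
    (t : Fin n × Fin n × Fin n) (v : E3) : Prop :=
  t.1 ≠ t.2.1 ∧ t.1 ≠ t.2.2 ∧ t.2.1 ≠ t.2.2 ∧ (∀ i, v ∉ interior (poly N (h i))) ∧
    OnF N (h t.1) ν₁ μ₁ v ∧ OnF N (h t.2.1) ν₂ μ₂ v ∧ OnF N (h t.2.2) ν₃ μ₃ v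

end UF.CO
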