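import Pool.Agent.Work.MP_4c5ddc_co.CO.Poly

/-!
# CO/Dich (M): every vertex is improper or proper

PROOF. Let `K i = poly N (h i)`, `v ∈ vertices K`, `i, j, k` the three indices. By
`mem_frontier_poly` `v` lies in the three polyhedra and there are tight normals (`inner ℝ ν v = h ν`)
`ν₁, ν₂, ν₃ ∈ N` of the objects `i, j, k`.
(*) There is no `w ≠ 0` orthogonal to all tight normals (at `v`) of the three objects: otherwise for
small `|τ|` the point `v + τ • w` satisfies all inequalities of the three objects (the tight ones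
with equality, the other ones by continuity; finitely many), and has a tight normal for each of them,
so it lies on the three frontiers (`mem_frontier_poly`): infinitely many points, against `hG`.
(a) Suppose that some `a ∈ {i, j, k}` has two tight normals `ν, μ` with `NPar μ ν`. If every tight
normal `μ'` of the three objects is in the span of `ν, μ`, then a vector `w ≠ 0` orthogonal to
`ν, μ` contradicts (*). So there are `b ∈ {i, j, k}` and a tight normal `λ` of `b` not in the span: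
`ν, μ, λ` are linearly independent (`LinearIndependent` of `![ν, μ, λ]`) and `v` is `Improper`.
(b) Otherwise all tight normals of `i` are multiples of `ν₁`, etc. If `ν₁, ν₂, ν₃` are linearly
dependent there is `w ≠ 0` orthogonal to them, hence to all tight normals, against (*). So they are
linearly independent. `v ∉ interior (poly N (h l))` for all `l`, as `v ∈ frontier (⋃ l, K l)`. The
normal `μ₁ ∈ N` with `NPar μ₁ ν₁` and the smallest slack `h i μ₁ - inner ℝ μ₁ v` exists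
(`Finset.exists_min_image` on the filtered set, which is nonempty: it contains `ν₂`, not a multiple
of `ν₁`), and its slack is positive, because `v ∈ poly` and `μ₁` is not tight. The same for `j, k`.
-/

set_option autoImplicit false

namespace UF.CO

private theorem no_dir {n : ℕ} {N : Finset E3} (hN : ∀ ν ∈ N, ν ≠ 0) {h : Fin n → E3 → ℝ}
    (hG : GenPos fun i => poly N (h i)) {v : E3} {i j k : Fin n} (hij : i ≠ j) (hik : i ≠ k)
    (hjk : j ≠ k) (hi : v ∈ frontier (poly N (h i))) (hj : v ∈ frontier (poly N (h j)))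
    (hk : v ∈ frontier (poly N (h k))) {w : E3} (hw : w ≠ 0) :
    ∃ a, (a = i ∨ a = j ∨ a = k) ∧ ∃ ν ∈ N, inner ℝ ν v = h a ν ∧ inner ℝ ν w ≠ 0 := by
  by_contra hcon
  have hcon' : ∀ a, (a = i ∨ a = j ∨ a = k) → ∀ ν ∈ N, inner ℝ ν v = h a ν → inner ℝ ν w = 0 := by
    intro a ha ν hν h1
    by_contra h2
    exact hcon ⟨a, ha, ν, hν, h1, h2⟩
  have key : ∀ a, (a = i ∨ a = j ∨ a = k) → v ∈ frontier (poly N (h a)) →
      ∀ᶠ τ : ℝ in nhds 0, v + τ • w ∈ frontier (poly N (h a)) := by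
    intro a ha hva
    obtain ⟨hp, ν0, hν0, ht0⟩ := (mem_frontier_poly hN).1 hva
    have h1 : ∀ᶠ τ : ℝ in nhds 0, ∀ ν ∈ N, inner ℝ ν (v + τ • w) ≤ h a ν := by
      rw [Filter.eventually_all_finset]
      intro ν hν
      rcases lt_or_eq_of_le (hp ν hν) with hlt | heq
      · have hc : Continuous fun τ : ℝ => inner ℝ ν (v + τ • w) := by fun_prop
        have h2 : inner ℝ ν (v + (0 : ℝ) • w) < h a ν := by simpa using hlt
        exact (hc.continuousAt.eventually_lt continuousAt_const h2).mono fun τ hτ => hτ.le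
      · refine Filter.Eventually.of_forall fun τ => ?_
        rw [inner_add_right, inner_smul_right, hcon' a ha ν hν heq, mul_zero, add_zero]
        exact heq.le
    refine h1.mono fun τ hτ => (mem_frontier_poly hN).2 ⟨hτ, ν0, hν0, ?_⟩
    rw [inner_add_right, inner_smul_right, hcon' a ha ν0 hν0 ht0, mul_zero, add_zero]
    exact ht0
  have h3 := ((key i (Or.inl rfl) hi).and (key j (Or.inr (Or.inl rfl)) hj)).and
    (key k (Or.inr (Or.inr rfl)) hk)
  have hfin := hG.2 i j k hij hik hjk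
  have hinf : {τ : ℝ | v + τ • w ∈ frontier (poly N (h i)) ∩ frontier (poly N (h j)) ∩
      frontier (poly N (h k))}.Infinite := infinite_of_mem_nhds 0 h3
  apply hinf
  refine Set.Finite.preimage (f := fun τ : ℝ => v + τ • w) ?_ hfin
  intro x _ y _ hxy
  have h4 : (x - y) • w = 0 := by
    rw [sub_smul, sub_eq_zero]
    exact add_left_cancel hxy
  rcases smul_eq_zero.1 h4 with h5 | h5
  · linarith
  · exact absurd h5 hw

private theorem onF_exists {N : Finset E3} {h : E3 → ℝ} {ν v : E3} (hv : v ∈ poly N h)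
    (ht : inner ℝ ν v = h ν) (hpar : ∀ μ ∈ N, inner ℝ μ v = h μ → ¬ NPar μ ν)
    {μ0 : E3} (hμ0 : μ0 ∈ N) (hnp : NPar μ0 ν) : ∃ μ ∈ N, OnF N h ν μ v := by
  classical
  obtain ⟨μ, hμ, hmin⟩ := Finset.exists_min_image (N.filter fun μ => NPar μ ν)
    (fun μ => h μ - inner ℝ μ v) ⟨μ0, Finset.mem_filter.2 ⟨hμ0, hnp⟩⟩
  obtain ⟨hμN, hμp⟩ := Finset.mem_filter.1 hμ
  refine ⟨μ, hμN, hv, ht, hμp, ?_, fun μ' hμ' hp' => hmin μ' (Finset.mem_filter.2 ⟨hμ', hp'⟩)⟩
  have h1 := hv μ hμN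
  have h2 : inner ℝ μ v ≠ h μ := fun h3 => hpar μ hμN h3 hμp
  have h3 := lt_of_le_of_ne h1 h2
  linarith

theorem dichotomy {n : ℕ} (N : Finset E3) (hN : ∀ ν ∈ N, ν ≠ 0) (h : Fin n → E3 → ℝ)
    (hG : GenPos fun i => poly N (h i)) {v : E3} (hv : v ∈ vertices fun i => poly N (h i)) :
    Improper N h v ∨ ∃ ν₁ ∈ N, ∃ ν₂ ∈ N, ∃ ν₃ ∈ N, ∃ μ₁ ∈ N, ∃ μ₂ ∈ N, ∃ μ₃ ∈ N,
      LinearIndependent ℝ ![ν₁, ν₂, ν₃] ∧ ∃ t, PropAt N h ν₁ ν₂ ν₃ μ₁ μ₂ μ₃ t v := by
  classical
  obtain ⟨hfr, i, j, k, hij, hik, hjk, hi, hj, hk⟩ := hv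
  have hspan : Submodule.span ℝ {ν : E3 | ν ∈ N ∧ ∃ a, (a = i ∨ a = j ∨ a = k) ∧
      inner ℝ ν v = h a ν} = ⊤ := by
    rw [← Submodule.orthogonal_eq_bot_iff, Submodule.eq_bot_iff]
    intro w hw
    by_contra hw0
    obtain ⟨a, ha, ν, hν, h1, h2⟩ := no_dir hN hG hij hik hjk hi hj hk hw0
    exact h2 ((Submodule.mem_orthogonal _ w).1 hw ν (Submodule.subset_span ⟨hν, a, ha, h1⟩))
  have hfin3 : Module.finrank ℝ E3 = 3 := by
    simp [E3]
  by_cases hA : ∃ a, (a = i ∨ a = j ∨ a = k) ∧ ∃ ν ∈ N, ∃ μ ∈ N, inner ℝ ν v = h a ν ∧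
      inner ℝ μ v = h a μ ∧ NPar μ ν
  · left
    obtain ⟨a, ha, ν, hν, μ, hμ, ht1, ht2, hnp⟩ := hA
    have hLI2 : LinearIndependent ℝ ![ν, μ] := by
      rw [LinearIndependent.pair_iff' (hN ν hν)]
      intro t ht
      exact hnp t ht.symm
    have hex : ∃ l : E3, (l ∈ N ∧ ∃ b, (b = i ∨ b = j ∨ b = k) ∧ inner ℝ l v = h b l) ∧
        l ∉ Submodule.span ℝ (Set.range ![ν, μ]) := by
      by_contra hno
      push Not at hno
      have h1 : (⊤ : Submodule ℝ E3) ≤ Submodule.span ℝ (Set.range ![ν, μ]) := by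
        rw [← hspan, Submodule.span_le]
        intro l hl
        exact hno l hl
      have h2 : Submodule.span ℝ (Set.range ![ν, μ]) = ⊤ := top_le_iff.1 h1
      have h3 := finrank_range_le_card (R := ℝ) ![ν, μ]
      rw [Set.finrank, h2, finrank_top, hfin3, Fintype.card_fin] at h3
      omega
    obtain ⟨l, ⟨hlN, b, hb, hlt⟩, hl⟩ := hex
    have hLI3 : LinearIndependent ℝ (Fin.cons l ![ν, μ] : Fin 3 → E3) :=
      linearIndependent_finCons.2 ⟨hLI2, hl⟩
    have hLI4 := hLI3.comp ![1, 2, 0] (by decide)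
    refine ⟨a, b, ν, hν, μ, hμ, l, hlN, ?_, ht1, ht2, hlt⟩
    convert hLI4 using 1
    funext x
    fin_cases x <;> rfl
  · right
    have hpar : ∀ a, (a = i ∨ a = j ∨ a = k) → ∀ ν ∈ N, ∀ μ ∈ N, inner ℝ ν v = h a ν →
        inner ℝ μ v = h a μ → ∃ t : ℝ, μ = t • ν := by
      intro a ha ν hν μ hμ h1 h2
      by_contra h3
      exact hA ⟨a, ha, ν, hν, μ, hμ, h1, h2, fun t ht => h3 ⟨t, ht⟩⟩
    obtain ⟨hpi, ν₁, hν₁, ht1⟩ := (mem_frontier_poly hN).1 hi
    obtain ⟨hpj, ν₂, hν₂, ht2⟩ := (mem_frontier_poly hN).1 hj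
    obtain ⟨hpk, ν₃, hν₃, ht3⟩ := (mem_frontier_poly hN).1 hk
    have hLI : LinearIndependent ℝ ![ν₁, ν₂, ν₃] := by
      refine linearIndependent_of_top_le_span_of_card_eq_finrank ?_ ?_
      · rw [← hspan, Submodule.span_le]
        rintro l ⟨hl, a, ha, hlt⟩
        rcases ha with rfl | rfl | rfl
        · obtain ⟨t, rfl⟩ := hpar a (Or.inl rfl) ν₁ hν₁ l hl ht1 hlt
          exact Submodule.smul_mem _ _ (Submodule.subset_span ⟨0, rfl⟩)
        · obtain ⟨t, rfl⟩ := hpar a (Or.inr (Or.inl rfl)) ν₂ hν₂ l hl ht2 hlt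
          exact Submodule.smul_mem _ _ (Submodule.subset_span ⟨1, rfl⟩)
        · obtain ⟨t, rfl⟩ := hpar a (Or.inr (Or.inr rfl)) ν₃ hν₃ l hl ht3 hlt
          exact Submodule.smul_mem _ _ (Submodule.subset_span ⟨2, rfl⟩)
      · rw [hfin3, Fintype.card_fin]
    have hnp : ∀ x y : Fin 3, x ≠ y → NPar (![ν₁, ν₂, ν₃] y) (![ν₁, ν₂, ν₃] x) := by
      intro x y hxy t ht
      have h1 : LinearIndependent ℝ (![ν₁, ν₂, ν₃] ∘ ![x, y]) := by
        refine hLI.comp ![x, y] ?_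
        intro p q hpq
        fin_cases p <;> fin_cases q <;> simp_all
      have h2 : (![ν₁, ν₂, ν₃] ∘ ![x, y]) = ![![ν₁, ν₂, ν₃] x, ![ν₁, ν₂, ν₃] y] := by
        funext p
        fin_cases p <;> rfl
      rw [h2, LinearIndependent.pair_iff' (hLI.ne_zero x)] at h1
      exact h1 t ht.symm
    obtain ⟨μ₁, hμ₁, hO1⟩ := onF_exists hpi ht1 (fun μ hμ h1 h2 => by
      obtain ⟨t, ht⟩ := hpar i (Or.inl rfl) ν₁ hν₁ μ hμ ht1 h1
      exact h2 t ht) hν₂ (hnp 0 1 (by decide))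
    obtain ⟨μ₂, hμ₂, hO2⟩ := onF_exists hpj ht2 (fun μ hμ h1 h2 => by
      obtain ⟨t, ht⟩ := hpar j (Or.inr (Or.inl rfl)) ν₂ hν₂ μ hμ ht2 h1
      exact h2 t ht) hν₁ (hnp 1 0 (by decide))
    obtain ⟨μ₃, hμ₃, hO3⟩ := onF_exists hpk ht3 (fun μ hμ h1 h2 => by
      obtain ⟨t, ht⟩ := hpar k (Or.inr (Or.inr rfl)) ν₃ hν₃ μ hμ ht3 h1
      exact h2 t ht) hν₁ (hnp 2 0 (by decide))
    refine ⟨ν₁, hν₁, ν₂, hν₂, ν₃, hν₃, μ₁, hμ₁, μ₂, hμ₂, μ₃, hμ₃, hLI, (i, j, k), hij, hik, hjk,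
      ?_, hO1, hO2, hO3⟩
    intro l hl
    exact hfr.2 (interior_mono (Set.subset_iUnion (fun i => poly N (h i)) l) hl)

end UF.CO
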