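import Pool.Agent.Work.MP_4c5ddc_co.CO.Defs

/-!
# CO/Doub (S): a doubling sequence is short (pure)

PROOF. It suffices: if `G` is nonempty and `a ∈ G` has the smallest key, then
`2 ^ (G.card - 1) ≤ g a`. Induction on the cardinality: remove `a` (the other keys are larger by
`hinj`); if `G \ {a}` is empty use `h1`; otherwise let `b` have the smallest key in it,
`2 ^ (G.card - 2) ≤ g b`, `2 * g b ≤ g a`. Then `2 ^ (G.card - 1) ≤ n`, `Nat.le_log_of_pow_le`.
-/

set_option autoImplicit false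

namespace UF.CO

private theorem doub_aux {ι : Type*} (key : ι → ℝ) (g : ι → ℕ) : ∀ (m : ℕ) (G : Finset ι),
    G.card = m + 1 → (∀ a ∈ G, ∀ b ∈ G, key a = key b → a = b) → (∀ a ∈ G, 1 ≤ g a) →
    (∀ a ∈ G, ∀ b ∈ G, key a < key b → 2 * g b ≤ g a) →
    ∀ a ∈ G, (∀ b ∈ G, key a ≤ key b) → 2 ^ m ≤ g a := by
  classical
  intro m
  induction m with
  | zero =>
    intro G _ _ h1 _ a ha _
    simpa using h1 a ha
  | succ m ih =>
    intro G hG hinj h1 h3 a ha hmin
    have hc : (G.erase a).card = m + 1 := by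
      rw [Finset.card_erase_of_mem ha, hG]
      rfl
    have hne : (G.erase a).Nonempty := by
      rw [← Finset.card_pos, hc]
      exact Nat.succ_pos m
    obtain ⟨b, hb, hbmin⟩ := Finset.exists_min_image (G.erase a) key hne
    have hbG : b ∈ G := Finset.mem_of_mem_erase hb
    have hab : b ≠ a := Finset.ne_of_mem_erase hb
    have h4 := ih (G.erase a) hc
      (fun x hx y hy => hinj x (Finset.mem_of_mem_erase hx) y (Finset.mem_of_mem_erase hy))
      (fun x hx => h1 x (Finset.mem_of_mem_erase hx))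
      (fun x hx y hy => h3 x (Finset.mem_of_mem_erase hx) y (Finset.mem_of_mem_erase hy))
      b hb hbmin
    have hlt : key a < key b := by
      refine lt_of_le_of_ne (hmin b hbG) fun h => hab ?_
      exact (hinj a ha b hbG h).symm
    have h5 := h3 a ha b hbG hlt
    rw [pow_succ]
    omega

theorem card_le_of_doubling {ι : Type*} (G : Finset ι) (key : ι → ℝ) (g : ι → ℕ) (n : ℕ)
    (hinj : ∀ a ∈ G, ∀ b ∈ G, key a = key b → a = b) (h1 : ∀ a ∈ G, 1 ≤ g a)
    (h2 : ∀ a ∈ G, g a ≤ n) (h3 : ∀ a ∈ G, ∀ b ∈ G, key a < key b → 2 * g b ≤ g a) :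
    G.card ≤ 1 + Nat.log 2 n := by
  rcases G.eq_empty_or_nonempty with rfl | hne
  · simp
  obtain ⟨a, ha, hmin⟩ := Finset.exists_min_image G key hne
  have hpos := Finset.card_pos.2 hne
  obtain ⟨m, hm⟩ : ∃ m, G.card = m + 1 := ⟨G.card - 1, by omega⟩
  have h4 := doub_aux key g m G hm hinj h1 h3 a ha hmin
  have h5 : 2 ^ m ≤ n := h4.trans (h2 a ha)
  have h6 := Nat.le_log_of_pow_le (by norm_num) h5
  omega

end UF.CO
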