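import Pool.Agent.Work.MP_4c5ddc_co.CO.Poly

/-!
# CO/SemiP (S-M): fat polyhedra are objects

PROOF. `Semialg s (poly N h)` for `s = max N.card 1`: enumerate `N` by `Fin N.card`
(`N.equivFin`); for `i : Fin s` with `i < N.card` let `P i` be the polynomial
`∑ j, C (ν j) * X j - C (h ν)` (degree `≤ 1 ≤ s`), otherwise `P i = 0`; `S` is the set of sign
vectors without the value `1` at the indices `i < N.card`; `inner ℝ ν x = ∑ j, ν j * x j`
(`PiLp.inner_apply`, `EuclideanSpace.inner_eq_star_dotProduct`, ...). Compact: closed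
(`isClosed_poly`) and contained in the closed ball of `Fat`. Convex: `convex_poly`.
-/

set_option autoImplicit false

namespace UF.CO

/-- the polynomial of one half space -/
private noncomputable def hsp (h : E3 → ℝ) (ν : E3) : MvPolynomial (Fin 3) ℝ :=
  (∑ j : Fin 3, MvPolynomial.C (ν j) * MvPolynomial.X j) - MvPolynomial.C (h ν)

private theorem hsp_deg (h : E3 → ℝ) (ν : E3) : (hsp h ν).totalDegree ≤ 1 := by
  unfold hsp
  refine (MvPolynomial.totalDegree_sub _ _).trans (max_le ?_ ?_)
  · refine (MvPolynomial.totalDegree_finset_sum _ _).trans ?_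
    apply Finset.sup_le
    intro j _
    refine (MvPolynomial.totalDegree_mul _ _).trans ?_
    rw [MvPolynomial.totalDegree_C, MvPolynomial.totalDegree_X]
  · rw [MvPolynomial.totalDegree_C]
    exact Nat.zero_le _

private theorem hsp_eval (h : E3 → ℝ) (ν x : E3) :
    MvPolynomial.eval (fun j => x j) (hsp h ν) = inner ℝ ν x - h ν := by
  unfold hsp
  rw [map_sub, map_sum, MvPolynomial.eval_C, PiLp.inner_apply]
  congr 1
  apply Finset.sum_congr rfl
  intro j _
  rw [map_mul, MvPolynomial.eval_C, MvPolynomial.eval_X]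
  simp [mul_comm]

theorem obj_poly (N : Finset E3) (α : ℝ) : ∃ s : ℕ, ∀ h : E3 → ℝ, Fat α (poly N h) →
    Obj α s (poly N h) := by
  classical
  refine ⟨max N.card 1, fun h hF => ⟨?_, convex_poly N h, hF, ?_⟩⟩
  · obtain ⟨x, y, r, R, _, _, _, hsub⟩ := hF
    exact (isCompact_closedBall y R).of_isClosed_subset (isClosed_poly N h) hsub
  · refine ⟨fun i => if hi : (i : ℕ) < N.card then hsp h (N.equivFin.symm ⟨i, hi⟩ : E3) else 0,
      {σ | ∀ i : Fin (max N.card 1), (i : ℕ) < N.card → σ i ≠ 1}, ?_, ?_⟩
    · intro i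
      dsimp only
      split_ifs with hi
      · exact (hsp_deg h _).trans (le_max_right _ _)
      · rw [MvPolynomial.totalDegree_zero]
        exact Nat.zero_le _
    · intro x
      rw [Set.mem_setOf_eq]
      constructor
      · intro hx i hi
        beta_reduce
        rw [dif_pos hi, hsp_eval]
        intro h1
        rw [sign_eq_one_iff] at h1
        have h2 := hx _ (N.equivFin.symm ⟨i, hi⟩).2
        linarith
      · intro hx ν hν
        set k : Fin N.card := N.equivFin ⟨ν, hν⟩ with hk
        have hk2 : (k : ℕ) < max N.card 1 := lt_of_lt_of_le k.2 (le_max_left _ _)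
        have h1 := hx ⟨k, hk2⟩ k.2
        beta_reduce at h1
        rw [dif_pos k.2, hsp_eval] at h1
        have h3 : (N.equivFin.symm ⟨((⟨(k : ℕ), hk2⟩ : Fin (max N.card 1)) : ℕ), k.2⟩ : E3) = ν := by
          have h4 : (⟨((⟨(k : ℕ), hk2⟩ : Fin (max N.card 1)) : ℕ), k.2⟩ : Fin N.card) = k := rfl
          rw [h4, hk, Equiv.symm_apply_apply]
        rw [h3] at h1
        by_contra h5
        rw [not_le] at h5
        apply h1
        rw [sign_eq_one_iff]
        linarith

end UF.CO
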