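import Pool.Agent.Work.MP_4c5ddc_co.CO.Vert
import Pool.Agent.Work.MP_4c5ddc_co.CO.SemiP
import Pool.Agent.Work.MP_4c5ddc_co.Tot

/-!
# CO/Fin (S-M): the union of c-oriented fat polytopes (assembly)

PROOF. `obj_poly` and `total_bound` bound the numbers of edges and faces by
`A * (n ^ 2 + number of vertices)`, `vertices_bound` the number of vertices;
`1 + Nat.log 2 n ≤ 3 * (1 + Real.log n)` for `n ≥ 1` (`Nat.log 2 n ≤ Real.logb 2 n`,
`Real.log 2 > 1 / 2`); for `n = 0` there are no vertices and the right side is `0` (then the number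
of edges and faces is `≤ A * 0 = 0`).
-/

set_option autoImplicit false

namespace UF.CO

private theorem natlog_le (n : ℕ) (hn : 1 ≤ n) :
    (1 + (Nat.log 2 n : ℝ)) ≤ 3 * (1 + Real.log n) := by
  have h1 : (Nat.log 2 n : ℝ) ≤ Real.logb 2 n := Real.natLog_le_logb n 2
  have h2 : (1 : ℝ) / 2 < Real.log 2 := by
    have := Real.log_two_gt_d9
    linarith
  have h3 : 0 ≤ Real.log n := Real.log_nonneg (by exact_mod_cast hn)
  have h4 : Real.logb 2 n ≤ 2 * Real.log n := by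
    unfold Real.logb
    rw [div_le_iff₀ (by linarith)]
    nlinarith
  linarith

theorem final (α : ℝ) (N : Finset E3) (hN : ∀ ν ∈ N, ν ≠ 0) : ∃ C : ℝ, ∀ (n : ℕ)
    (h : Fin n → E3 → ℝ) (K : Fin n → Set E3), (∀ i, K i = {x | ∀ ν ∈ N, inner ℝ ν x ≤ h i ν}) →
    (∀ i, Fat α (K i)) → GenPos K → (∀ x, (idx K x).ncard ≤ 3) →
      (vertices K).Finite ∧ (comps (stratum K 2)).Finite ∧ (comps (stratum K 1)).Finite ∧
        (complexity K : ℝ) ≤ C * ((n : ℝ) ^ 2 * (1 + Real.log n)) := by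
  obtain ⟨s, hs⟩ := obj_poly N α
  obtain ⟨A, hA⟩ := total_bound α s
  obtain ⟨N', hN'⟩ := vertices_bound N hN α
  refine ⟨3 * ((1 + A) * N') + A, fun n h K hK hfat hG h3 => ?_⟩
  have hKe : K = fun i => poly N (h i) := funext hK
  subst hKe
  obtain ⟨hVf, hV⟩ := hN' n h hfat hG h3
  obtain ⟨h1, h2, h12⟩ := hA n _ (fun i => hs (h i) (hfat i)) hG h3
  refine ⟨hVf, h2, h1, ?_⟩
  have hcomp : complexity (fun i => poly N (h i)) ≤
      (1 + A) * (N' * (n ^ 2 * (1 + Nat.log 2 n))) + A * n ^ 2 := by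
    unfold complexity
    calc (vertices fun i => poly N (h i)).ncard + (comps (stratum (fun i => poly N (h i)) 2)).ncard +
          (comps (stratum (fun i => poly N (h i)) 1)).ncard
        ≤ (vertices fun i => poly N (h i)).ncard +
          A * (n ^ 2 + (vertices fun i => poly N (h i)).ncard) := by omega
      _ = (1 + A) * (vertices fun i => poly N (h i)).ncard + A * n ^ 2 := by ring
      _ ≤ _ := by
        have := Nat.mul_le_mul_left (1 + A) hV
        omega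
  have hcomp' : (complexity (fun i => poly N (h i)) : ℝ) ≤
      (1 + A) * (N' * ((n : ℝ) ^ 2 * (1 + (Nat.log 2 n : ℝ)))) + A * (n : ℝ) ^ 2 := by
    exact_mod_cast hcomp
  refine hcomp'.trans ?_
  rcases Nat.eq_zero_or_pos n with hn | hn
  · subst hn
    simp
  · have hl := natlog_le n hn
    have hlog : 0 ≤ Real.log n := Real.log_nonneg (by exact_mod_cast hn)
    have hA0 : (0 : ℝ) ≤ A := Nat.cast_nonneg A
    have hN0 : (0 : ℝ) ≤ N' := Nat.cast_nonneg N'
    have hn2 : (0 : ℝ) ≤ (n : ℝ) ^ 2 := by positivity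
    have e1 : (1 + (A : ℝ)) * (N' * ((n : ℝ) ^ 2 * (1 + (Nat.log 2 n : ℝ)))) ≤
        (1 + (A : ℝ)) * (N' * ((n : ℝ) ^ 2 * (3 * (1 + Real.log n)))) := by gcongr
    have e2 : (A : ℝ) * (n : ℝ) ^ 2 ≤ A * ((n : ℝ) ^ 2 * (1 + Real.log n)) := by
      have : (n : ℝ) ^ 2 ≤ (n : ℝ) ^ 2 * (1 + Real.log n) := by nlinarith
      gcongr
    calc _ ≤ (1 + (A : ℝ)) * (N' * ((n : ℝ) ^ 2 * (3 * (1 + Real.log n)))) +
          A * ((n : ℝ) ^ 2 * (1 + Real.log n)) := add_le_add e1 e2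
      _ = _ := by ring

end UF.CO
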