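import Pool.Agent.Work.MP_4c5ddc_co.CO.Poly

/-!
# CO/HB (M): half balls at the points of a facet of a fat polytope

PROOF. Let `M ≥ 1` be a bound of `‖μ‖` for `μ ∈ N`, `α' = max α 1`, `c = 1 / (α' * M)`. Let
`closedBall p r ⊆ K ⊆ closedBall q R`, `0 < r`, `R ≤ α * r`, `K = poly N h`, and `ν, x, s, y` as in
the statement; `s > 0` because `‖y - x‖ < c * s`.
(1) `s ≤ 2 * R * M`: there is a unit vector `u` orthogonal to `ν` (dimension 3). For every
`τ > 2 * R` the point `x + τ • u` is not in `K` (its distance to `q` is `≥ τ - ‖x - q‖ > R`), so some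
`μ ∈ N` has `inner ℝ μ (x + τ • u) > h μ`. `μ` is not a multiple `t • ν` (otherwise
`inner ℝ μ (x + τ • u) = inner ℝ μ x ≤ h μ`), so `s ≤ h μ - inner ℝ μ x < τ * inner ℝ μ u ≤ τ * M`.
Let `τ → 2 * R`. Hence `s ≤ 2 * α' * r * M`.
(2) By `mem_interior_poly` we show `inner ℝ μ y < h μ` for `μ ∈ N`. If `μ` is not a multiple of `ν`:
`inner ℝ μ y ≤ inner ℝ μ x + M * ‖y - x‖ < inner ℝ μ x + M * (c * s) ≤ inner ℝ μ x + s ≤ h μ`. If
`μ = t • ν`, `t > 0`: `inner ℝ μ y = t * inner ℝ ν y < t * h ν = inner ℝ μ x ≤ h μ`. `t = 0` is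
impossible (`μ ≠ 0`). If `t < 0`: the ball gives `inner ℝ ν p + r * ‖ν‖ ≤ h ν` and
`inner ℝ μ p + r * ‖μ‖ ≤ h μ` (the points `p + (r / ‖ν‖) • ν`, `p + (r / ‖μ‖) • μ`), so
`inner ℝ μ x = t * h ν ≤ inner ℝ μ p - r * ‖μ‖ ≤ h μ - 2 * r * ‖μ‖`, and
`‖y - x‖ < c * s ≤ 2 * r`, so `inner ℝ μ y ≤ inner ℝ μ x + ‖μ‖ * ‖y - x‖ < h μ`.
-/

set_option autoImplicit false

namespace UF.CO

private lemma hb_unit (ν : E3) : ∃ u : E3, ‖u‖ = 1 ∧ inner ℝ ν u = 0 := by
  have h1 : (Submodule.span ℝ {ν})ᗮ ≠ ⊥ := by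
    intro h
    have h2 := Submodule.finrank_add_finrank_orthogonal (Submodule.span ℝ {ν})
    rw [h] at h2
    have h3 : Module.finrank ℝ (Submodule.span ℝ {ν}) ≤ 1 := by
      have := finrank_span_le_card (R := ℝ) ({ν} : Set E3)
      simpa using this
    have h4 : Module.finrank ℝ E3 = 3 := by simp
    rw [h4] at h2
    simp only [finrank_bot] at h2
    omega
  obtain ⟨w, hw, hw0⟩ := Submodule.exists_mem_ne_zero_of_ne_bot h1
  have hwn : ‖w‖ ≠ 0 := norm_ne_zero_iff.2 hw0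
  refine ⟨(‖w‖)⁻¹ • w, ?_, ?_⟩
  · rw [norm_smul, norm_inv, norm_norm, inv_mul_cancel₀ hwn]
  · have h5 : inner ℝ ν w = 0 := by
      rw [Submodule.mem_orthogonal] at hw
      exact hw ν (Submodule.mem_span_singleton_self ν)
    rw [inner_smul_right, h5, mul_zero]

private lemma hb_ball {p : E3} {r : ℝ} (hr : 0 < r) {N : Finset E3} {h : E3 → ℝ}
    (hK : Metric.closedBall p r ⊆ poly N h) {ν : E3} (hν : ν ∈ N) (hν0 : ν ≠ 0) :
    inner ℝ ν p + r * ‖ν‖ ≤ h ν := by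
  have hn : ‖ν‖ ≠ 0 := norm_ne_zero_iff.2 hν0
  have h1 : p + (r / ‖ν‖) • ν ∈ Metric.closedBall p r := by
    rw [Metric.mem_closedBall, dist_eq_norm, add_sub_cancel_left, norm_smul, norm_div, norm_norm,
      Real.norm_eq_abs, abs_of_pos hr, div_mul_cancel₀ _ hn]
  have h2 := hK h1 ν hν
  have h3 : inner ℝ ν (p + (r / ‖ν‖) • ν) = inner ℝ ν p + r * ‖ν‖ := by
    rw [inner_add_right, inner_smul_right, real_inner_self_eq_norm_sq]
    field_simp
  linarith

theorem half_ball (N : Finset E3) (hN : ∀ ν ∈ N, ν ≠ 0) (α : ℝ) : ∃ c : ℝ, 0 < c ∧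
    ∀ h : E3 → ℝ, Fat α (poly N h) → ∀ ν ∈ N, ∀ x ∈ poly N h, inner ℝ ν x = h ν →
      ∀ s : ℝ, (∀ μ ∈ N, NPar μ ν → s ≤ h μ - inner ℝ μ x) → ∀ y : E3, ‖y - x‖ < c * s →
        inner ℝ ν y < h ν → y ∈ interior (poly N h) := by
  classical
  -- the bound of the norms
  obtain ⟨M, hM1, hM⟩ : ∃ M : ℝ, 1 ≤ M ∧ ∀ μ ∈ N, ‖μ‖ ≤ M := by
    refine ⟨1 + ∑ μ ∈ N, ‖μ‖, ?_, ?_⟩
    · have : 0 ≤ ∑ μ ∈ N, ‖μ‖ := Finset.sum_nonneg fun _ _ => norm_nonneg _
      linarith
    · intro μ hμ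
      have := Finset.single_le_sum (f := fun μ : E3 => ‖μ‖) (fun _ _ => norm_nonneg _) hμ
      linarith
  set α' : ℝ := max α 1 with hα'
  have hα1 : 1 ≤ α' := le_max_right _ _
  have hM0 : 0 < M := by linarith
  have hα0 : 0 < α' := by linarith
  refine ⟨1 / (α' * M), by positivity, ?_⟩
  rintro h ⟨p, q, r, R, hr, hRα, hB1, hB2⟩ ν hν x hx hxν s hs y hy hyν
  have hR : R ≤ α' * r := le_trans hRα (mul_le_mul_of_nonneg_right (le_max_left _ _) hr.le)
  have hs0 : 0 < s := by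
    by_contra hcon
    have : 1 / (α' * M) * s ≤ 0 := mul_nonpos_of_nonneg_of_nonpos (by positivity) (not_lt.1 hcon)
    linarith [norm_nonneg (y - x)]
  -- step 1
  have h1 : s ≤ 2 * R * M := by
    by_contra hcon
    rw [not_le] at hcon
    obtain ⟨u, hu1, hu2⟩ := hb_unit ν
    have hτ : 2 * R < s / M := by rwa [lt_div_iff₀ hM0]
    have hxq : ‖x - q‖ ≤ R := by
      have := hB2 hx
      rwa [Metric.mem_closedBall, dist_eq_norm] at this
    have hR0 : 0 ≤ R := le_trans (norm_nonneg _) hxq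
    have hτ0 : 0 < s / M := by positivity
    have hnot : x + (s / M) • u ∉ poly N h := by
      intro hin
      have h2 := hB2 hin
      rw [Metric.mem_closedBall, dist_eq_norm] at h2
      have h3 : ‖(s / M) • u‖ ≤ ‖x + (s / M) • u - q‖ + ‖x - q‖ := by
        have : (s / M) • u = (x + (s / M) • u - q) - (x - q) := by abel
        calc ‖(s / M) • u‖ = ‖(x + (s / M) • u - q) - (x - q)‖ := by rw [← this]
          _ ≤ _ := norm_sub_le _ _
      rw [norm_smul, hu1, mul_one, Real.norm_eq_abs, abs_of_pos hτ0] at h3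
      linarith
    simp only [poly, Set.mem_ofPred_eq, not_forall, not_le] at hnot
    obtain ⟨μ, hμ, hμx⟩ := hnot
    have hxμ : inner ℝ μ x ≤ h μ := hx μ hμ
    have hnp : NPar μ ν := by
      intro t ht
      have : inner ℝ μ (x + (s / M) • u) = inner ℝ μ x := by
        have h5 : inner ℝ μ u = 0 := by rw [ht, inner_smul_left, hu2, mul_zero]
        rw [inner_add_right, inner_smul_right, h5, mul_zero, add_zero]
      rw [this] at hμx
      linarith
    have h4 := hs μ hμ hnp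
    rw [inner_add_right, inner_smul_right] at hμx
    have h5 : inner ℝ μ u ≤ M := by
      calc inner ℝ μ u ≤ ‖μ‖ * ‖u‖ := real_inner_le_norm _ _
        _ ≤ M := by rw [hu1, mul_one]; exact hM μ hμ
    have h6 : s / M * inner ℝ μ u ≤ s := by
      calc s / M * inner ℝ μ u ≤ s / M * M := mul_le_mul_of_nonneg_left h5 hτ0.le
        _ = s := div_mul_cancel₀ _ hM0.ne'
    linarith
  have h1' : s ≤ 2 * r * (α' * M) := by
    have : 2 * R * M ≤ 2 * (α' * r) * M := by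
      apply mul_le_mul_of_nonneg_right _ hM0.le
      linarith
    calc s ≤ 2 * R * M := h1
      _ ≤ 2 * (α' * r) * M := this
      _ = _ := by ring
  have hcs : 1 / (α' * M) * s ≤ 2 * r := by
    rw [one_div, inv_mul_le_iff₀ (by positivity)]
    linarith
  have hcs2 : M * (1 / (α' * M) * s) ≤ s := by
    have : M * (1 / (α' * M) * s) = s / α' := by field_simp
    rw [this, div_le_iff₀ hα0]
    nlinarith
  rw [mem_interior_poly hN]
  intro μ hμ
  have hxμ : inner ℝ μ x ≤ h μ := hx μ hμ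
  have hsplit : inner ℝ μ y = inner ℝ μ x + inner ℝ μ (y - x) := by
    rw [inner_sub_right]; ring
  have hcs3 : inner ℝ μ (y - x) ≤ ‖μ‖ * ‖y - x‖ := real_inner_le_norm _ _
  have hμ0 : μ ≠ 0 := hN μ hμ
  have hμn : 0 < ‖μ‖ := norm_pos_iff.2 hμ0
  by_cases hnp : NPar μ ν
  · have h7 := hs μ hμ hnp
    have h8 : ‖μ‖ * ‖y - x‖ ≤ M * ‖y - x‖ := mul_le_mul_of_nonneg_right (hM μ hμ) (norm_nonneg _)
    have h9 : M * ‖y - x‖ < M * (1 / (α' * M) * s) := mul_lt_mul_of_pos_left hy hM0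
    linarith
  · simp only [NPar, not_forall, not_not] at hnp
    obtain ⟨t, ht⟩ := hnp
    have hiy : inner ℝ μ y = t * inner ℝ ν y := by
      rw [ht, inner_smul_left]; simp
    have hix : inner ℝ μ x = t * inner ℝ ν x := by
      rw [ht, inner_smul_left]; simp
    have hip : inner ℝ μ p = t * inner ℝ ν p := by
      rw [ht, inner_smul_left]; simp
    rcases lt_trichotomy t 0 with htn | ht0 | htp
    · have hb1 := hb_ball hr hB1 hν (hN ν hν)
      have hb2 := hb_ball hr hB1 hμ hμ0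
      have hnm : ‖μ‖ = -t * ‖ν‖ := by
        rw [ht, norm_smul, Real.norm_eq_abs, abs_of_neg htn]
      have h10 : inner ℝ μ x ≤ h μ - 2 * r * ‖μ‖ := by
        rw [hix, hxν]
        have : t * h ν ≤ t * (inner ℝ ν p + r * ‖ν‖) := mul_le_mul_of_nonpos_left hb1 htn.le
        have h11 : t * (inner ℝ ν p + r * ‖ν‖) = inner ℝ μ p - r * ‖μ‖ := by
          rw [hip, hnm]; ring
        linarith
      have h12 : ‖μ‖ * ‖y - x‖ < ‖μ‖ * (2 * r) := mul_lt_mul_of_pos_left (by linarith) hμn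
      linarith
    · exfalso
      apply hμ0
      rw [ht, ht0, zero_smul]
    · rw [hiy]
      have h13 : t * inner ℝ ν y < t * h ν := mul_lt_mul_of_pos_left hyν htp
      rw [hix, hxν] at hxμ
      linarith

end UF.CO
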