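import Pool.Agent.Work.MP_4c5ddc_co.CO.Coord

/-!
# CO/Imp (S): the number of improper points

PROOF. The set is contained in the image of the finite set
`{(a, b, ν₁, ν₂, ν₃)} = Fin n × Fin n × N × N × N` under a function which chooses (for linearly
independent normals) the unique point `v` (`coord_inj`) with the three equations if it exists. So it
is finite and has at most `n ^ 2 * N.card ^ 3` elements.
-/

set_option autoImplicit false

namespace UF.CO

theorem improper_bound {n : ℕ} (N : Finset E3) (h : Fin n → E3 → ℝ) :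
    {v | Improper N h v}.Finite ∧ {v | Improper N h v}.ncard ≤ N.card ^ 3 * n ^ 2 := by
  classical
  let R : Fin n × Fin n × E3 × E3 × E3 → E3 → Prop := fun t v =>
    LinearIndependent ℝ ![t.2.2.1, t.2.2.2.1, t.2.2.2.2] ∧ inner ℝ t.2.2.1 v = h t.1 t.2.2.1 ∧
      inner ℝ t.2.2.2.1 v = h t.1 t.2.2.2.1 ∧ inner ℝ t.2.2.2.2 v = h t.2.1 t.2.2.2.2
  let F : Fin n × Fin n × E3 × E3 × E3 → E3 := fun t =>
    if hv : ∃ v, R t v then hv.choose else 0
  let X : Finset (Fin n × Fin n × E3 × E3 × E3) :=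
    (Finset.univ : Finset (Fin n)) ×ˢ ((Finset.univ : Finset (Fin n)) ×ˢ (N ×ˢ (N ×ˢ N)))
  have hsub : {v | Improper N h v} ⊆ ((X.image F : Finset E3) : Set E3) := by
    rintro v ⟨a, b, ν₁, h1, ν₂, h2, ν₃, h3, hl, e1, e2, e3⟩
    rw [Finset.coe_image]
    refine ⟨(a, b, ν₁, ν₂, ν₃), ?_, ?_⟩
    · rw [Finset.mem_coe]
      simp only [X, Finset.mem_product, Finset.mem_univ, true_and]
      exact ⟨h1, h2, h3⟩
    · have hv : ∃ w, R (a, b, ν₁, ν₂, ν₃) w := ⟨v, hl, e1, e2, e3⟩
      have hF : F (a, b, ν₁, ν₂, ν₃) = hv.choose := dif_pos hv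
      rw [hF]
      obtain ⟨-, f1, f2, f3⟩ := hv.choose_spec
      exact coord_inj hl (f1.trans e1.symm) (f2.trans e2.symm) (f3.trans e3.symm)
  have hfin : ((X.image F : Finset E3) : Set E3).Finite := Finset.finite_toSet _
  refine ⟨hfin.subset hsub, ?_⟩
  calc {v | Improper N h v}.ncard ≤ ((X.image F : Finset E3) : Set E3).ncard :=
        Set.ncard_le_ncard hsub hfin
    _ = (X.image F).card := Set.ncard_coe_finset _
    _ ≤ X.card := Finset.card_image_le
    _ = N.card ^ 3 * n ^ 2 := by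
        simp only [X, Finset.card_product, Finset.card_univ, Fintype.card_fin]
        ring

end UF.CO
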