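import Pool.Agent.Work.MP_4c5ddc_co.CO.PL

/-!
# CO/Nice (M): the classes with a nice slice

PROOF. For fixed `j` let `T_j` be the set of the pairs `(i, k)` with `(i, j, k) ∈ T`;
`T.card = ∑ j, T_j.card` (or `T` is the disjoint union of the images of the `T_j`). Apply
`pl_bound` to `T_j` with `c' = c * min |q₁| |p₃|`, `A`, `C`, `z i = (g₁ i - p₁ * B j) / q₁`,
`x k = (g₃ k - q₃ * B j) / p₃`, `ε, ε'` the signs of `q₁, p₃` (so that `ε * q₁ = |q₁|`). Indeed
`g₁ i - p₁ * B j - q₁ * h = q₁ * (z i - h)` and `g₃ k - p₃ * a - q₃ * B j = p₃ * (x k - a)`;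
`pos₁`, `pos₃` give the sign conditions. Condition `Cov c' A (fun i h => |z i - h|) C T_j`: let
`(i, k), (i, k'), (i'', k'') ∈ T_j`, `h` between `C k` and `C k'`, `h = (1 - l) * C k + l * C k'`
(for `Set.uIcc` use `segment_eq_uIcc` or divide by the difference). `cov₁` for `t = (i, j, k)`,
`t' = (i, j, k')`, `y = B j`, `z = h`, `u = (i'', j, k'')`: the slack at this point is
`q₁ * (z i - h)`, which is positive as it is positive (by `pos₁`) for `h = C k` and `h = C k'` and
affine in `h`, so it is `|q₁| * |z i - h|`, and `c * slack ≥ c' * |z i - h|`; `|B j - B j| = 0`.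
Condition `Cov c' C (fun k y => |x k - y|) A (sw T_j)`: the same with `cov₃` (triples
`(k, i, j) ∈ rot (rot T)`). `Inj2`: from `inj`. The bound is `n * (N * (n * (1 + Nat.log 2 n)))`.
-/

set_option autoImplicit false

namespace UF.CO

private theorem key {c m q u : ℝ} (hc : 0 < c) (hm : m ≤ |q|) (hs : 0 < q * u) :
    c * m * |u| ≤ c * (q * u) := by
  have h1 : q * u = |q| * |u| := by rw [← abs_mul, abs_of_pos hs]
  rw [h1, mul_assoc]
  exact mul_le_mul_of_nonneg_left (mul_le_mul_of_nonneg_right hm (abs_nonneg _)) hc.le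

private theorem sgn {q : ℝ} (hq : q ≠ 0) : ∃ ε : ℝ, (ε = 1 ∨ ε = -1) ∧
    ∀ u : ℝ, 0 < q * u → 0 < ε * u := by
  rcases lt_or_gt_of_ne hq with h | h
  · exact ⟨-1, Or.inr rfl, fun u hu => by
      have : u < 0 := by
        by_contra h2
        exact absurd (mul_nonpos_of_nonpos_of_nonneg h.le (not_lt.1 h2)) (not_le.2 hu)
      linarith⟩
  · exact ⟨1, Or.inl rfl, fun u hu => by
      have : 0 < u := (mul_pos_iff_of_pos_left h).1 hu
      linarith⟩

theorem nice_bound {c p₁ q₁ p₂ q₂ p₃ q₃ : ℝ} (hc : 0 < c) (hq : q₁ ≠ 0) (hp : p₃ ≠ 0) :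
    ∃ N : ℕ, ∀ (n : ℕ) (A B C g₁ g₂ g₃ : Fin n → ℝ) (T : Finset (Fin n × Fin n × Fin n)),
    Sys c A B C g₁ g₂ g₃ p₁ q₁ p₂ q₂ p₃ q₃ T → T.card ≤ N * (n ^ 2 * (1 + Nat.log 2 n)) := by
  classical
  have hm : 0 < min |q₁| |p₃| := lt_min (abs_pos.2 hq) (abs_pos.2 hp)
  obtain ⟨N, hN⟩ := pl_bound (mul_pos hc hm)
  obtain ⟨ε, hε, hε1⟩ := sgn hq
  obtain ⟨ε', hε', hε1'⟩ := sgn hp
  refine ⟨N, fun n A B C g₁ g₂ g₃ T h => ?_⟩
  have hmem : ∀ (j : Fin n) (e : Fin n × Fin n),
      e ∈ (T.filter fun t => t.2.1 = j).image (fun t => (t.1, t.2.2)) ↔ (e.1, j, e.2) ∈ T := by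
    intro j e
    rw [Finset.mem_image]
    constructor
    · rintro ⟨t, ht, rfl⟩
      obtain ⟨h1, h2⟩ := Finset.mem_filter.1 ht
      subst h2
      exact h1
    · intro h1
      exact ⟨(e.1, j, e.2), Finset.mem_filter.2 ⟨h1, rfl⟩, rfl⟩
  have hsw : ∀ (j : Fin n) (e : Fin n × Fin n),
      e ∈ sw ((T.filter fun t => t.2.1 = j).image (fun t => (t.1, t.2.2))) ↔
        (e.2, j, e.1) ∈ T := by
    intro j e
    unfold sw
    rw [Finset.mem_image]
    constructor
    · rintro ⟨f, hf, rfl⟩
      exact (hmem j f).1 hf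
    · intro h1
      exact ⟨(e.2, e.1), (hmem j _).2 h1, rfl⟩
  have hrot : ∀ i j k : Fin n, (i, j, k) ∈ T → (k, i, j) ∈ rot (rot T) := by
    intro i j k h1
    unfold rot
    exact Finset.mem_image.2 ⟨(j, k, i), Finset.mem_image.2 ⟨(i, j, k), h1, rfl⟩, rfl⟩
  have hcard : ∀ j : Fin n,
      ((T.filter fun t => t.2.1 = j).image (fun t => (t.1, t.2.2))).card =
        (T.filter fun t => t.2.1 = j).card := by
    intro j
    refine Finset.card_image_of_injOn ?_
    intro t ht u hu htu
    have h1 := (Finset.mem_filter.1 ht).2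
    have h2 := (Finset.mem_filter.1 hu).2
    simp only [Prod.mk.injEq] at htu
    exact Prod.ext htu.1 (Prod.ext (h1.trans h2.symm) htu.2)
  have hj : ∀ j : Fin n, (T.filter fun t => t.2.1 = j).card ≤ N * (n * (1 + Nat.log 2 n)) := by
    intro j
    rw [← hcard j]
    set z : Fin n → ℝ := fun i => (g₁ i - p₁ * B j) / q₁ with hz
    set x : Fin n → ℝ := fun k => (g₃ k - q₃ * B j) / p₃ with hx
    have hzq : ∀ i y, q₁ * (z i - y) = g₁ i - p₁ * B j - q₁ * y := by
      intro i y
      rw [hz]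
      field_simp
    have hxp : ∀ k y, p₃ * (x k - y) = g₃ k - p₃ * y - q₃ * B j := by
      intro k y
      rw [hx]
      field_simp
      ring
    refine hN n A C z x ε ε' _ hε hε' ?_ ?_ ?_ ?_ ?_
    · intro e he f hf hef y hy g hg h1 h2 h3
      have he' := (hmem j e).1 he
      have hf' := (hmem j f).1 hf
      have hg' := (hmem j g).1 hg
      rw [← segment_eq_uIcc] at hy
      obtain ⟨a, b, ha, hb, hab, hy⟩ := hy
      simp only [smul_eq_mul] at hy
      have ha' : a = 1 - b := by linarith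
      have p1 := h.pos₁ _ he'
      have p2 := h.pos₁ _ hf'
      simp only at p1 p2
      rw [← hef] at p2
      rw [← hzq] at p1 p2
      have hpos : 0 < q₁ * (z e.1 - y) := by
        have : q₁ * (z e.1 - y) = a * (q₁ * (z e.1 - C e.2)) + b * (q₁ * (z e.1 - C f.2)) := by
          rw [← hy, ha']
          ring
        rw [this]
        rcases ha.eq_or_lt with h0 | h0
        · have hb1 : b = 1 := by linarith
          rw [← h0, hb1]
          linarith
        · have := mul_pos h0 p1
          have := mul_nonneg hb p2.le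
          linarith
      have hk := key hc (min_le_left |q₁| |p₃|) hpos
      rw [hzq] at hk hpos
      refine h.cov₁ _ he' _ hf' hef b ⟨hb, by linarith⟩ (B j) y ?_ ?_ _ hg' h1 ?_ ?_ ?_
      · simp only
        ring
      · rw [← hy, ha']
      · exact lt_of_lt_of_le h2 hk
      · simp only [sub_self, abs_zero]
        exact mul_pos hc hpos
      · exact lt_of_lt_of_le h3 hk
    · intro e he f hf hef y hy g hg h1 h2 h3
      have he' := (hsw j e).1 he
      have hf' := (hsw j f).1 hf
      have hg' := (hsw j g).1 hg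
      rw [← segment_eq_uIcc] at hy
      obtain ⟨a, b, ha, hb, hab, hy⟩ := hy
      simp only [smul_eq_mul] at hy
      have ha' : a = 1 - b := by linarith
      have p1 := h.pos₃ _ he'
      have p2 := h.pos₃ _ hf'
      simp only at p1 p2
      rw [← hef] at p2
      rw [← hxp] at p1 p2
      have hpos : 0 < p₃ * (x e.1 - y) := by
        have : p₃ * (x e.1 - y) = a * (p₃ * (x e.1 - A e.2)) + b * (p₃ * (x e.1 - A f.2)) := by
          rw [← hy, ha']
          ring
        rw [this]
        rcases ha.eq_or_lt with h0 | h0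
        · have hb1 : b = 1 := by linarith
          rw [← h0, hb1]
          linarith
        · have := mul_pos h0 p1
          have := mul_nonneg hb p2.le
          linarith
      have hk := key hc (min_le_right |q₁| |p₃|) hpos
      rw [hxp] at hk hpos
      refine h.cov₃ _ (hrot _ _ _ he') _ (hrot _ _ _ hf') hef b ⟨hb, by linarith⟩ y (B j) ?_ ?_ _
        (hrot _ _ _ hg') h1 ?_ ?_ ?_
      · rw [← hy, ha']
      · simp only
        ring
      · exact lt_of_lt_of_le h2 hk
      · exact lt_of_lt_of_le h3 hk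
      · simp only [sub_self, abs_zero]
        exact mul_pos hc hpos
    · intro e he f hf h1 h2
      have h3 := h.inj _ ((hmem j e).1 he) _ ((hmem j f).1 hf) h1 rfl h2
      simp only [Prod.mk.injEq] at h3
      exact Prod.ext h3.1 h3.2.2
    · intro e he
      have p1 := h.pos₁ _ ((hmem j e).1 he)
      simp only at p1
      rw [← hzq] at p1
      exact hε1 _ p1
    · intro e he
      have p1 := h.pos₃ _ ((hmem j e).1 he)
      simp only at p1
      rw [← hxp] at p1
      exact hε1' _ p1
  have hsum : T.card = ∑ j : Fin n, (T.filter fun t => t.2.1 = j).card :=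
    Finset.card_eq_sum_card_fiberwise (fun t _ => Finset.mem_coe.2 (Finset.mem_univ _))
  rw [hsum]
  calc ∑ j : Fin n, (T.filter fun t => t.2.1 = j).card
      ≤ ∑ _j : Fin n, N * (n * (1 + Nat.log 2 n)) := Finset.sum_le_sum fun j _ => hj j
    _ = N * (n ^ 2 * (1 + Nat.log 2 n)) := by
      rw [Finset.sum_const, Finset.card_univ, Fintype.card_fin, smul_eq_mul]
      ring

end UF.CO
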