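import Pool.Agent.Work.MP_4c5ddc_co.CO.PLpos
import Pool.Agent.Work.MP_4c5ddc_co.CO.Bal
import Pool.Agent.Work.MP_4c5ddc_co.CO.Neg

/-!
# CO/PL (S-M): the slice lemma (assembly)

PROOF. `Cov` and `Inj2` are inherited by subsets of `T` (and `sw` of a subset is a subset). First
case `|z e.1 - C e.2| ≤ |x e.2 - A e.1|` for all `e ∈ T`: if `ε = 1` use `pl_pos`. If `ε = -1`, with
`M = max 1 (1 / c)` the pairs with `M * (C e.2 - z e.1) < |x e.2 - A e.1|` are at most `n` by
`neg_bound`, the other ones at most `N * n` by `bal_bound` (`σ i h = |z i - h|`). General case: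
divide `T` into the pairs with `|z e.1 - C e.2| ≤ |x e.2 - A e.1|` and the other ones; for the other
ones apply the first case to `sw` with the roles of `(A, z)` and `(C, x)` exchanged
(`sw (sw T) = T`, `|x k - A i| = |A i - x k|` etc.). `n ≤ n * (1 + Nat.log 2 n)`.
-/

set_option autoImplicit false

namespace UF.CO

private theorem cov_mono {n : ℕ} {c : ℝ} {P : Fin n → ℝ} {σ : Fin n → ℝ → ℝ} {R : Fin n → ℝ}
    {T T' : Finset (Fin n × Fin n)} (h : Cov c P σ R T) (hT : T' ⊆ T) : Cov c P σ R T' :=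
  fun e he f hf hef x hx g hg => h e (hT he) f (hT hf) hef x hx g (hT hg)

private theorem inj2_mono {n : ℕ} {A C : Fin n → ℝ} {T T' : Finset (Fin n × Fin n)}
    (h : Inj2 A C T) (hT : T' ⊆ T) : Inj2 A C T' :=
  fun e he f hf => h e (hT he) f (hT hf)

private theorem sw_mono {n : ℕ} {T T' : Finset (Fin n × Fin n)} (hT : T' ⊆ T) : sw T' ⊆ sw T :=
  Finset.image_subset_image hT

private theorem mem_sw {n : ℕ} {T : Finset (Fin n × Fin n)} {e : Fin n × Fin n} :
    e ∈ sw T ↔ (e.2, e.1) ∈ T := by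
  unfold sw
  rw [Finset.mem_image]
  constructor
  · rintro ⟨f, hf, rfl⟩
    simpa using hf
  · intro h
    exact ⟨(e.2, e.1), h, rfl⟩

private theorem sw_sw {n : ℕ} (T : Finset (Fin n × Fin n)) : sw (sw T) = T := by
  ext e
  rw [mem_sw, mem_sw]

private theorem card_sw {n : ℕ} (T : Finset (Fin n × Fin n)) : (sw T).card = T.card :=
  Finset.card_image_of_injective T Prod.swap_injective

private theorem half_bound {c : ℝ} (hc : 0 < c) : ∃ N : ℕ, ∀ (n : ℕ) (A C z x : Fin n → ℝ) (ε : ℝ)
    (T : Finset (Fin n × Fin n)), (ε = 1 ∨ ε = -1) →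
    Cov c A (fun i h => |z i - h|) C T → Cov c C (fun k y => |x k - y|) A (sw T) → Inj2 A C T →
    (∀ e ∈ T, 0 < ε * (z e.1 - C e.2)) → (∀ e ∈ T, |z e.1 - C e.2| ≤ |x e.2 - A e.1|) →
    T.card ≤ N * (n * (1 + Nat.log 2 n)) := by
  classical
  obtain ⟨N1, hN1⟩ := pl_pos hc
  have hM1 : (1 : ℝ) ≤ max 1 (1 / c) := le_max_left _ _
  obtain ⟨N2, hN2⟩ := bal_bound hc hM1
  refine ⟨N1 + (1 + N2), fun n A C z x ε T hε hW hF hinj h1 h2 => ?_⟩
  set M : ℝ := max 1 (1 / c) with hM
  have hcM : 1 ≤ c * M := by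
    have h3 : 1 / c ≤ M := le_max_right _ _
    have h4 : c * (1 / c) ≤ c * M := mul_le_mul_of_nonneg_left h3 hc.le
    rwa [mul_one_div_cancel hc.ne'] at h4
  rcases hε with rfl | rfl
  · have h3 := hN1 n A C z x T hW hF hinj (fun e he => by have := h1 e he; linarith)
      (fun e he => (le_abs_self _).trans (h2 e he))
    exact h3.trans (Nat.mul_le_mul_right _ (Nat.le_add_right _ _))
  · have hlt : ∀ e ∈ T, z e.1 < C e.2 := fun e he => by
      have := h1 e he
      linarith
    have habs : ∀ e ∈ T, |z e.1 - C e.2| = C e.2 - z e.1 := fun e he => by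
      rw [abs_of_neg (sub_neg.2 (hlt e he))]
      ring
    have c1 : (T.filter fun e => M * (C e.2 - z e.1) < |x e.2 - A e.1|).card ≤ n :=
      neg_bound hc (by linarith) hcM A C z x _
        (cov_mono hF (sw_mono (Finset.filter_subset _ _)))
        (inj2_mono hinj (Finset.filter_subset _ _))
        (fun e he => hlt e (Finset.mem_filter.1 he).1) (fun e he => (Finset.mem_filter.1 he).2)
    have c2 : (T.filter fun e => ¬ M * (C e.2 - z e.1) < |x e.2 - A e.1|).card ≤ N2 * n := by
      refine hN2 n A C z x (fun i h => |z i - h|) _ (cov_mono hW (Finset.filter_subset _ _))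
        (cov_mono hF (sw_mono (Finset.filter_subset _ _)))
        (inj2_mono hinj (Finset.filter_subset _ _)) ?_ ?_ ?_
      · intro e he
        rw [habs e (Finset.mem_filter.1 he).1]
        have := hlt e (Finset.mem_filter.1 he).1
        linarith
      · intro e he
        refine (h2 e (Finset.mem_filter.1 he).1).trans ?_
        exact le_mul_of_one_le_left (abs_nonneg _) hM1
      · intro e he
        have h3 := not_lt.1 (Finset.mem_filter.1 he).2
        rw [← habs e (Finset.mem_filter.1 he).1] at h3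
        exact h3
    have c3 := Finset.card_filter_add_card_filter_not (s := T)
      (fun e => M * (C e.2 - z e.1) < |x e.2 - A e.1|)
    have c4 : n ≤ n * (1 + Nat.log 2 n) := Nat.le_mul_of_pos_right n (by omega)
    have c5 : T.card ≤ (1 + N2) * n := by
      rw [← c3]
      calc _ ≤ n + N2 * n := Nat.add_le_add c1 c2
        _ = (1 + N2) * n := by ring
    calc T.card ≤ (1 + N2) * n := c5
      _ ≤ (1 + N2) * (n * (1 + Nat.log 2 n)) := Nat.mul_le_mul_left _ c4
      _ ≤ (N1 + (1 + N2)) * (n * (1 + Nat.log 2 n)) :=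
        Nat.mul_le_mul_right _ (Nat.le_add_left _ _)

theorem pl_bound {c : ℝ} (hc : 0 < c) : ∃ N : ℕ, ∀ (n : ℕ) (A C z x : Fin n → ℝ) (ε ε' : ℝ)
    (T : Finset (Fin n × Fin n)), (ε = 1 ∨ ε = -1) → (ε' = 1 ∨ ε' = -1) →
    Cov c A (fun i h => |z i - h|) C T → Cov c C (fun k y => |x k - y|) A (sw T) → Inj2 A C T →
    (∀ e ∈ T, 0 < ε * (z e.1 - C e.2)) → (∀ e ∈ T, 0 < ε' * (x e.2 - A e.1)) →
    T.card ≤ N * (n * (1 + Nat.log 2 n)) := by
  classical
  obtain ⟨N, hN⟩ := half_bound hc
  refine ⟨N + N, fun n A C z x ε ε' T hε hε' hW hF hinj h1 h2 => ?_⟩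
  have c1 : (T.filter fun e => |z e.1 - C e.2| ≤ |x e.2 - A e.1|).card ≤
      N * (n * (1 + Nat.log 2 n)) :=
    hN n A C z x ε _ hε (cov_mono hW (Finset.filter_subset _ _))
      (cov_mono hF (sw_mono (Finset.filter_subset _ _)))
      (inj2_mono hinj (Finset.filter_subset _ _))
      (fun e he => h1 e (Finset.mem_filter.1 he).1) (fun e he => (Finset.mem_filter.1 he).2)
  have c2 : (T.filter fun e => ¬ |z e.1 - C e.2| ≤ |x e.2 - A e.1|).card ≤
      N * (n * (1 + Nat.log 2 n)) := by
    rw [← card_sw]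
    refine hN n C A x z ε' _ hε' (cov_mono hF (sw_mono (Finset.filter_subset _ _))) ?_ ?_ ?_ ?_
    · rw [sw_sw]
      exact cov_mono hW (Finset.filter_subset _ _)
    · intro e he f hf ha hb
      have he' := (Finset.mem_filter.1 (mem_sw.1 he)).1
      have hf' := (Finset.mem_filter.1 (mem_sw.1 hf)).1
      have h3 := hinj _ he' _ hf' hb ha
      have h4 := congrArg Prod.fst h3
      have h5 := congrArg Prod.snd h3
      exact Prod.ext h5 h4
    · intro e he
      exact h2 _ (Finset.mem_filter.1 (mem_sw.1 he)).1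
    · intro e he
      exact (not_le.1 (Finset.mem_filter.1 (mem_sw.1 he)).2).le
  have c3 := Finset.card_filter_add_card_filter_not (s := T)
    (fun e => |z e.1 - C e.2| ≤ |x e.2 - A e.1|)
  rw [← c3, add_mul]
  exact Nat.add_le_add c1 c2

end UF.CO
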