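import Pool.Agent.Work.MP_4c5ddc_co.CO.Doub

/-!
# CO/Rank (M-L): the rank argument (pure combinatorics)

`T` is a set of pairs (column, row); `C k` is the height of the row `k`, `A i` the position of the
column `i`; `cl` divides `T` into cells, all pairs of one cell are at the same height.

PROOF. For a real `h` let `rk h` be the number of `k` with `h < C k` (at most `n`, antitone; if
`h < C k` for a row `k` then `rk (C k) < rk h`, because `k` itself is counted for `h`). Call
`e ∈ T` the last one of its column if no `g ∈ T` with `g.1 = e.1` has `C g.2 < C e.2`. At most `n`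
pairs are last (`e ↦ e.1` is injective on them, by `hinj`). For `e` which is not last let
`N e ∈ T` be the pair of the same column with the largest height `< C e.2`, `B e ∈ T` the lowest
pair of the column (`Finset.exists_max_image`, `exists_min_image`),
`g e = rk (C (N e).2) - rk (C e.2) ≥ 1`, `S e = rk (C (B e).2) - rk (C e.2)`, `g e ≤ S e ≤ n`.
GOOD pairs: not last and `2 * g e ≤ S e`. Two good pairs `e, f` of the same cell with
`A e.1 < A f.1` satisfy `2 * g f ≤ g e`: by `hkey` (with `N e` and `B f`)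
`C (N e).2 < C (B f).2`, so `rk (C (N e).2) ≥ rk (C (B f).2) + 1`, and `C e.2 = C f.2`, hence
`g e ≥ S f + 1 ≥ 2 * g f`. By `card_le_of_doubling` (key `A e.1`, injective in a cell by `hlev` and
`hinj`) each cell has at most `1 + Nat.log 2 n` good pairs.
BAD pairs: not last and `S e < 2 * g e`. Two bad pairs `e, f` of the same column with
`C f.2 < C e.2`: `C f.2 ≤ C (N e).2`, so `rk (C f.2) ≥ rk (C (N e).2)` and
`S f ≤ S e - g e`, hence `2 * S f ≤ S e` (as `2 * (S e - g e) < S e`). By `card_le_of_doubling`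
(function `S`, key `- C e.2`, injective in a column by `hinj`) each column has at most
`1 + Nat.log 2 n` bad pairs. Add up (`Finset.card_eq_sum_card_fiberwise` or
`Finset.card_le_mul_card_image`).
-/

set_option autoImplicit false

namespace UF.CO

private noncomputable def rk {n : ℕ} (C : Fin n → ℝ) (h : ℝ) : ℕ :=
  (Finset.univ.filter (fun k : Fin n => h < C k)).card

private theorem rk_le {n : ℕ} (C : Fin n → ℝ) (h : ℝ) : rk C h ≤ n := by
  unfold rk
  calc _ ≤ (Finset.univ : Finset (Fin n)).card := Finset.card_filter_le _ _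
    _ = n := by simp

private theorem rk_anti {n : ℕ} (C : Fin n → ℝ) {h h' : ℝ} (hh : h ≤ h') : rk C h' ≤ rk C h := by
  unfold rk
  apply Finset.card_le_card
  intro k hk
  rw [Finset.mem_filter] at hk ⊢
  exact ⟨hk.1, lt_of_le_of_lt hh hk.2⟩

private theorem rk_lt {n : ℕ} (C : Fin n → ℝ) {h : ℝ} {k : Fin n} (hk : h < C k) :
    rk C (C k) < rk C h := by
  unfold rk
  apply Finset.card_lt_card
  rw [Finset.ssubset_iff_of_subset]
  · refine ⟨k, ?_, ?_⟩
    · rw [Finset.mem_filter]; exact ⟨Finset.mem_univ _, hk⟩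
    · rw [Finset.mem_filter]; exact fun h1 => lt_irrefl _ h1.2
  · intro j hj
    rw [Finset.mem_filter] at hj ⊢
    exact ⟨hj.1, hk.trans hj.2⟩

theorem rank_bound {n : ℕ} {γ : Type*} [DecidableEq γ] (A C : Fin n → ℝ)
    (T : Finset (Fin n × Fin n)) (cl : Fin n × Fin n → γ)
    (hlev : ∀ e ∈ T, ∀ f ∈ T, cl e = cl f → C e.2 = C f.2) (hinj : Inj2 A C T)
    (hkey : ∀ e ∈ T, ∀ f ∈ T, cl e = cl f → A e.1 < A f.1 → ∀ g ∈ T, g.1 = e.1 →
      C g.2 < C e.2 → ∀ g' ∈ T, g'.1 = f.1 → C g.2 < C g'.2) :
    T.card ≤ ((T.image cl).card + n) * (1 + Nat.log 2 n) + n := by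
  classical
  -- the pair below and the lowest pair
  have hex : ∀ e : Fin n × Fin n, e ∈ T ∧ (∃ g ∈ T, g.1 = e.1 ∧ C g.2 < C e.2) →
      ∃ N B : Fin n × Fin n, (N ∈ T ∧ N.1 = e.1 ∧ C N.2 < C e.2 ∧
        ∀ g ∈ T, g.1 = e.1 → C g.2 < C e.2 → C g.2 ≤ C N.2) ∧
        (B ∈ T ∧ B.1 = e.1 ∧ ∀ g ∈ T, g.1 = e.1 → C B.2 ≤ C g.2) := by
    rintro e ⟨he, g0, hg0, hg1, hg2⟩
    obtain ⟨N, hN, hNmax⟩ := (T.filter (fun g => g.1 = e.1 ∧ C g.2 < C e.2)).exists_max_image
      (fun g => C g.2) ⟨g0, Finset.mem_filter.2 ⟨hg0, hg1, hg2⟩⟩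
    obtain ⟨B, hB, hBmin⟩ := (T.filter (fun g => g.1 = e.1)).exists_min_image
      (fun g => C g.2) ⟨g0, Finset.mem_filter.2 ⟨hg0, hg1⟩⟩
    rw [Finset.mem_filter] at hN hB
    exact ⟨N, B, ⟨hN.1, hN.2.1, hN.2.2,
      fun g h1 h2 h3 => hNmax g (Finset.mem_filter.2 ⟨h1, h2, h3⟩)⟩,
      hB.1, hB.2, fun g h1 h2 => hBmin g (Finset.mem_filter.2 ⟨h1, h2⟩)⟩
  choose! N B hNB using hex
  set gg : Fin n × Fin n → ℕ := fun e => rk C (C (N e).2) - rk C (C e.2) with hgg
  set SS : Fin n × Fin n → ℕ := fun e => rk C (C (B e).2) - rk C (C e.2) with hSS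
  -- facts
  have facts : ∀ e : Fin n × Fin n, e ∈ T ∧ (∃ g ∈ T, g.1 = e.1 ∧ C g.2 < C e.2) →
      rk C (C e.2) < rk C (C (N e).2) ∧ rk C (C (N e).2) ≤ rk C (C (B e).2) ∧
      rk C (C (B e).2) ≤ n := by
    intro e he
    obtain ⟨⟨n1, n2, n3, n4⟩, b1, b2, b3⟩ := hNB e he
    exact ⟨rk_lt C n3, rk_anti C (b3 _ n1 n2), rk_le _ _⟩
  set last := T.filter (fun e => ¬ ∃ g ∈ T, g.1 = e.1 ∧ C g.2 < C e.2) with hlast
  set nl := T.filter (fun e => ∃ g ∈ T, g.1 = e.1 ∧ C g.2 < C e.2) with hnl
  set good := nl.filter (fun e => 2 * gg e ≤ SS e) with hgood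
  set bad := nl.filter (fun e => ¬ 2 * gg e ≤ SS e) with hbad
  have hsplit1 : nl.card + last.card = T.card := Finset.card_filter_add_card_filter_not _
  have hsplit2 : good.card + bad.card = nl.card := Finset.card_filter_add_card_filter_not _
  have hmem : ∀ e, e ∈ nl ↔ e ∈ T ∧ ∃ g ∈ T, g.1 = e.1 ∧ C g.2 < C e.2 := by
    intro e; rw [hnl, Finset.mem_filter]
  -- the last pairs
  have hl : last.card ≤ n := by
    have h1 : last.card ≤ (Finset.univ : Finset (Fin n)).card := by
      apply Finset.card_le_card_of_injOn Prod.fst (fun _ _ => Finset.mem_univ _)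
      intro e he f hf hef
      rw [Finset.mem_coe, hlast, Finset.mem_filter] at he hf
      have h2 : ¬ C f.2 < C e.2 := fun h3 => he.2 ⟨f, hf.1, hef.symm, h3⟩
      have h3 : ¬ C e.2 < C f.2 := fun h4 => hf.2 ⟨e, he.1, hef, h4⟩
      exact hinj e he.1 f hf.1 (by rw [hef]) (le_antisymm (not_lt.1 h2) (not_lt.1 h3))
    simpa using h1
  -- the good pairs
  have hg : good.card ≤ (1 + Nat.log 2 n) * (T.image cl).card := by
    have h1 : good.card ≤ (1 + Nat.log 2 n) * (good.image cl).card := by
      apply Finset.card_le_mul_card_image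
      intro c _
      apply card_le_of_doubling _ (fun e => A e.1) gg n
      · intro a ha b hb hab
        rw [Finset.mem_filter, hgood, Finset.mem_filter, hmem] at ha hb
        exact hinj a ha.1.1.1 b hb.1.1.1 hab
          (hlev a ha.1.1.1 b hb.1.1.1 (by rw [ha.2, hb.2]))
      · intro a ha
        rw [Finset.mem_filter, hgood, Finset.mem_filter, hmem] at ha
        have := facts a ha.1.1
        simp only [hgg]
        omega
      · intro a ha
        rw [Finset.mem_filter, hgood, Finset.mem_filter, hmem] at ha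
        have := facts a ha.1.1
        simp only [hgg]
        omega
      · intro a ha b hb hab
        rw [Finset.mem_filter, hgood, Finset.mem_filter, hmem] at ha hb
        have fa := facts a ha.1.1
        have fb := facts b hb.1.1
        have hcl : cl a = cl b := by rw [ha.2, hb.2]
        have hC := hlev a ha.1.1.1 b hb.1.1.1 hcl
        obtain ⟨⟨n1, n2, n3, n4⟩, _⟩ := hNB a ha.1.1
        obtain ⟨_, b1, b2, b3⟩ := hNB b hb.1.1
        have hk := rk_lt C (hkey a ha.1.1.1 b hb.1.1.1 hcl hab (N a) n1 n2 n3 (B b) b1 b2)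
        have hgb := hb.1.2
        simp only [hgg, hSS] at hgb ⊢
        rw [hC] at fa ⊢
        omega
    refine h1.trans (Nat.mul_le_mul_left _ (Finset.card_le_card (Finset.image_subset_image ?_)))
    exact (Finset.filter_subset _ _).trans (Finset.filter_subset _ _)
  -- the bad pairs
  have hb : bad.card ≤ (1 + Nat.log 2 n) * n := by
    have h1 : bad.card ≤ (1 + Nat.log 2 n) * (bad.image Prod.fst).card := by
      apply Finset.card_le_mul_card_image
      intro c _
      apply card_le_of_doubling _ (fun e => -C e.2) SS n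
      · intro a ha b hb hab
        rw [Finset.mem_filter, hbad, Finset.mem_filter, hmem] at ha hb
        exact hinj a ha.1.1.1 b hb.1.1.1 (by rw [ha.2, hb.2]) (neg_injective hab)
      · intro a ha
        rw [Finset.mem_filter, hbad, Finset.mem_filter, hmem] at ha
        have := facts a ha.1.1
        simp only [hSS]
        omega
      · intro a ha
        rw [Finset.mem_filter, hbad, Finset.mem_filter, hmem] at ha
        have := facts a ha.1.1
        simp only [hSS]
        omega
      · intro a ha b hb hab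
        rw [Finset.mem_filter, hbad, Finset.mem_filter, hmem] at ha hb
        have fa := facts a ha.1.1
        have fb := facts b hb.1.1
        have hab' : C b.2 < C a.2 := neg_lt_neg_iff.1 hab
        have hcol : b.1 = a.1 := by rw [ha.2, hb.2]
        obtain ⟨⟨n1, n2, n3, n4⟩, a1, a2, a3⟩ := hNB a ha.1.1
        obtain ⟨_, b1, b2, b3⟩ := hNB b hb.1.1
        have k1 := rk_anti C (n4 b hb.1.1.1 hcol hab')
        have k2 := rk_anti C (a3 _ b1 (b2.trans hcol))
        have hga := ha.1.2
        simp only [hgg, hSS] at hga ⊢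
        omega
    have h2 : (bad.image Prod.fst).card ≤ n := by
      have := Finset.card_le_univ (bad.image Prod.fst)
      simpa using this
    exact h1.trans (Nat.mul_le_mul_left _ h2)
  calc T.card = good.card + bad.card + last.card := by omega
    _ ≤ (1 + Nat.log 2 n) * (T.image cl).card + (1 + Nat.log 2 n) * n + n := by omega
    _ = ((T.image cl).card + n) * (1 + Nat.log 2 n) + n := by ring

end UF.CO
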