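import Pool.Agent.Work.MP_4c5ddc_co.CO.Cells
import Pool.Agent.Work.MP_4c5ddc_co.CO.Rank

/-!
# CO/PLpos (M): pairs with the tip of the wall above

PROOF. Let `c₁ = min c 1`, `η = c₁ ^ 2` (so `η ≤ c` and `η ≤ c ^ 2`), `N₀` from
`active_cells η 2`. `P`, `v, p, q, ρ = z e.1 - C e.2 > 0`, `s = |x e.2 - A e.1| ≥ ρ`,
`d = dist p q = max s ρ = s`, `m e = Int.log 2 d` and `cl e = (m e, cell η (m e) v)` as in
`CO/Bal`; all `cl e` are active, so `(T.image cl).card ≤ N₀ * (2 * n)`. Check the hypotheses of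
`rank_bound`. FACT 1: `e, g ∈ T`, `|A g.1 - A e.1| < c * s e`, `C g.2 < C e.2` imply
`C e.2 - C g.2 ≥ c * s e` (`hF` for `(e.2, e.1)`, `h = A e.1`). `hlev`: if `cl e = cl f` and
`C f.2 < C e.2` then both differences of the coordinates are `< η * 2 ^ m ≤ c * s e`, which
contradicts FACT 1. `hkey`: let `cl e = cl f` (so `C e.2 = C f.2`), `A e.1 < A f.1`, `g.1 = e.1`,
`C g.2 < C e.2`, `g'.1 = f.1` and suppose `C g'.2 ≤ C g.2`. Then `h = C g.2` lies between
`C g'.2` and `C f.2`, and by FACT 1 `C e.2 - C g.2 ≥ c * s e ≥ c * 2 ^ m`, so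
`c * |z f.1 - h| ≥ c * (C f.2 - h) ≥ c ^ 2 * 2 ^ m ≥ η * 2 ^ m > A f.1 - A e.1`
(`z f.1 > C f.2`), and `|C g.2 - h| = 0`: contradiction with `hW` (`e := g'`, `f := f`, `g := g`,
`A g.1 = A e.1 < A f.1 = A g'.1`). `rank_bound` gives
`T.card ≤ (N₀ * (2 * n) + n) * (1 + Nat.log 2 n) + n ≤ (2 * N₀ + 2) * (n * (1 + Nat.log 2 n))`.
-/

set_option autoImplicit false

namespace UF.CO

private theorem pl_floor {a b t : ℝ} (ht : 0 < t) (h : ⌊a / t⌋ = ⌊b / t⌋) : |a - b| < t := by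
  have h1 := Int.abs_sub_lt_one_of_floor_eq_floor h
  rw [← sub_div, abs_div, abs_of_pos ht, div_lt_one ht] at h1
  exact h1

theorem pl_pos {c : ℝ} (hc : 0 < c) : ∃ N : ℕ, ∀ (n : ℕ) (A C z x : Fin n → ℝ)
    (T : Finset (Fin n × Fin n)),
    Cov c A (fun i h => |z i - h|) C T → Cov c C (fun k y => |x k - y|) A (sw T) → Inj2 A C T →
    (∀ e ∈ T, C e.2 < z e.1) → (∀ e ∈ T, z e.1 - C e.2 ≤ |x e.2 - A e.1|) →
    T.card ≤ N * (n * (1 + Nat.log 2 n)) := by
  classical
  set c₁ := min c 1 with hc₁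
  have hc1 : 0 < c₁ := lt_min hc one_pos
  set η := c₁ ^ 2 with hηd
  have hη : 0 < η := by positivity
  have hηc : η ≤ c := by
    calc η = c₁ * c₁ := by rw [hηd, pow_two]
      _ ≤ c * 1 := mul_le_mul (min_le_left _ _) (min_le_right _ _) hc1.le hc.le
      _ = c := mul_one c
  have hηc2 : η ≤ c ^ 2 := pow_le_pow_left₀ hc1.le (min_le_left _ _) 2
  obtain ⟨N₀, hN₀⟩ := active_cells η 2 hη (by norm_num)
  refine ⟨2 * N₀ + 2, fun n A C z x T hW hF hinj hpos hle => ?_⟩
  let s : Fin n × Fin n → ℝ := fun e => |x e.2 - A e.1|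
  let mm : Fin n × Fin n → ℤ := fun e => Int.log 2 (s e)
  let cl : Fin n × Fin n → ℤ × (ℤ × ℤ) := fun e => (mm e, cell η (mm e) (A e.1, C e.2))
  have hs0 : ∀ e ∈ T, 0 < s e := by
    intro e he
    have h1 := hpos e he
    have h2 := hle e he
    change 0 < |x e.2 - A e.1|
    linarith
  have hlog1 : ∀ e ∈ T, (2 : ℝ) ^ (mm e) ≤ s e := by
    intro e he
    have h1 := Int.zpow_log_le_self (b := 2) (r := s e) (by norm_num) (hs0 e he)
    rw [Nat.cast_ofNat] at h1
    exact h1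
  have hlog2 : ∀ e, s e < (2 : ℝ) ^ (mm e + 1) := by
    intro e
    have h1 := Int.lt_zpow_succ_log_self (b := 2) (by norm_num) (s e)
    rw [Nat.cast_ofNat] at h1
    exact h1
  have hclose : ∀ e f, cl e = cl f → mm e = mm f ∧ |A e.1 - A f.1| < η * 2 ^ (mm e) ∧
      |C e.2 - C f.2| < η * 2 ^ (mm e) := by
    intro e f h
    have h1 : mm e = mm f := congrArg Prod.fst h
    have h2 : cell η (mm e) (A e.1, C e.2) = cell η (mm f) (A f.1, C f.2) := congrArg Prod.snd h
    rw [← h1] at h2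
    have ht : 0 < η * (2 : ℝ) ^ (mm e) := by positivity
    have h3 := congrArg Prod.fst h2
    have h4 := congrArg Prod.snd h2
    exact ⟨h1, pl_floor ht h3, pl_floor ht h4⟩
  -- the half disk on the floor
  have fact : ∀ e ∈ T, ∀ g ∈ T, |A g.1 - A e.1| < c * s e → C g.2 < C e.2 →
      c * s e ≤ C e.2 - C g.2 := by
    intro e he g hg h1 h2
    by_contra h3
    push Not at h3
    have he' : (e.2, e.1) ∈ sw T := Finset.mem_image.2 ⟨e, he, rfl⟩
    have hg' : (g.2, g.1) ∈ sw T := Finset.mem_image.2 ⟨g, hg, rfl⟩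
    exact hF (e.2, e.1) he' (e.2, e.1) he' rfl (A e.1) Set.left_mem_uIcc (g.2, g.1) hg' h2 h3 h1
  have hcs : ∀ e ∈ T, η * 2 ^ (mm e) ≤ c * s e := by
    intro e he
    exact mul_le_mul hηc (hlog1 e he) (by positivity) hc.le
  have hnlt : ∀ e ∈ T, ∀ f ∈ T, cl e = cl f → ¬ C f.2 < C e.2 := by
    intro e he f hf h hlt
    obtain ⟨h1, h2, h3⟩ := hclose e f h
    have h4 := hcs e he
    have h5 := fact e he f hf (by rw [abs_sub_comm]; linarith) hlt
    have h6 := le_abs_self (C e.2 - C f.2)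
    linarith
  have hlev : ∀ e ∈ T, ∀ f ∈ T, cl e = cl f → C e.2 = C f.2 := by
    intro e he f hf h
    have h1 := hnlt e he f hf h
    have h2 := hnlt f hf e he h.symm
    linarith
  have hkey : ∀ e ∈ T, ∀ f ∈ T, cl e = cl f → A e.1 < A f.1 → ∀ g ∈ T, g.1 = e.1 →
      C g.2 < C e.2 → ∀ g' ∈ T, g'.1 = f.1 → C g.2 < C g'.2 := by
    intro e he f hf h hA g hg hge hgC g' hg' hgf
    by_contra hcon
    push Not at hcon
    have hlv := hlev e he f hf h
    obtain ⟨h1, h2, h3⟩ := hclose e f h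
    have hc0 : 0 < c * s e := mul_pos hc (hs0 e he)
    have h4 := fact e he g hg (by rw [hge, sub_self, abs_zero]; exact hc0) hgC
    have h5 : c * 2 ^ (mm e) ≤ c * s e := mul_le_mul_of_nonneg_left (hlog1 e he) hc.le
    have h6 := hpos f hf
    have h7 : c * 2 ^ (mm e) < z f.1 - C g.2 := by linarith
    have h8 : 0 < z f.1 - C g.2 := lt_trans (by positivity) h7
    have h9 : |z g'.1 - C g.2| = z f.1 - C g.2 := by rw [hgf, abs_of_pos h8]
    have h10 : η * 2 ^ (mm e) ≤ c ^ 2 * 2 ^ (mm e) := mul_le_mul_of_nonneg_right hηc2 (by positivity)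
    have h11 : c ^ 2 * 2 ^ (mm e) < c * (z f.1 - C g.2) := by
      have := mul_lt_mul_of_pos_left h7 hc
      calc c ^ 2 * 2 ^ (mm e) = c * (c * 2 ^ (mm e)) := by ring
        _ < _ := this
    have h12 := neg_abs_le (A e.1 - A f.1)
    refine hW g' hg' f hf hgf (C g.2) ?_ g hg ?_ ?_ ?_
    · rw [Set.mem_uIcc]
      left
      exact ⟨hcon, by linarith⟩
    · rw [hge, hgf]; exact hA
    · change A g'.1 - A g.1 < c * |z g'.1 - C g.2|
      rw [h9, hge, hgf]
      linarith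
    · change |C g.2 - C g.2| < c * |z g'.1 - C g.2|
      rw [h9, sub_self, abs_zero]
      exact mul_pos hc h8
  have hrank := rank_bound A C T cl hlev hinj hkey
  let P : Finset (ℝ × ℝ) := (Finset.univ.image (fun i : Fin n => (A i, z i))) ∪
    (Finset.univ.image (fun k : Fin n => (x k, C k)))
  have hP : P.card ≤ 2 * n := by
    have h1 := Finset.card_union_le (Finset.univ.image (fun i : Fin n => (A i, z i)))
      (Finset.univ.image (fun k : Fin n => (x k, C k)))
    have h2 := Finset.card_image_le (s := Finset.univ) (f := fun i : Fin n => (A i, z i))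
    have h3 := Finset.card_image_le (s := Finset.univ) (f := fun k : Fin n => (x k, C k))
    rw [Finset.card_univ, Fintype.card_fin] at h2 h3
    change (_ ∪ _ : Finset (ℝ × ℝ)).card ≤ 2 * n
    omega
  have hact : ∀ t ∈ T.image cl, Active η 2 P t := by
    intro t ht
    obtain ⟨e, he, rfl⟩ := Finset.mem_image.1 ht
    have hr := hpos e he
    have hl := hle e he
    have hdist : dist ((A e.1, z e.1) : ℝ × ℝ) (x e.2, C e.2) = s e := by
      rw [Prod.dist_eq, Real.dist_eq, Real.dist_eq]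
      change max |A e.1 - x e.2| |z e.1 - C e.2| = |x e.2 - A e.1|
      rw [abs_sub_comm (A e.1), abs_of_pos (by linarith : 0 < z e.1 - C e.2), max_eq_left hl]
    have h2s : (2 : ℝ) ^ (mm e + 1) = 2 * 2 ^ (mm e) := by
      rw [zpow_add₀ two_ne_zero, zpow_one, mul_comm]
    have hlt := hlog2 e
    rw [h2s] at hlt
    refine ⟨(A e.1, C e.2), (A e.1, z e.1), (x e.2, C e.2), ?_, ?_, rfl, ?_, ?_, ?_, ?_⟩
    · exact Finset.mem_union_left _ (Finset.mem_image.2 ⟨e.1, Finset.mem_univ _, rfl⟩)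
    · exact Finset.mem_union_right _ (Finset.mem_image.2 ⟨e.2, Finset.mem_univ _, rfl⟩)
    · rw [hdist]; exact hlog1 e he
    · rw [hdist]; exact hlog2 e
    · rw [Prod.dist_eq, Real.dist_eq, Real.dist_eq]
      change max |A e.1 - A e.1| |z e.1 - C e.2| ≤ 2 * 2 ^ (mm e)
      rw [sub_self, abs_zero, abs_of_pos (by linarith : 0 < z e.1 - C e.2)]
      apply max_le (by positivity)
      exact hl.trans hlt.le
    · rw [Prod.dist_eq, Real.dist_eq, Real.dist_eq]
      change max |x e.2 - A e.1| |C e.2 - C e.2| ≤ 2 * 2 ^ (mm e)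
      rw [sub_self, abs_zero]
      exact max_le hlt.le (by positivity)
  have hcells := hN₀ P (T.image cl) hact
  have h1 : (T.image cl).card ≤ N₀ * (2 * n) := hcells.trans (Nat.mul_le_mul_left _ hP)
  have h2 : ((T.image cl).card + n) * (1 + Nat.log 2 n) ≤
      (N₀ * (2 * n) + n) * (1 + Nat.log 2 n) := Nat.mul_le_mul_right _ (by omega)
  have h3 : n ≤ n * (1 + Nat.log 2 n) := Nat.le_mul_of_pos_right n (by omega)
  calc T.card ≤ ((T.image cl).card + n) * (1 + Nat.log 2 n) + n := hrank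
    _ ≤ (N₀ * (2 * n) + n) * (1 + Nat.log 2 n) + n * (1 + Nat.log 2 n) := Nat.add_le_add h2 h3
    _ = (2 * N₀ + 2) * (n * (1 + Nat.log 2 n)) := by ring

end UF.CO
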