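import Pool.Agent.Work.MP_4c5ddc_co.CO.Defs

/-!
# CO/Poly (S-M): interior and frontier of a polyhedron

PROOF. `poly N h` is a finite intersection of closed half spaces: closed (`isClosed_le`) and convex.
`mem_interior_poly`: if all inequalities are strict then `x` lies in the open set
`{y | ∀ ν ∈ N, inner ℝ ν y < h ν}` contained in `poly N h` (finite intersection of open sets).
Conversely let `x ∈ interior`, `ν ∈ N`, `inner ℝ ν x = h ν`: for small `t > 0` the point
`x + t • ν` lies in `poly N h`, but `inner ℝ ν (x + t • ν) = h ν + t ‖ν‖ ^ 2 > h ν`.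
`mem_frontier_poly`: `frontier S = S \ interior S` for closed `S`.
-/

set_option autoImplicit false

namespace UF.CO

theorem isClosed_poly (N : Finset E3) (h : E3 → ℝ) : IsClosed (poly N h) := by
  have he : poly N h = ⋂ ν ∈ N, {x : E3 | inner ℝ ν x ≤ h ν} := by
    ext x
    simp [poly]
  rw [he]
  exact isClosed_biInter fun ν _ => isClosed_le (by fun_prop) continuous_const

theorem convex_poly (N : Finset E3) (h : E3 → ℝ) : Convex ℝ (poly N h) := by
  intro x hx y hy a b ha hb hab
  intro ν hν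
  rw [inner_add_right, inner_smul_right, inner_smul_right]
  have h1 := mul_le_mul_of_nonneg_left (hx ν hν) ha
  have h2 := mul_le_mul_of_nonneg_left (hy ν hν) hb
  calc a * inner ℝ ν x + b * inner ℝ ν y ≤ a * h ν + b * h ν := add_le_add h1 h2
    _ = h ν := by rw [← add_mul, hab, one_mul]

theorem mem_interior_poly {N : Finset E3} (hN : ∀ ν ∈ N, ν ≠ 0) {h : E3 → ℝ} {x : E3} :
    x ∈ interior (poly N h) ↔ ∀ ν ∈ N, inner ℝ ν x < h ν := by
  constructor
  · intro hx ν hν
    have hx' : x ∈ poly N h := interior_subset hx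
    refine lt_of_le_of_ne (hx' ν hν) ?_
    intro heq
    have hcont : Filter.Tendsto (fun t : ℝ => x + t • ν) (nhds 0) (nhds (x + (0 : ℝ) • ν)) :=
      Continuous.tendsto (by fun_prop) 0
    rw [zero_smul, add_zero] at hcont
    have hev : ∀ᶠ t : ℝ in nhds 0, x + t • ν ∈ poly N h :=
      hcont.eventually (mem_interior_iff_mem_nhds.1 hx)
    obtain ⟨δ, hδ, hball⟩ := Metric.eventually_nhds_iff.1 hev
    have h1 : x + (δ / 2) • ν ∈ poly N h := by
      apply hball
      rw [Real.dist_eq, sub_zero, abs_of_pos (by positivity)]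
      linarith
    have h2 := h1 ν hν
    rw [inner_add_right, inner_smul_right, heq, real_inner_self_eq_norm_sq] at h2
    have h3 : 0 < ‖ν‖ := norm_pos_iff.2 (hN ν hν)
    have h4 : 0 < δ / 2 * ‖ν‖ ^ 2 := by positivity
    linarith
  · intro hx
    rw [mem_interior]
    refine ⟨⋂ ν ∈ N, {y : E3 | inner ℝ ν y < h ν}, ?_, ?_, ?_⟩
    · intro y hy ν hν
      have := Set.mem_iInter₂.1 hy ν hν
      exact le_of_lt this
    · exact isOpen_biInter_finset fun ν _ => isOpen_lt (by fun_prop) continuous_const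
    · exact Set.mem_iInter₂.2 fun ν hν => hx ν hν

theorem mem_frontier_poly {N : Finset E3} (hN : ∀ ν ∈ N, ν ≠ 0) {h : E3 → ℝ} {x : E3} :
    x ∈ frontier (poly N h) ↔ x ∈ poly N h ∧ ∃ ν ∈ N, inner ℝ ν x = h ν := by
  rw [(isClosed_poly N h).frontier_eq, Set.mem_diff, mem_interior_poly hN]
  refine and_congr_right fun hx => ?_
  constructor
  · intro h1
    push Not at h1
    obtain ⟨ν, hν, h2⟩ := h1
    exact ⟨ν, hν, le_antisymm (hx ν hν) h2⟩
  · rintro ⟨ν, hν, h1⟩ h2
    exact absurd h1 (h2 ν hν).ne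

end UF.CO
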