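import Pool.Agent.Work.MP_4c5ddc_co.CO.Defs

/-!
# CO/Radii (S-M): farthest first insertion radii (pure)

PROOF. Claim for every `S ⊆ P`: there is `r : X → ℝ` with (a) `r p ≤ dist p q` for
`p ∈ P`, `p ∉ S`, `q ∈ S`; (b) `min (r p) (r q) ≤ dist p q` for different `p, q ∈ P` not in `S`;
(c) for all `δ > 0`, `p ∈ P` there is `q ∈ P` with (`q ∈ S` or `δ ≤ r q`) and `dist p q < δ`.
Induction on the cardinality of `P \ S`, for nonempty `S`. If `P = S`: any `r`, `q = p` in (c).
Otherwise let `p₁ ∈ P \ S` have the largest distance `d(p, S) = min over q ∈ S of dist p q`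
(`Finset.exists_max_image`, `Finset.inf'`), apply the claim to `insert p₁ S` (this gives `r'`), and
let `r = r'` except `r p₁ = d(p₁, S)`. (a): for `p ≠ p₁` from (a) for `r'`, for `p₁` by definition.
(b): for `p = p₁`, `q ≠ p₁`: `min (r p₁) (r q) ≤ r' q ≤ dist q p₁` by (a) for `r'` (as `p₁` lies in
`insert p₁ S`); otherwise (b) for `r'`. (c): take `q` from (c) for `r'`. If `q ∈ S` or (`q ≠ p₁` and
`δ ≤ r' q`): done. If `q = p₁` and `δ ≤ r p₁`: done. If `q = p₁` and `r p₁ < δ`: if `p ∈ S` take `p`;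
otherwise `d(p, S) ≤ d(p₁, S) = r p₁ < δ`, so some `q' ∈ S` has `dist p q' < δ`. (Careful: for
`q ∈ insert p₁ S` the value `r' q` is not used.) The theorem is the claim for `S = {p₀}`.
-/

set_option autoImplicit false

namespace UF.CO

open Classical in
private theorem radii_aux {X : Type*} [PseudoMetricSpace X] (P : Finset X) :
    ∀ (m : ℕ) (S : Finset X), S ⊆ P → S.Nonempty → (P \ S).card = m →
    ∃ r : X → ℝ, (∀ p ∈ P, p ∉ S → ∀ q ∈ S, r p ≤ dist p q) ∧
      (∀ p ∈ P, ∀ q ∈ P, p ∉ S → q ∉ S → p ≠ q → min (r p) (r q) ≤ dist p q) ∧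
      ∀ δ : ℝ, 0 < δ → ∀ p ∈ P, ∃ q ∈ P, (q ∈ S ∨ δ ≤ r q) ∧ dist p q < δ := by
  intro m
  induction m with
  | zero =>
    intro S hS hne hc
    have hPS : P ⊆ S := Finset.sdiff_eq_empty_iff_subset.1 (Finset.card_eq_zero.1 hc)
    refine ⟨fun _ => 0, fun p hp hpS => absurd (hPS hp) hpS,
      fun p hp q hq hpS => absurd (hPS hp) hpS, fun δ hδ p hp => ⟨p, hp, Or.inl (hPS hp), ?_⟩⟩
    rw [dist_self]
    exact hδ
  | succ m ih =>
    intro S hS hne hc
    have hne2 : (P \ S).Nonempty := by
      rw [← Finset.card_pos, hc]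
      exact Nat.succ_pos m
    obtain ⟨p₁, hp₁, hmax⟩ := Finset.exists_max_image (P \ S)
      (fun p => S.inf' hne (fun q => dist p q)) hne2
    have hp₁P : p₁ ∈ P := (Finset.mem_sdiff.1 hp₁).1
    have hp₁S : p₁ ∉ S := (Finset.mem_sdiff.1 hp₁).2
    have hsub : insert p₁ S ⊆ P := Finset.insert_subset hp₁P hS
    have hcard : (P \ insert p₁ S).card = m := by
      have h1 : P \ insert p₁ S = (P \ S).erase p₁ := by
        ext x
        simp only [Finset.mem_sdiff, Finset.mem_insert, Finset.mem_erase]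
        tauto
      rw [h1, Finset.card_erase_of_mem hp₁, hc]
      rfl
    obtain ⟨r, ha, hb, hcc⟩ := ih (insert p₁ S) hsub (Finset.insert_nonempty _ _) hcard
    refine ⟨fun x => if x = p₁ then S.inf' hne (fun q => dist p₁ q) else r x, ?_, ?_, ?_⟩
    · intro p hp hpS q hq
      by_cases h : p = p₁
      · subst h
        simp only [if_true]
        exact Finset.inf'_le _ hq
      · simp only [if_neg h]
        refine ha p hp ?_ q (Finset.mem_insert_of_mem hq)
        simp only [Finset.mem_insert, not_or]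
        exact ⟨h, hpS⟩
    · intro p hp q hq hpS hqS hpq
      by_cases h : p = p₁
      · have hq1 : q ≠ p₁ := fun h' => hpq (h.trans h'.symm)
        simp only [if_neg hq1]
        refine le_trans (min_le_right _ _) ?_
        rw [dist_comm, h]
        refine ha q hq ?_ p₁ (Finset.mem_insert_self _ _)
        simp only [Finset.mem_insert, not_or]
        exact ⟨hq1, hqS⟩
      · by_cases h' : q = p₁
        · simp only [if_neg h]
          refine le_trans (min_le_left _ _) ?_
          rw [h']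
          refine ha p hp ?_ p₁ (Finset.mem_insert_self _ _)
          simp only [Finset.mem_insert, not_or]
          exact ⟨h, hpS⟩
        · simp only [if_neg h, if_neg h']
          refine hb p hp q hq ?_ ?_ hpq
          · simp only [Finset.mem_insert, not_or]
            exact ⟨h, hpS⟩
          · simp only [Finset.mem_insert, not_or]
            exact ⟨h', hqS⟩
    · intro δ hδ p hp
      obtain ⟨q, hq, hor, hd⟩ := hcc δ hδ p hp
      by_cases hqp : q = p₁
      · by_cases hr : δ ≤ S.inf' hne (fun q => dist p₁ q)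
        · refine ⟨q, hq, Or.inr ?_, hd⟩
          simp only [hqp, if_true]
          exact hr
        · by_cases hpS : p ∈ S
          · refine ⟨p, hp, Or.inl hpS, ?_⟩
            rw [dist_self]
            exact hδ
          · have h1 := hmax p (Finset.mem_sdiff.2 ⟨hp, hpS⟩)
            obtain ⟨q', hq', he⟩ := Finset.exists_mem_eq_inf' hne (fun q => dist p q)
            refine ⟨q', hS hq', Or.inl hq', ?_⟩
            have h2 : S.inf' hne (fun q => dist p q) < δ := lt_of_le_of_lt h1 (not_le.1 hr)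
            rw [he] at h2
            exact h2
      · refine ⟨q, hq, ?_, hd⟩
        simp only [if_neg hqp]
        rcases hor with h | h
        · rcases Finset.mem_insert.1 h with h | h
          · exact absurd h hqp
          · exact Or.inl h
        · exact Or.inr h

theorem exists_radii {X : Type*} [PseudoMetricSpace X] (P : Finset X) (p₀ : X) (h₀ : p₀ ∈ P) :
    ∃ r : X → ℝ, (∀ p ∈ P, p ≠ p₀ → r p ≤ dist p p₀) ∧
      (∀ p ∈ P, ∀ q ∈ P, p ≠ p₀ → q ≠ p₀ → p ≠ q → min (r p) (r q) ≤ dist p q) ∧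
      ∀ δ : ℝ, 0 < δ → ∀ p ∈ P, ∃ q ∈ P, (q = p₀ ∨ δ ≤ r q) ∧ dist p q < δ := by
  classical
  obtain ⟨r, ha, hb, hc⟩ := radii_aux P (P \ {p₀}).card {p₀} (Finset.singleton_subset_iff.2 h₀)
    (Finset.singleton_nonempty _) rfl
  refine ⟨r, fun p hp hne => ha p hp (by simpa using hne) p₀ (Finset.mem_singleton_self _),
    fun p hp q hq h1 h2 h3 => hb p hp q hq (by simpa using h1) (by simpa using h2) h3,
    fun δ hδ p hp => ?_⟩
  obtain ⟨q, hq, hor, hd⟩ := hc δ hδ p hp
  exact ⟨q, hq, hor.imp (fun h => Finset.mem_singleton.1 h) id, hd⟩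

end UF.CO
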