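import Pool.Agent.Work.MP_4c5ddc_co.CO.Dich
import Pool.Agent.Work.MP_4c5ddc_co.CO.Imp
import Pool.Agent.Work.MP_4c5ddc_co.CO.Cls

/-!
# CO/Vert (S-M): the number of vertices (assembly)

PROOF. By `dichotomy` the set of vertices is contained in the union of `{v | Improper N h v}` and of
the sets of `class_bound` over the elements `(ν₁, ν₂, ν₃, μ₁, μ₂, μ₃)` of `N ^ 6` with linearly
independent `ν`. Take for `N'` the sum over this finite set of the constants of `class_bound` plus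
`N.card ^ 3` (`Set.ncard_iUnion_le...`, `Set.ncard_union_le`, `Finset.sum`).
-/

set_option autoImplicit false

namespace UF.CO

private theorem biUnion_bound {ι : Type*} (I : Finset ι) (S : ι → Set E3) (c : ι → ℕ) (K : ℕ)
    (hS : ∀ i ∈ I, (S i).Finite ∧ (S i).ncard ≤ c i * K) :
    (⋃ i ∈ I, S i).Finite ∧ (⋃ i ∈ I, S i).ncard ≤ (∑ i ∈ I, c i) * K := by
  classical
  induction I using Finset.induction_on with
  | empty => simp
  | insert a I ha ih =>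
    have h1 := hS a (Finset.mem_insert_self a I)
    have h2 := ih fun i hi => hS i (Finset.mem_insert_of_mem hi)
    rw [Finset.set_biUnion_insert, Finset.sum_insert ha]
    refine ⟨h1.1.union h2.1, (Set.ncard_union_le _ _).trans ?_⟩
    rw [add_mul]
    exact add_le_add h1.2 h2.2

theorem vertices_bound (N : Finset E3) (hN : ∀ ν ∈ N, ν ≠ 0) (α : ℝ) : ∃ N' : ℕ, ∀ (n : ℕ)
    (h : Fin n → E3 → ℝ), (∀ i, Fat α (poly N (h i))) → GenPos (fun i => poly N (h i)) →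
    (∀ x, (idx (fun i => poly N (h i)) x).ncard ≤ 3) →
    (vertices fun i => poly N (h i)).Finite ∧
      (vertices fun i => poly N (h i)).ncard ≤ N' * (n ^ 2 * (1 + Nat.log 2 n)) := by
  classical
  have hex : ∀ q : E3 × E3 × E3 × E3 × E3 × E3, ∃ c : ℕ,
      q ∈ N ×ˢ N ×ˢ N ×ˢ N ×ˢ N ×ˢ N → LinearIndependent ℝ ![q.1, q.2.1, q.2.2.1] →
      ∀ (n : ℕ) (h : Fin n → E3 → ℝ), (∀ i, Fat α (poly N (h i))) →
      (∀ x, (idx (fun i => poly N (h i)) x).ncard ≤ 3) →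
      {v | ∃ t, PropAt N h q.1 q.2.1 q.2.2.1 q.2.2.2.1 q.2.2.2.2.1 q.2.2.2.2.2 t v}.Finite ∧
      {v | ∃ t, PropAt N h q.1 q.2.1 q.2.2.1 q.2.2.2.1 q.2.2.2.2.1 q.2.2.2.2.2 t v}.ncard ≤
        c * (n ^ 2 * (1 + Nat.log 2 n)) := by
    intro q
    by_cases hq : q ∈ N ×ˢ N ×ˢ N ×ˢ N ×ˢ N ×ˢ N ∧ LinearIndependent ℝ ![q.1, q.2.1, q.2.2.1]
    · simp only [Finset.mem_product] at hq
      obtain ⟨⟨h1, h2, h3, h4, h5, h6⟩, hl⟩ := hq
      obtain ⟨c, hc⟩ := class_bound N hN α _ _ _ _ _ _ h1 h2 h3 h4 h5 h6 hl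
      exact ⟨c, fun _ _ => hc⟩
    · exact ⟨0, fun h1 h2 => absurd ⟨h1, h2⟩ hq⟩
  choose c hc using hex
  set I := (N ×ˢ N ×ˢ N ×ˢ N ×ˢ N ×ˢ N).filter
    (fun q => LinearIndependent ℝ ![q.1, q.2.1, q.2.2.1]) with hI
  refine ⟨N.card ^ 3 + ∑ q ∈ I, c q, ?_⟩
  intro n h hF hG h3
  set S : E3 × E3 × E3 × E3 × E3 × E3 → Set E3 := fun q =>
    {v | ∃ t, PropAt N h q.1 q.2.1 q.2.2.1 q.2.2.2.1 q.2.2.2.2.1 q.2.2.2.2.2 t v} with hS
  have hB := biUnion_bound I S c (n ^ 2 * (1 + Nat.log 2 n)) (by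
    intro q hq
    rw [hI, Finset.mem_filter] at hq
    exact hc q hq.1 hq.2 n h hF h3)
  have hImp := improper_bound N h
  have hsub : (vertices fun i => poly N (h i)) ⊆ {v | Improper N h v} ∪ ⋃ q ∈ I, S q := by
    intro v hv
    rcases dichotomy N hN h hG hv with h1 | ⟨ν₁, h1, ν₂, h2, ν₃, h3', μ₁, h4, μ₂, h5, μ₃, h6, hl, t, ht⟩
    · exact Or.inl h1
    · refine Or.inr (Set.mem_iUnion₂.2 ⟨(ν₁, ν₂, ν₃, μ₁, μ₂, μ₃), ?_, t, ht⟩)
      rw [hI, Finset.mem_filter]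
      simp only [Finset.mem_product]
      exact ⟨⟨h1, h2, h3', h4, h5, h6⟩, hl⟩
  have hfin : ({v | Improper N h v} ∪ ⋃ q ∈ I, S q).Finite := hImp.1.union hB.1
  refine ⟨hfin.subset hsub, (Set.ncard_le_ncard hsub hfin).trans ((Set.ncard_union_le _ _).trans ?_)⟩
  rw [add_mul]
  refine add_le_add (hImp.2.trans ?_) hB.2
  exact Nat.mul_le_mul_left _ (Nat.le_mul_of_pos_right _ (by omega))

end UF.CO
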